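import Mathlib
import Pool.Agent.TH796.AL.Alg3

set_option autoImplicit false

/-!
# Numbers with a measure of algebraic independence are independent over the bounded germs
-/

namespace Pool.Agent.Run7.h123.LC

open Filter Topology Pool.Agent.TH932.Abs Pool.Agent.TH932.Germs Pool.Agent.TH932.Chi
open Pool.Agent.TH796.AL Pool.Agent.TH932.Words Pool.Agent.TH796.AL.Strong
open Pool.Agent.TH796.AL.Final Pool.Agent.TH796.AL.TwoB Pool.Agent.TH796.AL.Grp
open Pool.Agent.TH796.AL.Nv Pool.Agent.TH796.AL.Ai Pool.Agent.TH796.AL.Lin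
open Pool.Agent.TH796.AL.AlgA Pool.Agent.TH796.AL.Alg

/-- a measure of algebraic independence, polynomial in the height for every degree -/
def Meas {ι : Type} (x : ι → ℝ) : Prop :=
  ∀ D : ℕ, ∃ κ c : ℝ, 0 < κ ∧ 0 < c ∧ ∀ P : MvPolynomial ι ℤ, P ≠ 0 → P.totalDegree ≤ D →
    ∀ H : ℝ, (∀ s, |((P.coeff s : ℤ) : ℝ)| ≤ H) → c * H ^ (-κ) ≤ |MvPolynomial.aeval x P|

variable {m : ℕ} {B : Base m} {L : ℕ → ℝ} {hL : Tendsto L atTop atTop}

/-- **Algebraic independence over the bounded germs.** -/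
theorem ai_kst {ι : Type} {x : ι → ℝ} (hx : Meas x) :
    AlgebraicIndependent (RG hL B) (fun i => kst hL (x i)) := by
  classical
  rw [algebraicIndependent_iff]
  intro P hP
  by_contra hP0
  obtain ⟨s0, hs0⟩ := MvPolynomial.ne_zero_iff.1 hP0
  set e : P.support ≃ Fin (Fintype.card P.support) := Fintype.equivFin P.support with he
  have hs0' : s0 ∈ P.support := MvPolynomial.mem_support_iff.2 hs0
  set v : Fin (Fintype.card P.support) → RG hL B := fun j => P.coeff (e.symm j : ι →₀ ℕ) with hv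
  set w : Fin (Fintype.card P.support) → ℝ :=
    fun j => (e.symm j : ι →₀ ℕ).prod fun i k => x i ^ k with hw
  have h1 : ∑ j, phi hL B (v j) * kst hL (w j) = 0 := by
    rw [← hP]
    conv_rhs => rw [P.as_sum, map_sum, ← Finset.sum_coe_sort]
    rw [← Equiv.sum_comp e]
    refine Finset.sum_congr rfl fun s _ => ?_
    rw [MvPolynomial.aeval_monomial, hv, hw]
    simp only [Equiv.symm_apply_apply]
    rw [algebraMap_eq]
    congr 1
    rw [Finsupp.prod, Finsupp.prod, map_prod]
    exact Finset.prod_congr rfl fun i _ => map_pow _ _ _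
  have h2 := (rel_zero_iff hL B v w).1 h1
  obtain ⟨H, c, g1, g2, g3⟩ := clear v w (e ⟨s0, hs0'⟩) (by
    rw [hv]
    simp only [Equiv.symm_apply_apply]
    exact hs0) h2
  obtain ⟨κ, c0, hκ, hc0, hm⟩ := hx P.totalDegree
  have g2' : ∀ᶠ n in (UU : Filter ℕ), ∀ j, |(c j n : ℝ)| ≤ Real.exp (H * L n) := by
    rw [Filter.eventually_all]
    exact g2
  have hc1 : ∀ᶠ n in (UU : Filter ℕ), Real.exp (-L n) < c0 := by
    apply ev_of_atTop
    have h5 : Tendsto (fun n => Real.exp (-L n)) atTop (𝓝 0) :=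
      Real.tendsto_exp_atBot.comp (tendsto_neg_atTop_atBot.comp hL)
    exact h5.eventually (gt_mem_nhds hc0)
  obtain ⟨n, f1, f2, f3, f4⟩ := (g1.and (g2'.and ((g3 (H * κ + 1)).and hc1))).exists
  set Q : MvPolynomial ι ℤ := ∑ s : P.support, MvPolynomial.monomial (s : ι →₀ ℕ) (c (e s) n) with hQ
  have hcoef : ∀ s : P.support, Q.coeff (s : ι →₀ ℕ) = c (e s) n := by
    intro s
    rw [hQ, MvPolynomial.coeff_sum, Finset.sum_eq_single s]
    · rw [MvPolynomial.coeff_monomial, if_pos rfl]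
    · intro t _ ht
      rw [MvPolynomial.coeff_monomial, if_neg fun h => ht (Subtype.ext h)]
    · intro h
      exact absurd (Finset.mem_univ _) h
  have hcoef0 : ∀ s : ι →₀ ℕ, s ∉ P.support → Q.coeff s = 0 := by
    intro s hs
    rw [hQ, MvPolynomial.coeff_sum]
    refine Finset.sum_eq_zero fun t _ => ?_
    rw [MvPolynomial.coeff_monomial, if_neg fun h => hs (by rw [← h]; exact t.2)]
  have hQ0 : Q ≠ 0 := by
    intro h0
    have h3 := hcoef ⟨s0, hs0'⟩
    rw [h0, MvPolynomial.coeff_zero] at h3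
    exact f1 h3.symm
  have hQd : Q.totalDegree ≤ P.totalDegree := by
    rw [MvPolynomial.totalDegree, MvPolynomial.totalDegree]
    refine Finset.sup_mono fun s hs => ?_
    by_contra hs'
    exact (MvPolynomial.mem_support_iff.1 hs) (hcoef0 s hs')
  have hQH : ∀ s, |((Q.coeff s : ℤ) : ℝ)| ≤ Real.exp (H * L n) := by
    intro s
    by_cases hs : s ∈ P.support
    · rw [hcoef ⟨s, hs⟩]
      exact f2 _
    · rw [hcoef0 s hs, Int.cast_zero, abs_zero]
      exact (Real.exp_pos _).le
  have h3 := hm Q hQ0 hQd _ hQH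
  have hval : MvPolynomial.aeval x Q = ∑ j, (c j n : ℝ) * w j := by
    rw [hQ, map_sum, ← Equiv.sum_comp e]
    refine Finset.sum_congr rfl fun s _ => ?_
    rw [MvPolynomial.aeval_monomial, hw]
    simp only [Equiv.symm_apply_apply]
    rfl
  rw [hval] at h3
  have h4 := h3.trans f3
  rw [← Real.exp_mul] at h4
  have h5 : c0 ≤ Real.exp (-L n) := by
    have h6 : c0 * Real.exp (H * L n * -κ) * Real.exp (H * L n * κ)
        ≤ Real.exp (-((H * κ + 1) * L n)) * Real.exp (H * L n * κ) :=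
      mul_le_mul_of_nonneg_right h4 (Real.exp_pos _).le
    rw [mul_assoc, ← Real.exp_add, ← Real.exp_add] at h6
    have e1 : H * L n * -κ + H * L n * κ = 0 := by ring
    have e2 : -((H * κ + 1) * L n) + H * L n * κ = -L n := by ring
    rw [e1, e2, Real.exp_zero, mul_one] at h6
    exact h6
  linarith

/-- numbers with a measure are algebraically independent over `ℤ` -/
lemma Meas.ai {ι : Type} {x : ι → ℝ} (hx : Meas x) : AlgebraicIndependent ℤ x := by
  rw [algebraicIndependent_iff]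
  intro P hP
  by_contra hP0
  obtain ⟨κ, c, hκ, hc, hm⟩ := hx P.totalDegree
  set H : ℝ := 1 + ∑ s ∈ P.support, |((P.coeff s : ℤ) : ℝ)| with hH
  have hH0 : 0 ≤ ∑ s ∈ P.support, |((P.coeff s : ℤ) : ℝ)| :=
    Finset.sum_nonneg fun _ _ => abs_nonneg _
  have h1 := hm P hP0 le_rfl H (fun s => by
    by_cases hs : s ∈ P.support
    · have := Finset.single_le_sum (f := fun s => |((P.coeff s : ℤ) : ℝ)|)
        (fun _ _ => abs_nonneg _) hs
      linarith
    · rw [MvPolynomial.notMem_support_iff.1 hs, Int.cast_zero, abs_zero]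
      linarith)
  rw [hP, abs_zero] at h1
  have h2 : 0 < H ^ (-κ) := Real.rpow_pos_of_pos (by linarith) _
  nlinarith

/-- subfamilies -/
lemma Meas.comp {ι κ : Type} {x : ι → ℝ} (h : Meas x) (g : κ → ι) (hg : Function.Injective g) :
    Meas (x ∘ g) := by
  intro D
  obtain ⟨r, c, hr, hc, hm⟩ := h D
  refine ⟨r, c, hr, hc, fun P hP hD H hH => ?_⟩
  have hH1 : 0 ≤ H := (abs_nonneg _).trans (hH 0)
  have h1 := hm (MvPolynomial.rename g P)
    (fun h0 => hP (MvPolynomial.rename_injective g hg (h0.trans (map_zero _).symm)))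
    ((MvPolynomial.totalDegree_rename_le g P).trans hD) H (fun s => by
      by_cases hs : (MvPolynomial.rename g P).coeff s = 0
      · rw [hs]
        simpa using hH1
      · obtain ⟨u, hu, -⟩ := MvPolynomial.coeff_rename_ne_zero _ _ _ hs
        rw [← hu, MvPolynomial.coeff_rename_mapDomain g hg]
        exact hH u)
  rwa [MvPolynomial.aeval_rename] at h1

end Pool.Agent.Run7.h123.LC
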