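import Mathlib
import Pool.Agent.TH796.AL.AlgB

set_option autoImplicit false

/-!
# Low complexity fields in independent bases: the deficiency inequality, abstract part
-/

namespace Pool.Agent.Run7.h123.LC

open Pool.Agent.TH796.AL.AlgA

/-- submodularity of the rank for a finite family of sets over a common set -/
lemma submod {α : Type} (M : Matroid α) (Z : Set α) : ∀ (r : ℕ) (I : Fin r → Set α),
    M.eRk (Z ∪ ⋃ i, I i) + (r : ℕ∞) * M.eRk Z ≤ M.eRk Z + ∑ i, M.eRk (Z ∪ I i) := by
  intro r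
  induction r with
  | zero =>
    intro I
    simp
  | succ r ih =>
    intro I
    have h1 := ih (fun i => I i.castSucc)
    have h2 := M.eRk_inter_add_eRk_union_le (Z ∪ ⋃ i : Fin r, I i.castSucc) (Z ∪ I (Fin.last r))
    have h3 : M.eRk Z ≤ M.eRk ((Z ∪ ⋃ i : Fin r, I i.castSucc) ∩ (Z ∪ I (Fin.last r))) :=
      M.eRk_mono (Set.subset_inter Set.subset_union_left Set.subset_union_left)
    have h4 : Z ∪ ⋃ i, I i ⊆ (Z ∪ ⋃ i : Fin r, I i.castSucc) ∪ (Z ∪ I (Fin.last r)) := by
      rintro x (hx | hx)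
      · exact Or.inl (Or.inl hx)
      · obtain ⟨i, hi⟩ := Set.mem_iUnion.1 hx
        revert hi
        refine Fin.lastCases (fun hi => ?_) (fun j hi => ?_) i
        · exact Or.inr (Or.inr hi)
        · exact Or.inl (Or.inr (Set.mem_iUnion.2 ⟨j, hi⟩))
    have h5 := M.eRk_mono h4
    rw [Fin.sum_univ_castSucc]
    calc M.eRk (Z ∪ ⋃ i, I i) + ((r + 1 : ℕ) : ℕ∞) * M.eRk Z
        = (M.eRk Z + M.eRk (Z ∪ ⋃ i, I i)) + (r : ℕ∞) * M.eRk Z := by
          push_cast
          ring
      _ ≤ (M.eRk ((Z ∪ ⋃ i : Fin r, I i.castSucc) ∩ (Z ∪ I (Fin.last r)))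
            + M.eRk ((Z ∪ ⋃ i : Fin r, I i.castSucc) ∪ (Z ∪ I (Fin.last r))))
            + (r : ℕ∞) * M.eRk Z := by gcongr
      _ ≤ (M.eRk (Z ∪ ⋃ i : Fin r, I i.castSucc) + M.eRk (Z ∪ I (Fin.last r)))
            + (r : ℕ∞) * M.eRk Z := by gcongr
      _ = (M.eRk (Z ∪ ⋃ i : Fin r, I i.castSucc) + (r : ℕ∞) * M.eRk Z)
            + M.eRk (Z ∪ I (Fin.last r)) := by ring
      _ ≤ (M.eRk Z + ∑ i : Fin r, M.eRk (Z ∪ I i.castSucc)) + M.eRk (Z ∪ I (Fin.last r)) := by
          gcongr
      _ = _ := by ring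

variable {R A : Type} [CommRing R] [CommRing A] [Algebra R A]

open AlgebraicIndependent in
/-- independent subsets of linearly disjoint sets: the union is independent and disjoint -/
lemma union_fam [IsDomain A] [FaithfulSMul R A] (r : ℕ) : ∀ (U W : Fin r → Submonoid A)
    (_ : ∀ k, LD R (W k) (U k)) (_ : ∀ j k, j < k → U j ≤ W k) (I : Fin r → Set A)
    (_ : ∀ i, I i ⊆ U i) (_ : ∀ i, (matroid R A).Indep (I i)),
    (matroid R A).Indep (⋃ i, I i) ∧ (⋃ i, I i).encard = ∑ i, (I i).encard := by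
  induction r with
  | zero =>
    intro U W _ _ I _ _
    simp
  | succ r ih =>
    intro U W hLD hUW I hI hind
    obtain ⟨h1, h2⟩ := ih (fun i => U i.castSucc) (fun i => W i.castSucc) (fun k => hLD _)
      (fun j k hjk => hUW _ _ (by simpa using hjk)) (fun i => I i.castSucc) (fun i => hI _)
      (fun i => hind _)
    have h3 : (⋃ i : Fin r, I i.castSucc) ⊆ W (Fin.last r) := by
      refine Set.iUnion_subset fun i => (hI _).trans ?_
      exact hUW _ _ (Fin.castSucc_lt_last i)
    obtain ⟨h4, h5⟩ := indep_union (hLD (Fin.last r)) h3 (hI (Fin.last r)) h1 (hind _)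
    have h6 : (⋃ i, I i) = (⋃ i : Fin r, I i.castSucc) ∪ I (Fin.last r) := by
      ext x
      simp only [Set.mem_iUnion, Set.mem_union]
      constructor
      · rintro ⟨i, hi⟩
        revert hi
        refine Fin.lastCases (fun hi => ?_) (fun j hi => ?_) i
        · exact Or.inr hi
        · exact Or.inl ⟨j, hi⟩
      · rintro (⟨i, hi⟩ | hi)
        · exact ⟨_, hi⟩
        · exact ⟨_, hi⟩
    rw [h6, Fin.sum_univ_castSucc, ← h2]
    exact ⟨h4, Set.encard_union_eq (Set.disjoint_iff_inter_eq_empty.2 h5)⟩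

open AlgebraicIndependent in
/-- **The deficiency inequality, abstract form.** -/
theorem deficiency [IsDomain A] [FaithfulSMul R A] {r n : ℕ} (U W : Fin r → Submonoid A)
    (hLD : ∀ k, LD R (W k) (U k)) (hUW : ∀ j k, j < k → U j ≤ W k)
    (x : Fin n → A) (hx : AlgebraicIndependent R x) (T : Fin r → Finset (Fin n))
    (hT : ∀ i j, x j ∈ (matroid R A).closure ((U i : Set A) ∪ x '' (T i))) :
    r * n ≤ n + ∑ i, (T i).card := by
  classical
  set M := matroid R A with hM
  have hR : Nontrivial R := by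
    by_contra h
    rw [not_nontrivial_iff_subsingleton] at h
    have : (1 : A) = 0 := by
      rw [← map_one (algebraMap R A), Subsingleton.elim (1 : R) 0, map_zero]
    exact one_ne_zero this
  have hE : ∀ s : Set A, s ⊆ M.E := fun s => Set.subset_univ _
  have key : ∀ i, ∃ I : Set A, I ⊆ U i ∧ M.Indep I ∧ I.Finite ∧
      ∀ j, x j ∈ M.closure (I ∪ x '' (T i)) := by
    intro i
    obtain ⟨J, hJ⟩ := M.exists_isBasis (U i : Set A) (hE _)
    have h1 : ∀ j, x j ∈ M.closure (J ∪ x '' (T i)) := by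
      intro j
      have h2 := hT i j
      rw [← Matroid.closure_union_closure_left_eq, ← hJ.closure_eq_closure,
        Matroid.closure_union_closure_left_eq] at h2
      exact h2
    choose C hCs hCf _ hCx using fun j => Matroid.exists_mem_finite_closure_of_mem_closure (h1 j)
    refine ⟨J ∩ ⋃ j, C j, fun a ha => hJ.subset ha.1, hJ.indep.subset Set.inter_subset_left,
      (Set.finite_iUnion hCf).subset Set.inter_subset_right, fun j => ?_⟩
    refine M.closure_subset_closure ?_ (hCx j)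
    intro a ha
    rcases hCs j ha with h2 | h2
    · exact Or.inl ⟨h2, Set.mem_iUnion.2 ⟨j, ha⟩⟩
    · exact Or.inr h2
  choose I hI hind hfin hcl using key
  obtain ⟨h1, h2⟩ := union_fam r U W hLD hUW I hI hind
  have hinj : Function.Injective x := hx.injective
  have hZ : M.eRk (Set.range x) = n := by
    have h3 : M.Indep (Set.range x) := AlgebraicIndependent.matroid_indep_iff.2 hx.coe_range
    rw [h3.eRk_eq_encard, Set.encard_eq_coe_toFinset_card, Set.toFinset_range,
      Finset.card_image_of_injective _ hinj, Finset.card_univ, Fintype.card_fin]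
  have h3 := submod M (Set.range x) r I
  rw [hZ] at h3
  have h4 : (∑ i, (I i).encard) ≤ M.eRk (Set.range x ∪ ⋃ i, I i) := by
    rw [← h2, ← h1.eRk_eq_encard]
    exact M.eRk_mono Set.subset_union_right
  have h5 : ∀ i, M.eRk (Set.range x ∪ I i) ≤ (I i).encard + ((T i).card : ℕ∞) := by
    intro i
    have h6 : Set.range x ∪ I i ⊆ M.closure (I i ∪ x '' (T i)) := by
      rintro a (⟨j, rfl⟩ | ha)
      · exact hcl i j
      · exact M.subset_closure _ (hE _) (Or.inl ha)
    calc M.eRk (Set.range x ∪ I i) ≤ M.eRk (M.closure (I i ∪ x '' (T i))) := M.eRk_mono h6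
      _ = M.eRk (I i ∪ x '' (T i)) := M.eRk_closure_eq _
      _ ≤ (I i ∪ x '' (T i)).encard := M.eRk_le_encard _
      _ ≤ (I i).encard + (x '' (T i)).encard := Set.encard_union_le _ _
      _ ≤ _ := by
          gcongr
          refine (Set.encard_image_le _ _).trans ?_
          rw [Set.encard_coe_eq_coe_finsetCard]
  choose k hk using fun i => ((hfin i).exists_encard_eq_coe : ∃ k : ℕ, (I i).encard = k)
  have h7 : ((∑ i, k i : ℕ) : ℕ∞) + ((r * n : ℕ) : ℕ∞) ≤ (n : ℕ∞) + ((∑ i, (k i + (T i).card) : ℕ) : ℕ∞) := by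
    calc ((∑ i, k i : ℕ) : ℕ∞) + ((r * n : ℕ) : ℕ∞)
        = (∑ i, (I i).encard) + (r : ℕ∞) * (n : ℕ∞) := by
          push_cast
          simp only [hk]
      _ ≤ M.eRk (Set.range x ∪ ⋃ i, I i) + (r : ℕ∞) * (n : ℕ∞) := by gcongr
      _ ≤ (n : ℕ∞) + ∑ i, M.eRk (Set.range x ∪ I i) := h3
      _ ≤ (n : ℕ∞) + ∑ i, ((I i).encard + ((T i).card : ℕ∞)) := by
          gcongr with i _
          exact h5 i
      _ = _ := by
          push_cast
          simp only [hk]
  have h8 : (∑ i, k i) + r * n ≤ n + ∑ i, (k i + (T i).card) := by exact_mod_cast h7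
  rw [Finset.sum_add_distrib] at h8
  omega

end Pool.Agent.Run7.h123.LC
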