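import Mathlib
import Pool.Agent.Run7.h123.LC.Rank
import Pool.Agent.Run7.h123.LC.Meas
import Pool.Agent.TH796.AL.Alg4

set_option autoImplicit false

/-!
# The deficiency inequality for the fields of low complexity
-/

namespace Pool.Agent.Run7.h123.LC

open Filter Topology Pool.Agent.TH932.Abs Pool.Agent.TH932.Germs Pool.Agent.TH932.Chi
open Pool.Agent.TH796.AL Pool.Agent.TH932.Words Pool.Agent.TH796.AL.Strong
open Pool.Agent.TH796.AL.Final Pool.Agent.TH796.AL.TwoB Pool.Agent.TH796.AL.Grp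
open Pool.Agent.TH796.AL.Nv Pool.Agent.TH796.AL.Ai Pool.Agent.TH796.AL.Lin
open Pool.Agent.TH796.AL.AlgA Pool.Agent.TH796.AL.Alg

open AlgebraicIndependent in
/-- algebraic dependence is transported by injective homomorphisms -/
lemma closure_map {R A : Type} [CommRing R] [Field A] [Algebra R A] [FaithfulSMul R A]
    (σ : ℝ →+* A) {s : Set ℝ} {z : ℝ} (h : z ∈ (matroid ℤ ℝ).closure s) :
    σ z ∈ (matroid R A).closure (σ '' s) := by
  rw [matroid_closure_eq] at h ⊢
  have hz : IsAlgebraic (Algebra.adjoin ℤ s) z := h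
  have key : ∀ y ∈ Algebra.adjoin ℤ s, σ y ∈ Algebra.adjoin R (σ '' s) := by
    intro y hy
    induction hy using Algebra.adjoin_induction with
    | mem x hx => exact Algebra.subset_adjoin ⟨x, hx, rfl⟩
    | algebraMap r =>
      rw [eq_intCast, map_intCast]
      exact intCast_mem _ _
    | add x y _ _ hx hy => rw [map_add]; exact add_mem hx hy
    | mul x y _ _ hx hy => rw [map_mul]; exact mul_mem hx hy
  change IsAlgebraic (Algebra.adjoin R (σ '' s)) (σ z)
  refine IsAlgebraic.ringHom_of_comp_eq (R := Algebra.adjoin ℤ s)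
    ((σ.comp (Algebra.adjoin ℤ s).val.toRingHom).codRestrict (Algebra.adjoin R (σ '' s))
      (fun y => key y y.2)) σ hz ?_ ?_
  · intro a b hab
    have h1 := congrArg (fun v : Algebra.adjoin R (σ '' s) => (v : A)) hab
    exact Subtype.ext (σ.injective h1)
  · ext a
    rfl

open AlgebraicIndependent in
/-- **The deficiency inequality.** -/
theorem deficiency_Fl {r n : ℕ} {Γ : Fin r → Subgroup ℚˣ} (hΓ : GIndep Γ) {S : Set ℕ}
    (hS : S.Infinite) {x : Fin n → ℝ} (hx : Meas x) (T : Fin r → Finset (Fin n))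
    (hT : ∀ i j, x j ∈ (matroid ℤ ℝ).closure ((Fl S (Γ i) : Set ℝ) ∪ x '' (T i))) :
    r * n ≤ n + ∑ i, (T i).card := by
  classical
  choose C hCs hCf _ hCx using fun i j =>
    Matroid.exists_mem_finite_closure_of_mem_closure (hT i j)
  set F : Fin r → Set ℝ := fun i => (⋃ j, C i j) ∩ (Fl S (Γ i) : Set ℝ) with hF
  have hFf : ∀ i, (F i).Finite := fun i =>
    (Set.finite_iUnion (hCf i)).subset Set.inter_subset_left
  have : ∀ i, Finite (F i) := fun i => (hFf i).to_subtype
  obtain ⟨m, B, L, hL, h⟩ := ifield (ι := Σ i, F i) (fun k => Γ k.1) hS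
    (fun k => (k.2 : ℝ)) (fun k => k.2.2.2)
  refine deficiency (R := RG hL B) (fun i => UF B hL (VS B (Γ i)))
    (fun k => UF B hL (⨆ j : Fin r, ⨆ (_ : j ≠ k), VS B (Γ j))) (fun k => ?_) (fun j k hjk => ?_)
    (fun j => kst hL (x j)) (ai_kst hx) T (fun i j => ?_)
  · exact ld (vindep B hΓ k).symm
  · exact UF_mono (le_iSup₂_of_le j hjk.ne le_rfl)
  · have h1 := closure_map (R := RG hL B) (kst hL) (hCx i j)
    refine (matroid (RG hL B) (FF hL)).closure_subset_closure ?_ h1
    rintro _ ⟨y, hy, rfl⟩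
    rcases hCs i j hy with h2 | ⟨l, hl, rfl⟩
    · exact Or.inl ⟨y, h ⟨i, ⟨y, Set.mem_iUnion.2 ⟨j, hy⟩, h2⟩⟩, rfl⟩
    · exact Or.inr ⟨l, hl, rfl⟩

end Pool.Agent.Run7.h123.LC
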