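import Mathlib
import Pool.Agent.Run7.h123.LC.Def
import Pool.Agent.TH796.Fin.Fin8

set_option autoImplicit false

/-!
# The deficiency inequality for arbitrary families of groups and bases
-/

namespace Pool.Agent.Run7.h123.LC

open Filter Topology Finset
open Pool.Agent.TH796.AL Pool.Agent.TH932.Words Pool.Agent.TH796.AL.Final
open Pool.Agent.TH796.AL.TwoB Pool.Agent.TH796.AL.Ai Pool.Agent.TH796.AL.Alg
open Pool.Agent.TH796.AL.Grp Pool.Agent.TH796.Fin

/-- independent family of groups -/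
def IndepG {I : Type} (Γ : I → Subgroup ℚˣ) : Prop :=
  ∀ (F : Finset I) (g : I → ℚˣ), (∀ i ∈ F, g i ∈ Γ i) → ∏ i ∈ F, g i = 1 → ∀ i ∈ F, g i = 1

lemma gindep_of {I : Type} {Γ : I → Subgroup ℚˣ} (h : IndepG Γ) {r : ℕ} (e : Fin r → I)
    (he : Function.Injective e) : GIndep (fun k => Γ (e k)) := by
  classical
  intro g hg hp k
  have h1 := h (Finset.univ.image e) (fun i => if hi : ∃ k, e k = i then g hi.choose else 1)
    (by
      intro i hi
      obtain ⟨l, -, rfl⟩ := Finset.mem_image.1 hi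
      have hx : ∃ k, e k = e l := ⟨l, rfl⟩
      simp only [dif_pos hx]
      have h2 : g hx.choose ∈ Γ (e hx.choose) := hg hx.choose
      rwa [hx.choose_spec] at h2) (by
      rw [Finset.prod_image (fun a _ b _ hab => he hab), ← hp]
      refine Finset.prod_congr rfl fun l _ => ?_
      have hx : ∃ k, e k = e l := ⟨l, rfl⟩
      simp only [dif_pos hx]
      rw [he hx.choose_spec]) (e k) (Finset.mem_image_of_mem _ (Finset.mem_univ k))
  have hx : ∃ l, e l = e k := ⟨k, rfl⟩
  simp only [dif_pos hx] at h1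
  rwa [he hx.choose_spec] at h1

/-- a maximal algebraically independent subfamily -/
lemma exists_max {F : Type} [Field F] [Algebra F ℝ] {n : ℕ} (x : Fin n → ℝ) :
    ∃ T : Finset (Fin n), AlgebraicIndependent F (fun j : T => x j) ∧
      ∀ j, IsAlgebraic (Algebra.adjoin F (x '' T)) (x j) := by
  classical
  obtain ⟨T, hT, hmax⟩ := Finset.exists_max_image
    ((Finset.univ : Finset (Finset (Fin n))).filter fun T : Finset (Fin n) =>
      AlgebraicIndependent F (fun j : T => x j)) Finset.card ⟨(∅ : Finset (Fin n)), by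
      rw [Finset.mem_filter]
      refine ⟨Finset.mem_univ _, ?_⟩
      exact algebraicIndependent_empty_type_iff.2 (FaithfulSMul.algebraMap_injective F ℝ)⟩
  rw [Finset.mem_filter] at hT
  refine ⟨T, hT.2, fun j => ?_⟩
  by_cases hj : j ∈ T
  · exact isAlgebraic_algebraMap (⟨x j, Algebra.subset_adjoin ⟨j, hj, rfl⟩⟩ :
      Algebra.adjoin F (x '' T))
  by_contra htr
  have h1 : AlgebraicIndepOn F x (insert j (T : Set (Fin n))) := by
    refine AlgebraicIndepOn.insert (s := (T : Set (Fin n))) hT.2 ?_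
    exact htr
  have h2 : insert j T ∈ ((Finset.univ : Finset (Finset (Fin n))).filter
      fun T : Finset (Fin n) => AlgebraicIndependent F (fun j : T => x j)) := by
    rw [Finset.mem_filter]
    refine ⟨Finset.mem_univ _, ?_⟩
    rw [← Finset.coe_insert] at h1
    exact h1
  have h3 := hmax _ h2
  rw [Finset.card_insert_of_notMem hj] at h3
  omega

open AlgebraicIndependent in
/-- from algebras over a field to algebras over the integers -/
lemma closure_of_adjoin {K : Subfield ℝ} {s : Set ℝ} {z : ℝ}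
    (h : IsAlgebraic (Algebra.adjoin K s) z) :
    z ∈ (matroid ℤ ℝ).closure ((K : Set ℝ) ∪ s) := by
  rw [matroid_closure_eq]
  have key : ∀ y ∈ Algebra.adjoin K s, y ∈ Algebra.adjoin ℤ ((K : Set ℝ) ∪ s) := by
    intro y hy
    induction hy using Algebra.adjoin_induction with
    | mem x hx => exact Algebra.subset_adjoin (Or.inr hx)
    | algebraMap r => exact Algebra.subset_adjoin (Or.inl r.2)
    | add x y _ _ hx hy => exact add_mem hx hy
    | mul x y _ _ hx hy => exact mul_mem hx hy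
  change IsAlgebraic (Algebra.adjoin ℤ ((K : Set ℝ) ∪ s)) z
  refine IsAlgebraic.ringHom_of_comp_eq (R := Algebra.adjoin K s)
    ((Algebra.adjoin K s).val.toRingHom.codRestrict (Algebra.adjoin ℤ ((K : Set ℝ) ∪ s))
      (fun y => key y y.2)) (RingHom.id ℝ) h ?_ ?_
  · intro a b hab
    have h1 := congrArg (fun v : Algebra.adjoin ℤ ((K : Set ℝ) ∪ s) => (v : ℝ)) hab
    exact Subtype.ext h1
  · ext a
    rfl

/-- the real numbers algebraic over `K` -/
noncomputable abbrev Cl (K : Subfield ℝ) : IntermediateField K ℝ := algebraicClosure K ℝ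

/-- **The deficiency inequality** for a family of groups. -/
theorem deficiency_fam {I : Type} {Γ : I → Subgroup ℚˣ} (hΓ : IndepG Γ) {S : Set ℕ}
    (hS : S.Infinite) {n : ℕ} {x : Fin n → ℝ} (hx : Meas x) (K : I → Subfield ℝ)
    (hK : ∀ i, K i ≤ Fl S (Γ i)) :
    ∃ T : I → Finset (Fin n), (∀ i, AlgebraicIndependent (Cl (K i)) (fun j : T i => x j)) ∧
      ∀ F : Finset I, ∑ i ∈ F, (n - (T i).card) ≤ n := by
  classical
  choose T hT1 hT2 using fun i => exists_max (F := K i) x
  refine ⟨T, fun i => (hT1 i).extendScalars (Cl (K i)), fun F => ?_⟩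
  set e : Fin F.card ≃ F := F.equivFin.symm with he
  have h1 := deficiency_Fl (r := F.card) (Γ := fun k => Γ (e k))
    (gindep_of hΓ (fun k => (e k : I)) (Subtype.val_injective.comp e.injective)) hS hx
    (fun k => T (e k)) (fun k j => by
      refine (AlgebraicIndependent.matroid ℤ ℝ).closure_subset_closure ?_
        (closure_of_adjoin (hT2 (e k) j))
      exact Set.union_subset_union_left _ (hK _))
  have h2 : ∑ k, (T (e k)).card = ∑ i ∈ F, (T i).card := by
    rw [Equiv.sum_comp e (fun i : F => (T i).card), Finset.sum_coe_sort F (fun i => (T i).card)]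
  rw [h2] at h1
  have h3 : ∀ i, (T i).card ≤ n := fun i => by
    have := Finset.card_le_univ (T i)
    rwa [Fintype.card_fin] at this
  have h4 : ∑ i ∈ F, (n - (T i).card) + ∑ i ∈ F, (T i).card = F.card * n := by
    rw [← Finset.sum_add_distrib, Finset.sum_congr rfl fun i _ => Nat.sub_add_cancel (h3 i),
      Finset.sum_const, smul_eq_mul]
  omega

/-- full index set -/
lemma full {F : Type} [Field F] [Algebra F ℝ] {n : ℕ} {x : Fin n → ℝ} {T : Finset (Fin n)}
    (h : AlgebraicIndependent F (fun j : T => x j)) (hT : n ≤ T.card) :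
    AlgebraicIndependent F x := by
  have h1 : T = Finset.univ := by
    rw [← Finset.card_eq_iff_eq_univ, Fintype.card_fin]
    have := Finset.card_le_univ T
    rw [Fintype.card_fin] at this
    omega
  have h2 := h.comp (fun j : Fin n => (⟨j, by rw [h1]; exact Finset.mem_univ j⟩ : T))
    (fun a b hab => by simpa using hab)
  exact h2

/-- **All groups but at most `n`.** -/
theorem exceptional_fam {I : Type} {Γ : I → Subgroup ℚˣ} (hΓ : IndepG Γ) {S : Set ℕ}
    (hS : S.Infinite) {n : ℕ} {x : Fin n → ℝ} (hx : Meas x) (K : I → Subfield ℝ)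
    (hK : ∀ i, K i ≤ Fl S (Γ i)) :
    ∃ E : Finset I, E.card ≤ n ∧ ∀ i, i ∉ E → AlgebraicIndependent (Cl (K i)) x := by
  classical
  obtain ⟨T, hT1, hT2⟩ := deficiency_fam hΓ hS hx K hK
  set Z : Set I := {i | (T i).card < n} with hZ
  have hle : ∀ F : Finset I, (F : Set I) ⊆ Z → F.card ≤ n := by
    intro F hF
    refine le_trans ?_ (hT2 F)
    rw [Finset.card_eq_sum_ones]
    refine Finset.sum_le_sum fun i hi => ?_
    have : (T i).card < n := hF hi
    omega
  have hfin : Z.Finite := by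
    by_contra hinf
    obtain ⟨F, hF, hc⟩ := (show Z.Infinite from hinf).exists_subset_card_eq (n + 1)
    have := hle F hF
    omega
  refine ⟨hfin.toFinset, hle _ (by simp), fun i hi => ?_⟩
  have h1 : ¬ (T i).card < n := by
    intro h
    exact hi (hfin.mem_toFinset.2 h)
  exact full (hT1 i) (not_lt.1 h1)

/-! ### bases -/

/-- multiplicatively independent integers -/
def MInd {r : ℕ} (b : Fin r → ℕ) : Prop := ∀ k : Fin r → ℤ, ∏ i, (b i : ℚ) ^ k i = 1 → k = 0

lemma gindep_cls {r : ℕ} {b : Fin r → ℕ} (hb : ∀ i, 2 ≤ b i) (h : MInd b) :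
    GIndep (fun i => GA (cls (b i))) := by
  classical
  choose q hq hqb using fun i => common_root (hb i)
  choose p hp using fun i => hqb i (b i) (hb i) (not_indep_self (b i))
  have hp0 : ∀ i, p i ≠ 0 := by
    intro i h0
    have h1 := hp i
    rw [h0, pow_zero] at h1
    have := hb i
    omega
  intro g hg hprod
  have hg' : ∀ i, ∃ k : ℤ, ((g i : ℚˣ) : ℚ) = (q i : ℚ) ^ k := by
    intro i
    have h1 := GA_cls_le (hq i) (hqb i) (hg i)
    unfold GA at h1
    obtain ⟨v, hv, hv1⟩ := mem_GA (hq i) (Set.mem_singleton (q i))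
    have h2 : {u : ℚˣ | ∃ b ∈ ({q i} : Set ℕ), ((u : ℚˣ) : ℚ) = b} = {v} := by
      ext u
      constructor
      · rintro ⟨b, hb, hu⟩
        rw [Set.mem_singleton_iff.1 hb] at hu
        exact Units.ext (hu.trans hv1.symm)
      · intro hu
        rw [Set.mem_singleton_iff.1 hu]
        exact ⟨q i, rfl, hv1⟩
    rw [h2, Subgroup.mem_closure_singleton] at h1
    obtain ⟨k, hk⟩ := h1
    refine ⟨k, ?_⟩
    rw [← hk, Units.val_zpow_eq_zpow_val, hv1]
  choose k hk using hg'
  have hcast : ∏ i, ((g i : ℚˣ) : ℚ) = 1 := by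
    have := congrArg (fun u : ℚˣ => (u : ℚ)) hprod
    simpa using this
  have hP : ∏ i, (b i : ℚ) ^ (k i * ∏ j ∈ Finset.univ.erase i, (p j : ℤ)) = 1 := by
    have h1 : ∀ i, (b i : ℚ) ^ (k i * ∏ j ∈ Finset.univ.erase i, (p j : ℤ)) =
        ((g i : ℚˣ) : ℚ) ^ (∏ j, (p j : ℤ)) := by
      intro i
      have h2 : (b i : ℚ) = (q i : ℚ) ^ (p i : ℤ) := by
        rw [zpow_natCast]
        exact_mod_cast hp i
      rw [hk i, h2, ← zpow_mul, ← zpow_mul, ← Finset.mul_prod_erase _ _ (Finset.mem_univ i)]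
      congr 1
      ring
    rw [Finset.prod_congr rfl fun i _ => h1 i, Finset.prod_zpow, hcast, one_zpow]
  have h0 := h _ hP
  intro i
  have h1 := congrFun h0 i
  simp only [Pi.zero_apply] at h1
  have h2 : k i = 0 := by
    refine (mul_eq_zero.1 h1).resolve_right (Finset.prod_ne_zero_iff.2 fun j _ => ?_)
    exact_mod_cast hp0 j
  apply Units.ext
  rw [hk i, h2, zpow_zero, Units.val_one]

/-- **All bases outside a group of rank at most `n`**, for fields contained in the fields of
groups attached to the bases. -/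
theorem exceptional_gen {S : Set ℕ} (hS : S.Infinite) {n : ℕ} {x : Fin n → ℝ} (hx : Meas x)
    (Δ : ℕ → Subgroup ℚˣ) (hΔ : ∀ (r : ℕ) (b : Fin r → ℕ), (∀ i, 2 ≤ b i) → MInd b →
      GIndep (fun i => Δ (b i))) (K : ℕ → Subfield ℝ) (hK : ∀ b, 2 ≤ b → K b ≤ Fl S (Δ b)) :
    ∃ (k : ℕ) (c : Fin k → ℕ), k ≤ n ∧ (∀ i, 2 ≤ c i) ∧ MInd c ∧
      ∀ b : ℕ, 2 ≤ b → MInd (Fin.snoc c b : Fin (k + 1) → ℕ) →
        AlgebraicIndependent (Cl (K b)) x := by
  classical
  set Bad : ℕ → Prop := fun b => ¬ AlgebraicIndependent (Cl (K b)) x with hBad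
  set P : ℕ → Prop := fun k => ∃ c : Fin k → ℕ, (∀ i, 2 ≤ c i) ∧ MInd c ∧ ∀ i, Bad (c i) with hP
  have hle : ∀ k, P k → k ≤ n := by
    rintro k ⟨c, hc, hi, hb⟩
    have h1 : IndepG (fun i : Fin k => Δ (c i)) := by
      intro F g hg hp
      have h2 := hΔ k c hc hi (fun i => if i ∈ F then g i else 1) (fun i => by
        simp only
        split_ifs with h
        · exact hg i h
        · exact one_mem _) (by
        have h3 : ∏ i, (if i ∈ F then g i else 1) = ∏ i ∈ F, g i := by
          rw [Finset.prod_ite_mem, Finset.univ_inter]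
        exact h3.trans hp)
      intro i hiF
      have h3 := h2 i
      simp only [if_pos hiF] at h3
      exact h3
    obtain ⟨E, hE, h2⟩ := exceptional_fam h1 hS hx (fun i => K (c i)) (fun i => hK _ (hc i))
    have h3 : E = Finset.univ := by
      rw [Finset.eq_univ_iff_forall]
      intro i
      by_contra hiE
      exact hb i (h2 i hiE)
    rw [h3, Finset.card_univ, Fintype.card_fin] at hE
    exact hE
  have h0 : P 0 := ⟨Fin.elim0, fun i => i.elim0, fun k _ => Subsingleton.elim _ _,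
    fun i => i.elim0⟩
  obtain ⟨k, hk, hmax⟩ : ∃ k, P k ∧ ∀ l, P l → l ≤ k := by
    refine ⟨Nat.findGreatest P n, Nat.findGreatest_spec (Nat.zero_le n) h0, fun l hl => ?_⟩
    exact Nat.le_findGreatest (hle l hl) hl
  obtain ⟨c, hc, hi, hb⟩ := hk
  refine ⟨k, c, hle k ⟨c, hc, hi, hb⟩, hc, hi, fun b hb2 hind => ?_⟩
  by_contra hbad
  have h1 : P (k + 1) := by
    refine ⟨Fin.snoc c b, fun i => ?_, hind, fun i => ?_⟩
    · refine Fin.lastCases ?_ (fun j => ?_) i
      · rw [Fin.snoc_last]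
        exact hb2
      · rw [Fin.snoc_castSucc]
        exact hc j
    · refine Fin.lastCases ?_ (fun j => ?_) i
      · rw [Fin.snoc_last]
        exact hbad
      · rw [Fin.snoc_castSucc]
        exact hb j
  have := hmax _ h1
  omega

/-- the field generated by the real numbers with linear complexity along `S` in a base
multiplicatively dependent on `b` -/
noncomputable def LF (S : Set ℕ) (b : ℕ) : Subfield ℝ := Subfield.closure (SA S (cls b))

lemma LF_le (S : Set ℕ) (b : ℕ) : LF S b ≤ Fl S (GA (cls b)) := SF_le fun _ hd => hd.1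

/-- **All bases outside a group of rank at most `n`.** -/
theorem exceptional_bases {S : Set ℕ} (hS : S.Infinite) {n : ℕ} {x : Fin n → ℝ} (hx : Meas x) :
    ∃ (k : ℕ) (c : Fin k → ℕ), k ≤ n ∧ (∀ i, 2 ≤ c i) ∧ MInd c ∧
      ∀ b : ℕ, 2 ≤ b → MInd (Fin.snoc c b : Fin (k + 1) → ℕ) →
        AlgebraicIndependent (Cl (LF S b)) x :=
  exceptional_gen hS hx (fun b => GA (cls b)) (fun _ _ hb h => gindep_cls hb h) _
    fun b _ => LF_le S b

/-- the positive rational numbers multiplicatively dependent on `b` -/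
def rad (b : ℕ) : Subgroup ℚˣ where
  carrier := {u | 0 < ((u : ℚˣ) : ℚ) ∧ ∃ (m : ℕ) (k : ℤ), 1 ≤ m ∧ ((u : ℚˣ) : ℚ) ^ m = (b : ℚ) ^ k}
  one_mem' := ⟨by simp, 1, 0, le_rfl, by simp⟩
  mul_mem' := by
    rintro u v ⟨hu, m, k, hm, h⟩ ⟨hv, m', k', hm', h'⟩
    by_cases hb : (b : ℚ) = 0
    · -- powers of zero
      have hk : k = 0 := by
        by_contra hk
        rw [hb, zero_zpow k hk] at h
        exact absurd h (pow_pos hu m).ne'
      have hk' : k' = 0 := by
        by_contra hk
        rw [hb, zero_zpow k' hk] at h'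
        exact absurd h' (pow_pos hv m').ne'
      refine ⟨by rw [Units.val_mul]; positivity, m * m', 0, Nat.mul_pos hm hm', ?_⟩
      rw [Units.val_mul, mul_pow, pow_mul, h, hk, mul_comm m m', pow_mul, h', hk']
      simp
    · refine ⟨by rw [Units.val_mul]; positivity, m * m', k * m' + k' * m, Nat.mul_pos hm hm', ?_⟩
      rw [Units.val_mul, mul_pow, pow_mul, h, mul_comm m m', pow_mul, h', zpow_add₀ hb, zpow_mul,
        zpow_mul, zpow_natCast, zpow_natCast]
  inv_mem' := by
    rintro u ⟨hu, m, k, hm, h⟩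
    refine ⟨by rw [Units.val_inv_eq_inv_val]; positivity, m, -k, hm, ?_⟩
    rw [Units.val_inv_eq_inv_val, inv_pow, h, zpow_neg]

lemma gindep_rad {r : ℕ} {b : Fin r → ℕ} (hb : ∀ i, 2 ≤ b i) (h : MInd b) :
    GIndep (fun i => rad (b i)) := by
  classical
  intro g hg hprod
  choose hpos m k hm hk using hg
  have hcast : ∏ i, ((g i : ℚˣ) : ℚ) = 1 := by
    have := congrArg (fun u : ℚˣ => (u : ℚ)) hprod
    simpa using this
  have hP : ∏ i, (b i : ℚ) ^ (k i * ∏ j ∈ Finset.univ.erase i, (m j : ℤ)) = 1 := by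
    have h1 : ∀ i, (b i : ℚ) ^ (k i * ∏ j ∈ Finset.univ.erase i, (m j : ℤ)) =
        ((g i : ℚˣ) : ℚ) ^ (∏ j, (m j : ℤ)) := by
      intro i
      rw [zpow_mul, ← hk i, ← Finset.mul_prod_erase _ _ (Finset.mem_univ i), zpow_mul, zpow_natCast]
    rw [Finset.prod_congr rfl fun i _ => h1 i, Finset.prod_zpow, hcast, one_zpow]
  have h0 := h _ hP
  intro i
  have h1 := congrFun h0 i
  simp only [Pi.zero_apply] at h1
  have h2 : k i = 0 := by
    refine (mul_eq_zero.1 h1).resolve_right (Finset.prod_ne_zero_iff.2 fun j _ => ?_)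
    have := hm j
    exact_mod_cast (by omega : m j ≠ 0)
  have h3 := hk i
  rw [h2, zpow_zero] at h3
  apply Units.ext
  rw [Units.val_one]
  exact (pow_eq_one_iff_of_nonneg (hpos i).le (by have := hm i; omega)).1 h3

/-- the digits in the bases of the group -/
lemma digits_mem {S : Set ℕ} {Γ : Subgroup ℚˣ} {b : ℕ} (hb : 2 ≤ b)
    (hΓ : ∃ u ∈ Γ, ((u : ℚˣ) : ℚ) = b) {x C : ℝ}
    (hC : ∀ n ∈ S, (complexity (digit b x) n : ℝ) ≤ C * n) : x ∈ Fl S Γ :=
  adjoin_sub_Fl S Γ (gen_digits hb hΓ hC)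

end Pool.Agent.Run7.h123.LC
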