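import Mathlib

set_option autoImplicit false

/-!
# Linearly disjoint fields, common denominators
-/

namespace Pool.Agent.Run7.h123.LC

open Submodule

variable {k A : Type} [Field k] [Field A] [Algebra k A]

/-- linearly disjoint fields -/
def Disj (K₁ K₂ : IntermediateField k A) : Prop :=
  ∀ (ι : Type) (y : ι → K₂), LinearIndependent k y → LinearIndependent K₁ (fun i => (y i : A))

/-- common denominators -/
lemma denom {S : Set A} (G : Finset A) (hG : ∀ g ∈ G, g ∈ IntermediateField.adjoin k S) :
    ∃ g : A, g ≠ 0 ∧ g ∈ Algebra.adjoin k S ∧ ∀ x ∈ G, g * x ∈ Algebra.adjoin k S := by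
  classical
  induction G using Finset.induction_on with
  | empty => exact ⟨1, one_ne_zero, one_mem _, by simp⟩
  | insert x G hx ih =>
    obtain ⟨g, hg0, hg, hgG⟩ := ih (fun y hy => hG y (Finset.mem_insert_of_mem hy))
    obtain ⟨r, hr, s, hs, hx2⟩ := IntermediateField.mem_adjoin_iff_div.1
      (hG x (Finset.mem_insert_self _ _))
    by_cases hs0 : s = 0
    · refine ⟨g, hg0, hg, fun y hy => ?_⟩
      rcases Finset.mem_insert.1 hy with rfl | hy
      · rw [hx2, hs0, div_zero, mul_zero]
        exact zero_mem _
      · exact hgG y hy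
    · refine ⟨g * s, mul_ne_zero hg0 hs0, mul_mem hg hs, fun y hy => ?_⟩
      rcases Finset.mem_insert.1 hy with rfl | hy
      · rw [hx2, mul_assoc, mul_div_cancel₀ _ hs0]
        exact mul_mem hg hr
      · have e1 : g * s * y = s * (g * y) := by ring
        rw [e1]
        exact mul_mem hs (hgG y hy)

end Pool.Agent.Run7.h123.LC
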