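import Mathlib
import Pool.Agent.Run7.h123.LC.LinA
import Pool.Agent.TH796.AL.AlgA

set_option autoImplicit false

/-!
# Linear disjointness of the fields generated by two linearly disjoint submonoids
-/

namespace Pool.Agent.Run7.h123.LC

open Submodule Pool.Agent.TH796.AL.AlgA

section

variable (R A : Type) [CommRing R] [Field A] [Algebra R A]

/-- the field generated by the base ring -/
noncomputable def kk : Subfield A := Subfield.closure (Set.range (algebraMap R A))

end

variable {R A : Type} [CommRing R] [Field A] [Algebra R A]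

lemma kk_frac (x : kk R A) : ∃ a b : R, algebraMap R A b ≠ 0 ∧
    algebraMap R A b * (x : A) = algebraMap R A a := by
  obtain ⟨x, hx⟩ := x
  unfold kk at hx
  rw [Subfield.mem_closure_iff] at hx
  obtain ⟨y, hy, z, hz, rfl⟩ := hx
  have h1 : Subring.closure (Set.range (algebraMap R A)) ≤ (algebraMap R A).range := by
    rw [Subring.closure_le]
    rintro _ ⟨r, rfl⟩
    exact ⟨r, rfl⟩
  obtain ⟨a, rfl⟩ := h1 hy
  obtain ⟨b, rfl⟩ := h1 hz
  by_cases hb : algebraMap R A b = 0
  · refine ⟨0, 1, ?_, ?_⟩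
    · rw [map_one]
      exact one_ne_zero
    · change _ * (algebraMap R A a / algebraMap R A b) = _
      rw [hb, div_zero, mul_zero, map_zero]
  · exact ⟨a, b, hb, mul_div_cancel₀ _ hb⟩

/-- common denominators -/
lemma kk_common {ι : Type} [Finite ι] (x : ι → kk R A) : ∃ (b : R) (a : ι → R),
    algebraMap R A b ≠ 0 ∧ ∀ i, algebraMap R A b * (x i : A) = algebraMap R A (a i) := by
  classical
  have := Fintype.ofFinite ι
  choose a b hb hab using fun i => kk_frac (x i)
  refine ⟨∏ i, b i, fun i => (∏ j ∈ Finset.univ.erase i, b j) * a i, ?_, fun i => ?_⟩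
  · rw [map_prod]
    exact Finset.prod_ne_zero_iff.2 fun i _ => hb i
  · rw [← Finset.mul_prod_erase _ _ (Finset.mem_univ i), map_mul, map_mul, ← hab i]
    ring

lemma LI_of {ι : Type} [Fintype ι] (hinj : Function.Injective (algebraMap R A)) {x : ι → A}
    (h : LinearIndependent (kk R A) x) : LI (R := R) x := by
  intro c hc i
  rw [Fintype.linearIndependent_iff] at h
  have h1 := h (fun i => ⟨algebraMap R A (c i), Subfield.subset_closure ⟨c i, rfl⟩⟩) hc i
  have h2 : algebraMap R A (c i) = 0 := congrArg Subtype.val h1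
  exact hinj (h2.trans (map_zero _).symm)

/-- linear disjointness over the field -/
lemma LD_kk (hinj : Function.Injective (algebraMap R A)) {U W : Submonoid A} (h : LD R U W)
    {ι κ : Type} [Fintype ι] [Fintype κ] {x : ι → A} {y : κ → A} (hx : ∀ i, x i ∈ U)
    (hy : ∀ i, y i ∈ W) (hxi : LinearIndependent (kk R A) x) (hyi : LinearIndependent (kk R A) y)
    (γ : ι → κ → kk R A) (h0 : ∑ i, ∑ j, (γ i j : A) * (x i * y j) = 0) : ∀ i j, γ i j = 0 := by
  obtain ⟨b, a, hb, ha⟩ := kk_common (fun p : ι × κ => γ p.1 p.2)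
  have h1 := h ι κ x y hx hy (LI_of hinj hxi) (LI_of hinj hyi) (fun i j => a (i, j)) (by
    have e1 : ∑ i, ∑ j, algebraMap R A (a (i, j)) * (x i * y j) =
        algebraMap R A b * ∑ i, ∑ j, (γ i j : A) * (x i * y j) := by
      simp only [Finset.mul_sum]
      refine Finset.sum_congr rfl fun i _ => Finset.sum_congr rfl fun j _ => ?_
      rw [← ha (i, j)]
      ring
    rw [e1, h0, mul_zero])
  intro i j
  have h2 := ha (i, j)
  rw [h1 i j, map_zero] at h2
  exact Subtype.ext ((mul_eq_zero.1 h2).resolve_left hb)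

lemma adjoin_span {k : Subfield A} (U : Submonoid A) {x : A}
    (hx : x ∈ Algebra.adjoin k (U : Set A)) : x ∈ span k (U : Set A) := by
  have h1 := Algebra.adjoin_eq_span k (U : Set A)
  rw [Submonoid.closure_eq] at h1
  rw [← h1]
  exact hx

/-- a finite independent subset of `U` spanning finitely many elements of the span -/
lemma exists_basis {k : Subfield A} (U : Submonoid A) (F : Finset A)
    (hF : ∀ x ∈ F, x ∈ Algebra.adjoin k (U : Set A)) :
    ∃ U₀ : Set A, U₀.Finite ∧ U₀ ⊆ U ∧ LinearIndependent k (fun u : U₀ => (u : A)) ∧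
      ∀ x ∈ F, x ∈ span k U₀ := by
  classical
  choose! G hG hGx using fun x (hx : x ∈ span k (U : Set A)) =>
    Submodule.mem_span_finite_of_mem_span hx
  obtain ⟨U₀, h1, h2, h3⟩ := exists_linearIndependent k ((F.biUnion G : Finset A) : Set A)
  refine ⟨U₀, (F.biUnion G).finite_toSet.subset h1, fun u hu => ?_, h3, fun x hx => ?_⟩
  · obtain ⟨x, hx, hu2⟩ := Finset.mem_biUnion.1 (Finset.mem_coe.1 (h1 hu))
    exact hG x (adjoin_span U (hF x hx)) hu2
  · rw [h2]
    refine span_mono ?_ (hGx x (adjoin_span U (hF x hx)))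
    intro y hy
    exact Finset.mem_coe.2 (Finset.mem_biUnion.2 ⟨x, hx, hy⟩)

/-- **Linear disjointness of the generated fields.** -/
theorem disj_of_LD (hinj : Function.Injective (algebraMap R A)) {U W : Submonoid A}
    (h : LD R U W) : Disj (IntermediateField.adjoin (kk R A) (U : Set A))
      (IntermediateField.adjoin (kk R A) (W : Set A)) := by
  classical
  intro ι y hy
  rw [linearIndependent_iff']
  intro s g hsum
  obtain ⟨d, hd0, hd, hdy⟩ := denom (s.image fun i => (y i : A)) (fun z hz => by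
    obtain ⟨i, -, rfl⟩ := Finset.mem_image.1 hz
    exact (y i).2)
  obtain ⟨e, he0, he, heg⟩ := denom (s.image fun i => (g i : A)) (fun z hz => by
    obtain ⟨i, -, rfl⟩ := Finset.mem_image.1 hz
    exact (g i).2)
  obtain ⟨U₀, hUf, hUU, hUi, hUs⟩ := exists_basis U (s.image fun i => e * (g i : A)) (by
    intro z hz
    obtain ⟨i, hi, rfl⟩ := Finset.mem_image.1 hz
    exact heg _ (Finset.mem_image_of_mem _ hi))
  obtain ⟨W₀, hWf, hWW, hWi, hWs⟩ := exists_basis W (s.image fun i => d * (y i : A)) (by
    intro z hz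
    obtain ⟨i, hi, rfl⟩ := Finset.mem_image.1 hz
    exact hdy _ (Finset.mem_image_of_mem _ hi))
  have := hUf.to_subtype
  have := hWf.to_subtype
  have := Fintype.ofFinite U₀
  have := Fintype.ofFinite W₀
  have hσ : ∀ i : s, ∃ σ : U₀ → kk R A, ∑ u, (σ u : A) * (u : A) = e * (g i : A) := by
    intro i
    obtain ⟨σ, hσ⟩ := Submodule.mem_span_iff_of_fintype.1
      (hUs _ (Finset.mem_image_of_mem _ i.2))
    exact ⟨σ, hσ⟩
  have hπ : ∀ i : s, ∃ π : W₀ → kk R A, ∑ w, (π w : A) * (w : A) = d * (y i : A) := by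
    intro i
    obtain ⟨σ, hσ⟩ := Submodule.mem_span_iff_of_fintype.1
      (hWs _ (Finset.mem_image_of_mem _ i.2))
    exact ⟨σ, hσ⟩
  choose σ hσ using hσ
  choose π hπ using hπ
  have h0 : ∑ i : s, (e * (g i : A)) * (d * (y i : A)) = 0 := by
    have e1 : ∑ i : s, (e * (g i : A)) * (d * (y i : A)) = e * d * ∑ i ∈ s, (g i : A) * (y i : A) := by
      rw [← Finset.sum_coe_sort s, Finset.mul_sum]
      refine Finset.sum_congr rfl fun i _ => ?_
      ring
    have e2 : ∑ i ∈ s, (g i : A) * (y i : A) = 0 := hsum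
    rw [e1, e2, mul_zero]
  have h1 := LD_kk hinj h (x := fun u : U₀ => (u : A)) (y := fun w : W₀ => (w : A))
    (fun u => hUU u.2) (fun w => hWW w.2) hUi hWi (fun u w => ∑ i : s, σ i u * π i w) (by
      rw [← h0]
      simp only [← hσ, ← hπ, Finset.sum_mul_sum]
      push_cast
      simp only [Finset.sum_mul]
      rw [Finset.sum_congr rfl fun u _ => Finset.sum_comm, Finset.sum_comm]
      refine Finset.sum_congr rfl fun i _ => Finset.sum_congr rfl fun u _ =>
        Finset.sum_congr rfl fun w _ => ?_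
      ring)
  -- the `p i` are independent
  have hp : ∀ c : s → kk R A, ∑ i, (c i : A) * (d * (y i : A)) = 0 → ∀ i, c i = 0 := by
    intro c hc
    have e1 : ∑ i : s, (c i : A) * (y i : A) = 0 := by
      have e2 : d * ∑ i : s, (c i : A) * (y i : A) = 0 := by
        rw [← hc, Finset.mul_sum]
        exact Finset.sum_congr rfl fun i _ => by ring
      exact (mul_eq_zero.1 e2).resolve_left hd0
    have e3 : LinearIndependent (kk R A) (fun i : s => y i) :=
      hy.comp (fun i : s => (i : ι)) Subtype.val_injective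
    rw [Fintype.linearIndependent_iff] at e3
    refine e3 c (Subtype.ext ?_)
    rw [AddSubmonoidClass.coe_finsetSum]
    exact e1
  have hσ0 : ∀ u, ∀ i, σ i u = 0 := by
    intro u
    refine hp (fun i => σ i u) ?_
    simp only [← hπ, Finset.mul_sum]
    rw [Finset.sum_comm]
    refine Finset.sum_eq_zero fun w _ => ?_
    have e1 := congrArg (fun v : kk R A => (v : A) * (w : A)) (h1 u w)
    simp only [AddSubmonoidClass.coe_finsetSum, ZeroMemClass.coe_zero, zero_mul,
      Finset.sum_mul] at e1
    rw [← e1]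
    refine Finset.sum_congr rfl fun i _ => ?_
    push_cast
    ring
  intro i hi
  have h2 := hσ ⟨i, hi⟩
  rw [Finset.sum_eq_zero fun u _ => by rw [hσ0 u, ZeroMemClass.coe_zero, zero_mul]] at h2
  exact Subtype.ext ((mul_eq_zero.1 h2.symm).resolve_left he0)

end Pool.Agent.Run7.h123.LC
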