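import Mathlib
import Pool.Agent.Run7.h123.LC.LinA

set_option autoImplicit false

/-!
# The dimensions of a subspace over two linearly disjoint fields

If `K₁, K₂` are linearly disjoint over `k` in a field `A` and `Z` is a finite dimensional `k`-subspace
of `A`, then `dim_k Z ≤ dim_{K₁} (K₁ Z) * dim_{K₂} (K₂ Z)`. The proof is a linear version of
Petridis' argument, together with the polynomial growth of the powers of a subspace.
-/

namespace Pool.Agent.Run7.h123.LC

open Submodule

variable {k A : Type} [Field k] [Field A] [Algebra k A]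

/-- the space generated over the larger field -/
def ex (K : IntermediateField k A) (Y : Submodule k A) : Submodule K A := span K (Y : Set A)

/-- its dimension -/
noncomputable def rk (K : IntermediateField k A) (Y : Submodule k A) : ℕ :=
  Module.finrank K (ex K Y)

lemma ex_span (K : IntermediateField k A) (S : Set A) : ex K (span k S) = span K S :=
  Submodule.span_span_of_tower k K S

lemma ex_sup (K : IntermediateField k A) (Y Z : Submodule k A) :
    ex K (Y ⊔ Z) = ex K Y ⊔ ex K Z := by
  unfold ex
  rw [← span_union]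
  apply le_antisymm
  · rw [span_le]
    intro x hx
    obtain ⟨y, hy, z, hz, rfl⟩ := Submodule.mem_sup.1 hx
    exact add_mem (subset_span (Or.inl hy)) (subset_span (Or.inr hz))
  · refine span_mono ?_
    rintro x (hx | hx)
    · exact Submodule.mem_sup_left hx
    · exact Submodule.mem_sup_right hx

lemma ex_mono (K : IntermediateField k A) {Y Z : Submodule k A} (h : Y ≤ Z) : ex K Y ≤ ex K Z :=
  span_mono h

instance ex_fd (K : IntermediateField k A) (Y : Submodule k A) [h : FiniteDimensional k Y] :
    FiniteDimensional K (ex K Y) := by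
  have h1 : Y.FG := Module.Finite.iff_fg.1 h
  obtain ⟨S, hS⟩ := h1
  rw [← hS, ex_span]
  exact FiniteDimensional.span_finset K S

lemma rk_mono (K : IntermediateField k A) {Y Z : Submodule k A} [FiniteDimensional k Z]
    (h : Y ≤ Z) : rk K Y ≤ rk K Z :=
  Submodule.finrank_mono (ex_mono K h)

lemma rk_bot (K : IntermediateField k A) : rk K (⊥ : Submodule k A) = 0 := by
  unfold rk
  have : ex K (⊥ : Submodule k A) = ⊥ := by
    unfold ex
    rw [Submodule.bot_coe, span_singleton_eq_bot]
  rw [this, finrank_bot]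

/-- multiplication by an element -/
noncomputable def tim (c : A) (Y : Submodule k A) : Submodule k A := Y.map (LinearMap.mulLeft k c)

lemma mulLeft_inj {c : A} (hc : c ≠ 0) (K : IntermediateField k A) :
    Function.Injective (LinearMap.mulLeft K c) := fun _ _ h => mul_left_cancel₀ hc h

lemma finrank_tim {c : A} (hc : c ≠ 0) (Y : Submodule k A) :
    Module.finrank k (tim c Y) = Module.finrank k Y :=
  (Submodule.equivMapOfInjective (LinearMap.mulLeft k c)
    (fun _ _ h => mul_left_cancel₀ hc h) Y).finrank_eq.symm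

lemma ex_tim (K : IntermediateField k A) (c : A) (Y : Submodule k A) :
    ex K (tim c Y) = (ex K Y).map (LinearMap.mulLeft K c) := by
  unfold ex tim
  rw [Submodule.map_span]
  rfl

lemma rk_tim {c : A} (hc : c ≠ 0) (K : IntermediateField k A) (Y : Submodule k A) :
    rk K (tim c Y) = rk K Y := by
  unfold rk
  rw [ex_tim]
  exact (Submodule.equivMapOfInjective _ (mulLeft_inj hc K) _).finrank_eq.symm

lemma rk_sup (K : IntermediateField k A) {Y Z I : Submodule k A} [FiniteDimensional k Y]
    [FiniteDimensional k Z] (h1 : I ≤ Y) (h2 : I ≤ Z) : rk K (Y ⊔ Z) + rk K I ≤ rk K Y + rk K Z := by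
  have e1 := Submodule.finrank_sup_add_finrank_inf_eq (ex K Y) (ex K Z)
  unfold rk
  rw [ex_sup, ← e1]
  have : FiniteDimensional K (ex K Y ⊓ ex K Z : Submodule K A) :=
    Submodule.finiteDimensional_inf_left _ _
  exact Nat.add_le_add_left (Submodule.finrank_mono (le_inf (ex_mono K h1) (ex_mono K h2))) _

lemma fd_mul (P Q : Submodule k A) [h1 : FiniteDimensional k P] [h2 : FiniteDimensional k Q] :
    FiniteDimensional k (P * Q : Submodule k A) :=
  Module.Finite.iff_fg.2 ((Module.Finite.iff_fg.1 h1).mul (Module.Finite.iff_fg.1 h2))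

lemma tim_mul (c : A) (Z : Submodule k A) : span k {c} * Z = tim c Z := by
  unfold tim
  ext x
  rw [Submodule.mem_span_singleton_mul, Submodule.mem_map]
  rfl

/-- **Petridis' lemma.** -/
theorem petridis (K : IntermediateField k A) (Z : Submodule k A) [FiniteDimensional k Z]
    (hmin : ∀ Y ≤ Z, rk K Z * Module.finrank k Y ≤ Module.finrank k Z * rk K Y) (S : Finset A) :
    Module.finrank k Z * rk K (span k (S : Set A) * Z) ≤
      rk K Z * Module.finrank k (span k (S : Set A) * Z : Submodule k A) := by
  classical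
  induction S using Finset.induction_on with
  | empty =>
    rw [Finset.coe_empty, span_empty, Submodule.bot_mul, rk_bot, mul_zero]
    exact Nat.zero_le _
  | insert c S _ ih =>
    obtain ⟨P, hP⟩ : ∃ P : Submodule k A, P = span k (S : Set A) * Z := ⟨_, rfl⟩
    have hPf : FiniteDimensional k P := by
      rw [hP]
      have : FiniteDimensional k (span k (S : Set A)) := FiniteDimensional.span_finset k S
      exact fd_mul _ _
    rw [← hP] at ih
    rw [Finset.coe_insert, Submodule.span_insert, Submodule.sup_mul, tim_mul, ← hP]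
    by_cases hc : c = 0
    · have : tim c Z = ⊥ := by
        unfold tim
        rw [hc, LinearMap.mulLeft_zero_eq_zero, Submodule.map_zero]
      rw [this, bot_sup_eq]
      exact ih
    · obtain ⟨Y, hY⟩ : ∃ Y : Submodule k A, Y = Z ⊓ P.comap (LinearMap.mulLeft k c) := ⟨_, rfl⟩
      have hYZ : Y ≤ Z := by rw [hY]; exact inf_le_left
      have e1 : tim c Y = tim c Z ⊓ P := by
        rw [hY]
        unfold tim
        ext x
        simp only [Submodule.mem_map, Submodule.mem_inf, Submodule.mem_comap]
        constructor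
        · rintro ⟨y, ⟨h1, h2⟩, rfl⟩
          exact ⟨⟨y, h1, rfl⟩, h2⟩
        · rintro ⟨⟨y, h1, rfl⟩, h2⟩
          exact ⟨y, ⟨h1, h2⟩, rfl⟩
      have hf : FiniteDimensional k (tim c Z) := by
        unfold tim
        infer_instance
      have e2 := Submodule.finrank_sup_add_finrank_inf_eq (tim c Z) P
      rw [← e1, finrank_tim hc, finrank_tim hc] at e2
      have e3 := rk_sup K (Y := tim c Z) (Z := P) (I := tim c Y) (by
        rw [e1]
        exact inf_le_left) (by
        rw [e1]
        exact inf_le_right)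
      rw [rk_tim hc, rk_tim hc] at e3
      have e4 := hmin Y hYZ
      have e5 : Module.finrank k Z * (rk K (tim c Z ⊔ P) + rk K Y) ≤
        Module.finrank k Z * (rk K Z + rk K P) := Nat.mul_le_mul_left _ e3
      have e6 : rk K Z * (Module.finrank k (tim c Z ⊔ P : Submodule k A) + Module.finrank k Y) =
        rk K Z * (Module.finrank k Z + Module.finrank k P) := by rw [e2]
      nlinarith

/-- existence of a subspace with minimal ratio -/
lemma exists_min (K : IntermediateField k A) (a b : ℕ) : ∀ (n : ℕ) (Z : Submodule k A)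
    (_ : FiniteDimensional k Z) (_ : Z ≠ ⊥) (_ : Module.finrank k Z ≤ n)
    (_ : b * rk K Z ≤ a * Module.finrank k Z), ∃ Y ≤ Z, Y ≠ ⊥ ∧
      b * rk K Y ≤ a * Module.finrank k Y ∧
      ∀ X ≤ Y, rk K Y * Module.finrank k X ≤ Module.finrank k Y * rk K X := by
  intro n
  induction n with
  | zero =>
    intro Z _ h1 h2 _
    exact absurd (Submodule.finrank_eq_zero.1 (Nat.le_zero.1 h2)) h1
  | succ n ih =>
    intro Z hZ h1 h2 h3
    by_cases h : ∀ X ≤ Z, rk K Z * Module.finrank k X ≤ Module.finrank k Z * rk K X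
    · exact ⟨Z, le_refl _, h1, h3, h⟩
    · push Not at h
      obtain ⟨X, hX, h4⟩ := h
      have hXf : FiniteDimensional k X := Submodule.finiteDimensional_of_le hX
      have hX0 : X ≠ ⊥ := by
        rintro rfl
        rw [finrank_bot, mul_zero] at h4
        exact absurd h4 (Nat.not_lt_zero _)
      have hlt : Module.finrank k X < Module.finrank k Z := by
        refine Submodule.finrank_lt_finrank_of_lt (lt_of_le_of_ne hX ?_)
        rintro rfl
        rw [mul_comm] at h4
        exact absurd h4 (lt_irrefl _)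
      have hZpos : 0 < Module.finrank k Z := by omega
      obtain ⟨Y, hY, h5, h6, h7⟩ := ih X hXf hX0 (by omega) (by
        refine Nat.le_of_mul_le_mul_left (c := Module.finrank k Z) ?_ hZpos
        calc Module.finrank k Z * (b * rk K X) = b * (Module.finrank k Z * rk K X) := by ring
          _ ≤ b * (rk K Z * Module.finrank k X) := Nat.mul_le_mul_left _ h4.le
          _ = (b * rk K Z) * Module.finrank k X := by ring
          _ ≤ (a * Module.finrank k Z) * Module.finrank k X := Nat.mul_le_mul_right _ h3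
          _ = Module.finrank k Z * (a * Module.finrank k X) := by ring)
      exact ⟨Y, hY.trans hX, h5, h6, h7⟩

/-- monomials -/
noncomputable def mono (F : Finset A) (N : ℕ) : Finset A := by
  classical
  exact (Finset.univ : Finset (F → Fin (N + 1))).image fun e => ∏ s : F, (s : A) ^ (e s : ℕ)

lemma card_mono (F : Finset A) (N : ℕ) : (mono F N).card ≤ (N + 1) ^ F.card := by
  classical
  unfold mono
  refine Finset.card_image_le.trans (le_of_eq ?_)
  rw [Finset.card_univ, Fintype.card_fun, Fintype.card_fin, Fintype.card_coe]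

lemma pow_le_mono (F : Finset A) (N : ℕ) :
    (span k (F : Set A)) ^ N ≤ span k (mono F N : Set A) := by
  classical
  induction N with
  | zero =>
    rw [pow_zero, Submodule.one_le]
    refine subset_span ?_
    rw [Finset.mem_coe]
    unfold mono
    rw [Finset.mem_image]
    exact ⟨fun _ => 0, Finset.mem_univ _, by simp⟩
  | succ N ih =>
    rw [pow_succ]
    refine (mul_le_mul' ih le_rfl).trans ?_
    rw [Submodule.span_mul_span]
    refine span_mono ?_
    rintro _ ⟨x, hx, y, hy, rfl⟩
    have hx' := Finset.mem_coe.1 hx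
    unfold mono at hx' ⊢
    rw [Finset.mem_image] at hx'
    obtain ⟨e, -, rfl⟩ := hx'
    rw [Finset.mem_coe, Finset.mem_image]
    have hy' : y ∈ F := Finset.mem_coe.1 hy
    refine ⟨fun s => if s = ⟨y, hy'⟩ then (e s).succ else (e s).castSucc, Finset.mem_univ _, ?_⟩
    change ∏ s : F, (s : A) ^ _ = (∏ s : F, (s : A) ^ (e s : ℕ)) * y
    rw [← Finset.mul_prod_erase _ _ (Finset.mem_univ (⟨y, hy'⟩ : F)),
      ← Finset.mul_prod_erase (Finset.univ : Finset F) (fun s : F => (s : A) ^ (e s : ℕ))
        (Finset.mem_univ (⟨y, hy'⟩ : F))]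
    dsimp only
    rw [if_pos rfl, Fin.val_succ, pow_succ]
    have e1 : ∏ s ∈ (Finset.univ : Finset F).erase ⟨y, hy'⟩,
        (s : A) ^ ((if s = ⟨y, hy'⟩ then (e s).succ else (e s).castSucc : Fin (N + 1 + 1)) : ℕ) =
        ∏ s ∈ (Finset.univ : Finset F).erase ⟨y, hy'⟩, (s : A) ^ (e s : ℕ) := by
      refine Finset.prod_congr rfl fun s hs => ?_
      rw [if_neg (Finset.ne_of_mem_erase hs)]
      rfl
    rw [e1]
    ring

/-- **Growth.** -/
theorem folner (F : Finset A) (m : ℕ) (hm : 0 < m) : ∃ N : ℕ,
    m * Module.finrank k ((span k (F : Set A)) ^ (N + 1) : Submodule k A) <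
      (m + 1) * Module.finrank k ((span k (F : Set A)) ^ N : Submodule k A) := by
  by_contra hcon
  push Not at hcon
  obtain ⟨f, hf⟩ : ∃ f : ℕ → ℕ, f = fun N => Module.finrank k
    ((span k (F : Set A)) ^ N : Submodule k A) := ⟨_, rfl⟩
  have h1 : ∀ N, (m + 1) * f N ≤ m * f (N + 1) := by
    intro N
    rw [hf]
    exact hcon N
  have h2 : ∀ N, f N ≤ (N + 1) ^ F.card := by
    intro N
    rw [hf]
    have := Submodule.finrank_mono (pow_le_mono (k := k) F N)
    exact (this.trans (finrank_span_finset_le_card _)).trans (card_mono F N)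
  have h3 : ∀ N, (((m : ℝ) + 1) / m) ^ N ≤ f N := by
    intro N
    induction N with
    | zero =>
      have : f 0 = 1 := by
        rw [hf]
        change Module.finrank k ((span k (F : Set A)) ^ 0 : Submodule k A) = 1
        rw [pow_zero, Submodule.one_eq_span]
        exact finrank_span_singleton one_ne_zero
      rw [this, pow_zero, Nat.cast_one]
    | succ N ih =>
      have hm' : (0 : ℝ) < m := by exact_mod_cast hm
      have h4 : ((m : ℝ) + 1) * f N ≤ m * f (N + 1) := by exact_mod_cast h1 N
      rw [pow_succ]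
      calc (((m : ℝ) + 1) / m) ^ N * (((m : ℝ) + 1) / m)
          ≤ f N * (((m : ℝ) + 1) / m) := mul_le_mul_of_nonneg_right ih (by positivity)
        _ = (((m : ℝ) + 1) * f N) / m := by ring
        _ ≤ (m * f (N + 1)) / m := by gcongr
        _ = f (N + 1) := by field_simp
  have hm' : (0 : ℝ) < m := by exact_mod_cast hm
  have hr : 1 < ((m : ℝ) + 1) / m := by
    rw [lt_div_iff₀ hm']
    linarith
  have h5 := tendsto_pow_const_div_const_pow_of_one_lt F.card hr
  have h6 := h5.comp (Filter.tendsto_add_atTop_nat 1)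
  obtain ⟨N, hN⟩ := (h6.eventually (gt_mem_nhds (show (0 : ℝ) < (((m : ℝ) + 1) / m)⁻¹ by
    positivity))).exists
  simp only [Function.comp_apply] at hN
  have h7 : (0 : ℝ) < (((m : ℝ) + 1) / m) ^ N := by positivity
  have e1 : (((m : ℝ) + 1) / m)⁻¹ * (((m : ℝ) + 1) / m) ^ (N + 1) = (((m : ℝ) + 1) / m) ^ N := by
    rw [pow_succ]
    field_simp
  rw [div_lt_iff₀ (by positivity), e1] at hN
  have h8 := h3 N
  have h9 : (f N : ℝ) ≤ ((N : ℝ) + 1) ^ F.card := by exact_mod_cast h2 N
  push_cast at hN
  linarith

lemma finrank_mul_span (P : Submodule k A) [FiniteDimensional k P] (G : Finset A) :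
    Module.finrank k (P * span k (G : Set A) : Submodule k A) ≤ G.card * Module.finrank k P := by
  classical
  induction G using Finset.induction_on with
  | empty =>
    rw [Finset.coe_empty, span_empty, Submodule.mul_bot, finrank_bot]
    exact Nat.zero_le _
  | insert c G hc ih =>
    rw [Finset.coe_insert, Submodule.span_insert, Submodule.mul_sup, mul_comm P (span k {c}),
      tim_mul, Finset.card_insert_of_notMem hc]
    have h1 : Module.finrank k (tim c P) ≤ Module.finrank k P := Submodule.finrank_map_le _ _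
    have : FiniteDimensional k (tim c P) := by
      unfold tim
      infer_instance
    have : FiniteDimensional k (span k (G : Set A)) := FiniteDimensional.span_finset k G
    have : FiniteDimensional k (P * span k (G : Set A) : Submodule k A) := fd_mul _ _
    have h2 := Submodule.finrank_add_le_finrank_add_finrank (tim c P) (P * span k (G : Set A))
    nlinarith

lemma rk_of_le {K₁ K₂ : IntermediateField k A} (hd : Disj K₁ K₂) {P : Submodule k A}
    [FiniteDimensional k P] (hP : ∀ x ∈ P, x ∈ K₂) : Module.finrank k P ≤ rk K₁ P := by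
  have : Module.Free k P := Module.Free.of_divisionRing k P
  set b := Module.finBasis k P with hb
  have h1 : LinearIndependent k (fun i => (⟨(b i : A), hP _ (b i).2⟩ : K₂)) := by
    have h2 : LinearIndependent k (fun i => ((b i : P) : A)) :=
      b.linearIndependent.map' P.subtype (Submodule.ker_subtype P)
    exact LinearIndependent.of_comp (K₂.val.toLinearMap) h2
  have h3 := hd _ _ h1
  have h4 := finrank_span_eq_card h3
  rw [Fintype.card_fin] at h4
  unfold rk
  rw [← h4]
  refine Submodule.finrank_mono ?_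
  unfold ex
  refine span_mono ?_
  rintro _ ⟨i, rfl⟩
  exact (b i).2

lemma pow_mem_field {K₂ : IntermediateField k A} {F : Finset A} (hF : ∀ x ∈ F, x ∈ K₂) (N : ℕ) :
    ∀ x ∈ (span k (F : Set A)) ^ N, x ∈ K₂ := by
  have h1 : span k (F : Set A) ≤ Subalgebra.toSubmodule K₂.toSubalgebra := by
    rw [span_le]
    intro x hx
    exact hF x (Finset.mem_coe.1 hx)
  have h2 : (span k (F : Set A)) ^ N ≤ Subalgebra.toSubmodule K₂.toSubalgebra := by
    induction N with
    | zero =>
      rw [pow_zero, Submodule.one_le]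
      exact one_mem K₂
    | succ N ih =>
      rw [pow_succ]
      refine Submodule.mul_le.2 fun a ha b hb => ?_
      exact show a * b ∈ K₂ from mul_mem (show a ∈ K₂ from ih ha) (show b ∈ K₂ from h1 hb)
  exact fun x hx => h2 hx

lemma fd_pow (F : Finset A) (N : ℕ) :
    FiniteDimensional k ((span k (F : Set A)) ^ N : Submodule k A) := by
  have : FiniteDimensional k (span k (mono F N : Set A)) := FiniteDimensional.span_finset k _
  exact Submodule.finiteDimensional_of_le (pow_le_mono F N)

lemma rk_ne {K : IntermediateField k A} {Z : Submodule k A} [FiniteDimensional k Z] (hZ : Z ≠ ⊥) :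
    rk K Z ≠ 0 := by
  intro h
  obtain ⟨z, hz, hz0⟩ := Submodule.exists_mem_ne_zero_of_ne_bot hZ
  unfold rk at h
  rw [Submodule.finrank_eq_zero] at h
  have h1 : z ∈ ex K Z := subset_span hz
  rw [h, Submodule.mem_bot] at h1
  exact hz0 h1

/-- **The inequality.** -/
theorem dim_le {K₁ K₂ : IntermediateField k A} (hd : Disj K₁ K₂) (Z : Submodule k A)
    [hZ : FiniteDimensional k Z] : Module.finrank k Z ≤ rk K₁ Z * rk K₂ Z := by
  classical
  by_contra hcon
  push Not at hcon
  obtain ⟨m, hm⟩ : ∃ m : ℕ, m = rk K₁ Z * rk K₂ Z := ⟨_, rfl⟩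
  rw [← hm] at hcon
  have hZ0 : Z ≠ ⊥ := by
    rintro rfl
    rw [finrank_bot] at hcon
    omega
  obtain ⟨Y, hYZ, hY0, h1, h2⟩ := exists_min K₁ (rk K₁ Z) (Module.finrank k Z) _ Z hZ hZ0 le_rfl
    (by rw [mul_comm])
  have hYf : FiniteDimensional k Y := Submodule.finiteDimensional_of_le hYZ
  have hYe : Module.Finite K₂ (span K₂ (Y : Set A)) := ex_fd K₂ Y
  obtain ⟨G, hG1, hG2, hG3, -⟩ := Submodule.exists_finset_span_eq_linearIndepOn K₂ (Y : Set A)
  obtain ⟨S, hS⟩ := Module.Finite.iff_fg.1 hYf
  have hSY : ∀ s ∈ S, s ∈ span K₂ (G : Set A) := by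
    intro s hs
    rw [hG3]
    refine subset_span ?_
    rw [← hS]
    exact subset_span (Finset.mem_coe.2 hs)
  choose! f hf using fun s (hs : s ∈ span K₂ (G : Set A)) => Submodule.mem_span_finset'.1 hs
  obtain ⟨F, hF⟩ : ∃ F : Finset A, F = insert 1 (S.biUnion fun s =>
    (Finset.univ : Finset G).image fun g => ((f s g : K₂) : A)) := ⟨_, rfl⟩
  have hFK : ∀ x ∈ F, x ∈ K₂ := by
    intro x hx
    rw [hF, Finset.mem_insert, Finset.mem_biUnion] at hx
    rcases hx with rfl | ⟨s, -, hx⟩
    · exact one_mem K₂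
    · obtain ⟨g, -, rfl⟩ := Finset.mem_image.1 hx
      exact (f s g).2
  have hYF : Y ≤ span k (F : Set A) * span k (G : Set A) := by
    rw [← hS, span_le]
    intro s hs
    have h3 := hf s (hSY s hs)
    change s ∈ span k (F : Set A) * span k (G : Set A)
    rw [← h3]
    refine sum_mem fun g _ => ?_
    change ((f s g : K₂) : A) * (g : A) ∈ _
    refine Submodule.mul_mem_mul (subset_span ?_) (subset_span g.2)
    rw [Finset.mem_coe, hF]
    exact Finset.mem_insert_of_mem (Finset.mem_biUnion.2 ⟨s, hs,
      Finset.mem_image_of_mem _ (Finset.mem_univ g)⟩)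
  have hm0 : m ≠ 0 := by
    rw [hm]
    exact Nat.mul_ne_zero (rk_ne hZ0) (rk_ne hZ0)
  obtain ⟨N, hN⟩ := folner (k := k) F m (by omega)
  obtain ⟨a, ha⟩ : ∃ a : ℕ, a = Module.finrank k ((span k (F : Set A)) ^ N : Submodule k A) :=
    ⟨_, rfl⟩
  obtain ⟨b, hb⟩ : ∃ b : ℕ, b = Module.finrank k ((span k (F : Set A)) ^ (N + 1) : Submodule k A) :=
    ⟨_, rfl⟩
  rw [← ha, ← hb] at hN
  have hP1 := fd_pow (k := k) F N
  have hP2 := fd_pow (k := k) F (N + 1)
  have hGf : FiniteDimensional k (span k (G : Set A)) := FiniteDimensional.span_finset k G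
  have h4 : Module.finrank k ((span k (F : Set A)) ^ N * Y : Submodule k A) ≤ G.card * b := by
    have h5 := finrank_mul_span ((span k (F : Set A)) ^ (N + 1)) G
    rw [← hb] at h5
    refine le_trans ?_ h5
    have : FiniteDimensional k ((span k (F : Set A)) ^ (N + 1) * span k (G : Set A) :
      Submodule k A) := fd_mul _ _
    refine Submodule.finrank_mono ?_
    rw [pow_succ, mul_assoc]
    exact mul_le_mul' le_rfl hYF
  have h5 : a ≤ rk K₁ ((span k (F : Set A)) ^ N * Y) := by
    obtain ⟨y, hy, hy0⟩ := Submodule.exists_mem_ne_zero_of_ne_bot hY0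
    rw [ha]
    refine (rk_of_le hd (pow_mem_field hFK N)).trans ?_
    rw [← rk_tim hy0]
    have : FiniteDimensional k ((span k (F : Set A)) ^ N * Y : Submodule k A) := fd_mul _ _
    refine rk_mono K₁ ?_
    rintro _ ⟨x, hx, rfl⟩
    rw [LinearMap.mulLeft_apply, mul_comm y x]
    exact Submodule.mul_mem_mul hx hy
  have h6 : Module.finrank k Y * rk K₁ ((span k (F : Set A)) ^ N * Y) ≤
      rk K₁ Y * Module.finrank k ((span k (F : Set A)) ^ N * Y : Submodule k A) := by
    obtain ⟨T, hT⟩ := Module.Finite.iff_fg.1 hP1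
    rw [← hT]
    exact petridis K₁ Y h2 T
  have hq : 0 < Module.finrank k Y := by
    rw [Nat.pos_iff_ne_zero]
    intro h0
    exact hY0 (Submodule.finrank_eq_zero.1 h0)
  have hg : G.card ≤ rk K₂ Z := by
    rw [hG2]
    exact rk_mono K₂ hYZ
  obtain ⟨q, hq'⟩ : ∃ q : ℕ, q = Module.finrank k Y := ⟨_, rfl⟩
  obtain ⟨p, hp'⟩ : ∃ p : ℕ, p = rk K₁ Y := ⟨_, rfl⟩
  obtain ⟨n, hn'⟩ : ∃ n : ℕ, n = Module.finrank k Z := ⟨_, rfl⟩
  rw [← hq', ← hp'] at h6
  rw [← hp', ← hq', ← hn'] at h1
  rw [← hq'] at hq
  rw [← hn'] at hcon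
  have h7 : q * (n * a) ≤ q * (m * b) := by
    calc q * (n * a) ≤ q * (n * rk K₁ ((span k (F : Set A)) ^ N * Y)) := by gcongr
      _ = n * (q * rk K₁ ((span k (F : Set A)) ^ N * Y)) := by ring
      _ ≤ n * (p * Module.finrank k ((span k (F : Set A)) ^ N * Y : Submodule k A)) := by gcongr
      _ ≤ n * (p * (G.card * b)) := by gcongr
      _ = (n * p) * (G.card * b) := by ring
      _ ≤ (rk K₁ Z * q) * (rk K₂ Z * b) := by gcongr
      _ = q * (m * b) := by rw [hm]; ring
  have h8 : n * a ≤ m * b := Nat.le_of_mul_le_mul_left h7 hq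
  have h9 : (m + 1) * a ≤ n * a := Nat.mul_le_mul_right _ hcon
  omega

lemma rk_span_le {K : IntermediateField k A} {T : Set A} {Y₁ : Finset A}
    (h : T ⊆ span K (Y₁ : Set A)) : rk K (span k T) ≤ Y₁.card := by
  unfold rk
  rw [ex_span]
  refine le_trans ?_ (finrank_span_finset_le_card (R := K) Y₁)
  have : FiniteDimensional K (span K (Y₁ : Set A)) := FiniteDimensional.span_finset K Y₁
  exact Submodule.finrank_mono (span_le.2 h)

/-- **Finite dimensionality over two linearly disjoint fields, with a bound.** -/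
theorem finP {K₁ K₂ : IntermediateField k A} (hd : Disj K₁ K₂) {Y : Set A} (Y₁ Y₂ : Finset A)
    (h1 : Y ⊆ span K₁ (Y₁ : Set A)) (h2 : Y ⊆ span K₂ (Y₂ : Set A)) :
    ∃ Z : Finset A, (Z : Set A) ⊆ Y ∧ Z.card ≤ Y₁.card * Y₂.card ∧ Y ⊆ span k (Z : Set A) := by
  classical
  obtain ⟨b, hb1, hb2, hb3⟩ := exists_linearIndependent k Y
  have key : ∀ T : Finset A, (T : Set A) ⊆ b → T.card ≤ Y₁.card * Y₂.card := by
    intro T hT
    have h3 : LinearIndependent k (fun x : T => (x : A)) :=
      hb3.comp (fun x : T => (⟨x, hT x.2⟩ : b)) (fun x y h => by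
        have := congrArg (fun z : b => (z : A)) h
        exact Subtype.ext this)
    have h4 : Module.finrank k (span k (T : Set A)) = T.card := finrank_span_finset_eq_card h3
    have : FiniteDimensional k (span k (T : Set A)) := FiniteDimensional.span_finset k T
    rw [← h4]
    refine (dim_le hd (span k (T : Set A))).trans ?_
    exact Nat.mul_le_mul (rk_span_le ((hT.trans hb1).trans h1))
      (rk_span_le ((hT.trans hb1).trans h2))
  have hfin : b.Finite := by
    by_contra hinf
    obtain ⟨T, hT1, hT2⟩ := Set.Infinite.exists_subset_card_eq hinf (Y₁.card * Y₂.card + 1)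
    have := key T hT1
    omega
  refine ⟨hfin.toFinset, ?_, key _ (by rw [hfin.coe_toFinset]), ?_⟩
  · rw [hfin.coe_toFinset]
    exact hb1
  · rw [hfin.coe_toFinset, hb2]
    exact subset_span

end Pool.Agent.Run7.h123.LC
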