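import Mathlib
import Pool.Agent.Run7.h123.LC.LinP

set_option autoImplicit false

/-!
# The dimensions of a subspace over several independent fields

If the fields `K_0, …, K_{r-1}` are independent over `k` and `Z` is a finite dimensional `k`-space,
then `(dim_k Z / r)^(r-1) ≤ ∏ dim_{K_i} (K_i Z)`. The proof uses Petridis' lemma for a weighted sum of
the dimensions of a subspace with maximal ratio.
-/

namespace Pool.Agent.Run7.h123.LC

open Submodule

variable {k A : Type} [Field k] [Field A] [Algebra k A]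

/-- **Petridis' lemma for submodular functions.** -/
theorem petridis_sub (g : Submodule k A → ℝ) (hsub : ∀ Y Z I : Submodule k A,
      FiniteDimensional k Y → FiniteDimensional k Z → I ≤ Y → I ≤ Z → g (Y ⊔ Z) + g I ≤ g Y + g Z)
    (hinv : ∀ (c : A) (Y : Submodule k A), c ≠ 0 → g (tim c Y) = g Y) (hbot : g ⊥ ≤ 0)
    (α : ℝ) (Z : Submodule k A) [FiniteDimensional k Z]
    (hmin : ∀ Y ≤ Z, α * Module.finrank k Y ≤ g Y) (hZ : g Z ≤ α * Module.finrank k Z)
    (S : Finset A) :
    g (span k (S : Set A) * Z) ≤ α * Module.finrank k (span k (S : Set A) * Z : Submodule k A) := by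
  classical
  induction S using Finset.induction_on with
  | empty =>
    rw [Finset.coe_empty, span_empty, Submodule.bot_mul, finrank_bot, Nat.cast_zero, mul_zero]
    exact hbot
  | insert c S _ ih =>
    obtain ⟨P, hP⟩ : ∃ P : Submodule k A, P = span k (S : Set A) * Z := ⟨_, rfl⟩
    have hPf : FiniteDimensional k P := by
      rw [hP]
      have : FiniteDimensional k (span k (S : Set A)) := FiniteDimensional.span_finset k S
      exact fd_mul _ _
    rw [← hP] at ih
    rw [Finset.coe_insert, Submodule.span_insert, Submodule.sup_mul, tim_mul, ← hP]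
    by_cases hc : c = 0
    · have : tim c Z = ⊥ := by
        unfold tim
        rw [hc, LinearMap.mulLeft_zero_eq_zero, Submodule.map_zero]
      rw [this, bot_sup_eq]
      exact ih
    · obtain ⟨Y, hY⟩ : ∃ Y : Submodule k A, Y = Z ⊓ P.comap (LinearMap.mulLeft k c) := ⟨_, rfl⟩
      have hYZ : Y ≤ Z := by rw [hY]; exact inf_le_left
      have e1 : tim c Y = tim c Z ⊓ P := by
        rw [hY]
        unfold tim
        ext x
        simp only [Submodule.mem_map, Submodule.mem_inf, Submodule.mem_comap]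
        constructor
        · rintro ⟨y, ⟨h1, h2⟩, rfl⟩
          exact ⟨⟨y, h1, rfl⟩, h2⟩
        · rintro ⟨⟨y, h1, rfl⟩, h2⟩
          exact ⟨y, ⟨h1, h2⟩, rfl⟩
      have hf : FiniteDimensional k (tim c Z) := by
        unfold tim
        infer_instance
      have e2 := Submodule.finrank_sup_add_finrank_inf_eq (tim c Z) P
      rw [← e1, finrank_tim hc, finrank_tim hc] at e2
      have e3 := hsub (tim c Z) P (tim c Y) hf hPf (by
        rw [e1]
        exact inf_le_left) (by
        rw [e1]
        exact inf_le_right)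
      rw [hinv c _ hc, hinv c _ hc] at e3
      have e4 := hmin Y hYZ
      have e5 : (Module.finrank k (tim c Z ⊔ P : Submodule k A) : ℝ) =
          Module.finrank k Z + Module.finrank k P - Module.finrank k Y := by
        have : (Module.finrank k (tim c Z ⊔ P : Submodule k A) : ℝ) + Module.finrank k Y =
          Module.finrank k Z + Module.finrank k P := by exact_mod_cast e2
        linarith
      rw [e5]
      nlinarith

/-- a product inside a finite dimensional space generated by few elements -/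
lemma gen_field (E : IntermediateField k A) (Y : Submodule k A) [hYf : FiniteDimensional k Y] :
    ∃ (G F : Finset A), G.card = rk E Y ∧ (∀ x ∈ F, x ∈ E) ∧
      Y ≤ span k (F : Set A) * span k (G : Set A) := by
  classical
  have hYe : Module.Finite E (span E (Y : Set A)) := ex_fd E Y
  obtain ⟨G, hG1, hG2, hG3, -⟩ := Submodule.exists_finset_span_eq_linearIndepOn E (Y : Set A)
  obtain ⟨S, hS⟩ := Module.Finite.iff_fg.1 hYf
  have hSY : ∀ s ∈ S, s ∈ span E (G : Set A) := by
    intro s hs
    rw [hG3]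
    refine subset_span ?_
    rw [← hS]
    exact subset_span (Finset.mem_coe.2 hs)
  choose! f hf using fun s (hs : s ∈ span E (G : Set A)) => Submodule.mem_span_finset'.1 hs
  obtain ⟨F, hF⟩ : ∃ F : Finset A, F = insert 1 (S.biUnion fun s =>
    (Finset.univ : Finset G).image fun g => ((f s g : E) : A)) := ⟨_, rfl⟩
  refine ⟨G, F, hG2, ?_, ?_⟩
  · intro x hx
    rw [hF, Finset.mem_insert, Finset.mem_biUnion] at hx
    rcases hx with rfl | ⟨s, -, hx⟩
    · exact one_mem E
    · obtain ⟨g, -, rfl⟩ := Finset.mem_image.1 hx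
      exact (f s g).2
  · rw [← hS, span_le]
    intro s hs
    have h3 := hf s (hSY s hs)
    change s ∈ span k (F : Set A) * span k (G : Set A)
    rw [← h3]
    refine sum_mem fun g _ => ?_
    change ((f s g : E) : A) * (g : A) ∈ _
    refine Submodule.mul_mem_mul (subset_span ?_) (subset_span g.2)
    rw [Finset.mem_coe, hF]
    exact Finset.mem_insert_of_mem (Finset.mem_biUnion.2 ⟨s, hs,
      Finset.mem_image_of_mem _ (Finset.mem_univ g)⟩)

/-- lower bound for the dimension of a product -/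
lemma rk_mul_ge {K E E' : IntermediateField k A} (hd : Disj K E) (hK : K ≤ E') (hE : E ≤ E')
    (P Y : Submodule k A) [FiniteDimensional k P] [FiniteDimensional k Y] (hP : ∀ x ∈ P, x ∈ E) :
    rk E' Y * Module.finrank k P ≤ rk K (P * Y) := by
  classical
  have hYe : Module.Finite E' (span E' (Y : Set A)) := ex_fd E' Y
  obtain ⟨f, hf1, -, hf3⟩ := Submodule.exists_fun_fin_finrank_span_eq E' (Y : Set A)
  have : Module.Free k P := Module.Free.of_divisionRing k P
  set b := Module.finBasis k P with hb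
  have h1 : LinearIndependent k (fun i => (⟨(b i : A), hP _ (b i).2⟩ : E)) := by
    have h2 : LinearIndependent k (fun i => ((b i : P) : A)) :=
      b.linearIndependent.map' P.subtype (Submodule.ker_subtype P)
    exact LinearIndependent.of_comp (E.val.toLinearMap) h2
  have h3 := hd _ _ h1
  -- the products are independent over `K`
  have h4 : LinearIndependent K (fun p : Fin (Module.finrank E' (span E' (Y : Set A))) ×
      Fin (Module.finrank k P) => (b p.2 : A) * f p.1) := by
    rw [Fintype.linearIndependent_iff]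
    intro c hc
    have e1 : ∑ i, (⟨∑ j, (c (i, j) : A) * (b j : A), sum_mem fun j _ => mul_mem (hK (c (i, j)).2)
        (hE (hP _ (b j).2))⟩ : E') • f i = 0 := by
      rw [← hc, Fintype.sum_prod_type]
      refine Finset.sum_congr rfl fun i _ => ?_
      change (∑ j, (c (i, j) : A) * (b j : A)) * f i = _
      rw [Finset.sum_mul]
      refine Finset.sum_congr rfl fun j _ => ?_
      change _ = (c (i, j) : A) * ((b j : A) * f i)
      ring
    have e2 := Fintype.linearIndependent_iff.1 hf3 _ e1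
    rintro ⟨i, j⟩
    have e3 : ∑ j, (c (i, j) : A) * (b j : A) = 0 := congrArg Subtype.val (e2 i)
    exact Fintype.linearIndependent_iff.1 h3 (fun j => c (i, j)) e3 j
  have h5 := finrank_span_eq_card h4
  rw [Fintype.card_prod, Fintype.card_fin, Fintype.card_fin] at h5
  have : FiniteDimensional k (P * Y : Submodule k A) := fd_mul _ _
  unfold rk ex
  rw [← h5]
  have h6 : FiniteDimensional K (span K ((P * Y : Submodule k A) : Set A)) := ex_fd K (P * Y)
  refine Submodule.finrank_mono (span_mono ?_)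
  rintro _ ⟨p, rfl⟩
  exact Submodule.mul_mem_mul (b p.2).2 (hf1 p.1)

/-- **One step.** -/
theorem one_step {K E E' : IntermediateField k A} (hd : Disj K E) (hK : K ≤ E') (hE : E ≤ E')
    (Y : Submodule k A) [FiniteDimensional k Y] (q : ℕ)
    (h : ∀ S : Finset A, Module.finrank k Y * rk K (span k (S : Set A) * Y) ≤
      q * Module.finrank k (span k (S : Set A) * Y : Submodule k A)) :
    rk E' Y * Module.finrank k Y ≤ q * rk E Y := by
  classical
  by_contra hcon
  push Not at hcon
  obtain ⟨G, F, hG, hF, hYF⟩ := gen_field E Y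
  obtain ⟨m, hm⟩ : ∃ m : ℕ, m = q * rk E Y + 1 := ⟨_, rfl⟩
  obtain ⟨N, hN⟩ := folner (k := k) F m (by omega)
  obtain ⟨a, ha⟩ : ∃ a : ℕ, a = Module.finrank k ((span k (F : Set A)) ^ N : Submodule k A) :=
    ⟨_, rfl⟩
  obtain ⟨b, hb⟩ : ∃ b : ℕ, b = Module.finrank k ((span k (F : Set A)) ^ (N + 1) : Submodule k A) :=
    ⟨_, rfl⟩
  rw [← ha, ← hb] at hN
  have hP1 := fd_pow (k := k) F N
  have hP2 := fd_pow (k := k) F (N + 1)
  have hGf : FiniteDimensional k (span k (G : Set A)) := FiniteDimensional.span_finset k G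
  have h4 : Module.finrank k ((span k (F : Set A)) ^ N * Y : Submodule k A) ≤ rk E Y * b := by
    have h5 := finrank_mul_span ((span k (F : Set A)) ^ (N + 1)) G
    rw [← hb, hG] at h5
    refine le_trans ?_ h5
    have : FiniteDimensional k ((span k (F : Set A)) ^ (N + 1) * span k (G : Set A) :
      Submodule k A) := fd_mul _ _
    refine Submodule.finrank_mono ?_
    rw [pow_succ, mul_assoc]
    exact mul_le_mul' le_rfl hYF
  have h5 := rk_mul_ge hd hK hE ((span k (F : Set A)) ^ N) Y (pow_mem_field hF N)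
  rw [← ha] at h5
  have h6 : Module.finrank k Y * rk K ((span k (F : Set A)) ^ N * Y) ≤
      q * Module.finrank k ((span k (F : Set A)) ^ N * Y : Submodule k A) := by
    obtain ⟨T, hT⟩ := Module.Finite.iff_fg.1 hP1
    rw [← hT]
    exact h T
  have h7 : (rk E' Y * Module.finrank k Y) * a ≤ (q * rk E Y) * b := by
    calc (rk E' Y * Module.finrank k Y) * a = Module.finrank k Y * (rk E' Y * a) := by ring
      _ ≤ Module.finrank k Y * rk K ((span k (F : Set A)) ^ N * Y) := by gcongr
      _ ≤ q * Module.finrank k ((span k (F : Set A)) ^ N * Y : Submodule k A) := h6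
      _ ≤ q * (rk E Y * b) := by gcongr
      _ = (q * rk E Y) * b := by ring
  obtain ⟨t, ht⟩ : ∃ t : ℕ, t = q * rk E Y := ⟨_, rfl⟩
  rw [← ht] at h7 hcon hm
  have h8 : (t + 1) * a ≤ t * b := (Nat.mul_le_mul_right _ hcon).trans h7
  subst hm
  -- `(t+1) b < (t+2) a` and `(t+1) a ≤ t b`
  nlinarith

lemma rk_anti {K E : IntermediateField k A} (hKE : K ≤ E) (Y : Submodule k A)
    [FiniteDimensional k Y] : rk E Y ≤ rk K Y := by
  classical
  have hYe : Module.Finite K (span K (Y : Set A)) := ex_fd K Y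
  obtain ⟨G, hG1, hG2, hG3, -⟩ := Submodule.exists_finset_span_eq_linearIndepOn K (Y : Set A)
  have h1 : Y.carrier ⊆ span E (G : Set A) := by
    intro y hy
    have h2 : y ∈ span K (G : Set A) := by
      rw [hG3]
      exact subset_span hy
    obtain ⟨f, hf⟩ := Submodule.mem_span_finset'.1 h2
    rw [← hf]
    refine sum_mem fun a _ => ?_
    exact Submodule.smul_mem (span E (G : Set A)) (⟨(f a : A), hKE (f a).2⟩ : E) (subset_span a.2)
  unfold rk
  have h3 : Module.finrank K (ex K Y) = G.card := hG2.symm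
  rw [h3]
  have : FiniteDimensional E (span E (G : Set A)) := FiniteDimensional.span_finset E G
  exact (Submodule.finrank_mono (span_le.2 h1)).trans (finrank_span_finset_le_card _)

lemma amgm {r : ℕ} (hr : r ≠ 0) (u : ℕ → ℝ) (hu : ∀ i, 0 ≤ u i) :
    ∏ i ∈ Finset.range r, u i ≤ (∑ i ∈ Finset.range r, u i / r) ^ r := by
  have hr' : (0 : ℝ) < r := by exact_mod_cast Nat.pos_of_ne_zero hr
  have h1 := Real.geom_mean_le_arith_mean_weighted (Finset.range r) (fun _ => (r : ℝ)⁻¹) u
    (fun _ _ => by positivity) (by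
      rw [Finset.sum_const, Finset.card_range, nsmul_eq_mul, mul_inv_cancel₀ hr'.ne'])
    (fun i _ => hu i)
  have h2 : ∏ i ∈ Finset.range r, u i = (∏ i ∈ Finset.range r, u i ^ (r : ℝ)⁻¹) ^ r := by
    rw [← Finset.prod_pow]
    exact Finset.prod_congr rfl fun i _ => (Real.rpow_inv_natCast_pow (hu i) hr).symm
  rw [h2]
  refine pow_le_pow_left₀ (Finset.prod_nonneg fun i _ => Real.rpow_nonneg (hu i) _) ?_ r
  refine h1.trans (le_of_eq (Finset.sum_congr rfl fun i _ => ?_))
  rw [div_eq_mul_inv, mul_comm]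

/-- **Several independent fields.** -/
theorem many_fields (r : ℕ) (hr : 2 ≤ r) (K E : ℕ → IntermediateField k A)
    (hK : ∀ j < r, K j ≤ E (j + 1)) (hE : ∀ j < r, E j ≤ E (j + 1))
    (hd : ∀ j < r, 1 ≤ j → Disj (K j) (E j)) (Z : Submodule k A) [hZf : FiniteDimensional k Z] :
    Module.finrank k Z ^ (r - 1) ≤ r ^ (r - 1) * ∏ j ∈ Finset.range r, rk (K j) Z := by
  classical
  by_cases hZ0 : Z = ⊥
  · rw [hZ0, finrank_bot, zero_pow (by omega)]
    exact Nat.zero_le _
  obtain ⟨ρ, hρ⟩ : ∃ ρ : Submodule k A → ℚ, ρ = fun Y : Submodule k A => (Module.finrank k Y : ℚ) ^ (r - 1) /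
    ((∏ j ∈ Finset.range r, rk (K j) Y : ℕ) : ℚ) := ⟨_, rfl⟩
  have hfin : {q : ℚ | ∃ Y ≤ Z, Y ≠ ⊥ ∧ ρ Y = q}.Finite := by
    refine Set.Finite.subset (Set.Finite.image2 (fun a b : ℕ => (a : ℚ) ^ (r - 1) / (b : ℚ))
      (Set.finite_Iic (Module.finrank k Z)) (Set.finite_Iic (∏ j ∈ Finset.range r, rk (K j) Z))) ?_
    rintro _ ⟨Y, hY, -, rfl⟩
    refine ⟨_, Submodule.finrank_mono hY, _, Finset.prod_le_prod' fun j _ => rk_mono (K j) hY, ?_⟩
    rw [hρ]
  obtain ⟨q, ⟨Y, hYZ, hY0, hYq⟩, hmax⟩ := Set.exists_max_image _ id hfin ⟨ρ Z, Z, le_rfl, hZ0, rfl⟩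
  have hYf : FiniteDimensional k Y := Submodule.finiteDimensional_of_le hYZ
  have hr0 : (0 : ℝ) < r := by
    have : 0 < r := by omega
    exact_mod_cast this
  obtain ⟨n, hn⟩ : ∃ n : ℕ, n = Module.finrank k Y := ⟨_, rfl⟩
  have hnpos : 0 < n := by
    rw [hn, Nat.pos_iff_ne_zero]
    intro h0
    exact hY0 (Submodule.finrank_eq_zero.1 h0)
  have hnr : (0 : ℝ) < n := by exact_mod_cast hnpos
  have hdpos : ∀ j, 0 < rk (K j) Y := fun j => Nat.pos_of_ne_zero (rk_ne hY0)
  have hdr : ∀ j, (0 : ℝ) < rk (K j) Y := fun j => by exact_mod_cast hdpos j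
  obtain ⟨g, hg⟩ : ∃ g : Submodule k A → ℝ, g = fun X : Submodule k A =>
    ∑ i ∈ Finset.range r, ((rk (K i) X : ℝ) / rk (K i) Y) / r := ⟨_, rfl⟩
  have hgY : g Y = 1 := by
    rw [hg]
    simp only
    rw [Finset.sum_congr rfl fun i _ => by rw [div_self (hdr i).ne'], Finset.sum_const,
      Finset.card_range, nsmul_eq_mul, mul_one_div_cancel hr0.ne']
  have hmin : ∀ X ≤ Y, (1 / (n : ℝ)) * Module.finrank k X ≤ g X := by
    intro X hX
    have hXf : FiniteDimensional k X := Submodule.finiteDimensional_of_le hX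
    have hg0 : ∀ X, 0 ≤ g X := by
      intro X
      rw [hg]
      exact Finset.sum_nonneg fun i _ => by positivity
    by_cases hX0 : X = ⊥
    · rw [hX0, finrank_bot, Nat.cast_zero, mul_zero]
      exact hg0 _
    have h1 : ρ X ≤ ρ Y := by
      rw [hYq]
      exact hmax _ ⟨X, hX.trans hYZ, hX0, rfl⟩
    have h2 : ((Module.finrank k X : ℝ) / n) ^ (r - 1) ≤
        ∏ i ∈ Finset.range r, ((rk (K i) X : ℝ) / rk (K i) Y) := by
      have e1 : (0 : ℚ) < ((∏ j ∈ Finset.range r, rk (K j) X : ℕ) : ℚ) := by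
        have : 0 < ∏ j ∈ Finset.range r, rk (K j) X :=
          Finset.prod_pos fun j _ => Nat.pos_of_ne_zero (rk_ne hX0)
        exact_mod_cast this
      have e2 : (0 : ℚ) < ((∏ j ∈ Finset.range r, rk (K j) Y : ℕ) : ℚ) := by
        have : 0 < ∏ j ∈ Finset.range r, rk (K j) Y := Finset.prod_pos fun j _ => hdpos j
        exact_mod_cast this
      rw [hρ] at h1
      simp only at h1
      rw [div_le_div_iff₀ e1 e2, ← hn] at h1
      have h3 : (Module.finrank k X : ℝ) ^ (r - 1) * ∏ j ∈ Finset.range r, (rk (K j) Y : ℝ) ≤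
          (n : ℝ) ^ (r - 1) * ∏ j ∈ Finset.range r, (rk (K j) X : ℝ) := by
        have h4 : (Module.finrank k X) ^ (r - 1) * ∏ j ∈ Finset.range r, rk (K j) Y ≤
          n ^ (r - 1) * ∏ j ∈ Finset.range r, rk (K j) X := by exact_mod_cast h1
        exact_mod_cast h4
      rw [Finset.prod_div_distrib, div_pow, div_le_div_iff₀ (by positivity)
        (Finset.prod_pos fun j _ => hdr j)]
      linarith
    have h3 := amgm (r := r) (by omega) (fun i => (rk (K i) X : ℝ) / rk (K i) Y)
      (fun i => by positivity)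
    have h4 : (Module.finrank k X : ℝ) / n ≤ 1 := by
      rw [div_le_one hnr, hn]
      exact_mod_cast Submodule.finrank_mono hX
    have h5 : ((Module.finrank k X : ℝ) / n) ^ r ≤ g X ^ r := by
      calc ((Module.finrank k X : ℝ) / n) ^ r ≤ ((Module.finrank k X : ℝ) / n) ^ (r - 1) :=
            pow_le_pow_of_le_one (by positivity) h4 (by omega)
        _ ≤ _ := h2
        _ ≤ _ := h3
        _ = g X ^ r := by rw [hg]
    have h6 := le_of_pow_le_pow_left₀ (by omega : r ≠ 0) (hg0 X) h5
    calc (1 / (n : ℝ)) * Module.finrank k X = (Module.finrank k X : ℝ) / n := by ring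
      _ ≤ g X := h6
  have hpet : ∀ S : Finset A, g (span k (S : Set A) * Y) ≤
      (1 / (n : ℝ)) * Module.finrank k (span k (S : Set A) * Y : Submodule k A) := by
    refine petridis_sub g ?_ ?_ ?_ (1 / (n : ℝ)) Y hmin ?_
    · intro X₁ X₂ I hf1 hf2 h1 h2
      rw [hg]
      simp only
      rw [← Finset.sum_add_distrib, ← Finset.sum_add_distrib]
      refine Finset.sum_le_sum fun i _ => ?_
      have h3 : (rk (K i) (X₁ ⊔ X₂) : ℝ) + rk (K i) I ≤ rk (K i) X₁ + rk (K i) X₂ := by
        exact_mod_cast rk_sup (K i) h1 h2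
      rw [← add_div, ← add_div, ← add_div, ← add_div]
      gcongr
    · intro c X hc
      rw [hg]
      simp only
      exact Finset.sum_congr rfl fun i _ => by rw [rk_tim hc]
    · rw [hg]
      simp only
      refine le_of_eq (Finset.sum_eq_zero fun i _ => ?_)
      rw [rk_bot, Nat.cast_zero, zero_div, zero_div]
    · rw [hgY, ← hn, one_div_mul_cancel hnr.ne']
  have hstep : ∀ j < r, 1 ≤ j → rk (E (j + 1)) Y * n ≤ (r * rk (K j) Y) * rk (E j) Y := by
    intro j hj hj1
    rw [hn]
    refine one_step (hd j hj hj1) (hK j hj) (hE j hj) Y (r * rk (K j) Y) fun S => ?_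
    have h1 := hpet S
    have h2 : ((rk (K j) (span k (S : Set A) * Y) : ℝ) / rk (K j) Y) / r ≤
        g (span k (S : Set A) * Y) := by
      rw [hg]
      exact Finset.single_le_sum (f := fun i =>
        ((rk (K i) (span k (S : Set A) * Y) : ℝ) / rk (K i) Y) / r)
        (fun i _ => by positivity) (Finset.mem_range.2 hj)
    have h3 := h2.trans h1
    rw [div_div, div_le_iff₀ (mul_pos (hdr j) hr0)] at h3
    have h4 : (n : ℝ) * rk (K j) (span k (S : Set A) * Y) ≤ (r * rk (K j) Y) *
        Module.finrank k (span k (S : Set A) * Y : Submodule k A) := by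
      calc (n : ℝ) * rk (K j) (span k (S : Set A) * Y)
          ≤ n * (1 / (n : ℝ) * Module.finrank k (span k (S : Set A) * Y : Submodule k A) *
            (rk (K j) Y * r)) := by gcongr
        _ = _ := by field_simp
    rw [← hn]
    exact_mod_cast h4
  have hchain : ∀ j : ℕ, j + 1 ≤ r → rk (E (j + 1)) Y * n ^ j ≤
      r ^ j * ∏ i ∈ Finset.range (j + 1), rk (K i) Y := by
    intro j
    induction j with
    | zero =>
      intro _
      rw [pow_zero, pow_zero, mul_one, one_mul, zero_add, Finset.prod_range_one]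
      exact rk_anti (hK 0 (by omega)) Y
    | succ j ih =>
      intro hj
      have h1 := ih (by omega)
      have h2 := hstep (j + 1) (by omega) (by omega)
      calc rk (E (j + 1 + 1)) Y * n ^ (j + 1) = (rk (E (j + 1 + 1)) Y * n) * n ^ j := by ring
        _ ≤ ((r * rk (K (j + 1)) Y) * rk (E (j + 1)) Y) * n ^ j := by gcongr
        _ = (r * rk (K (j + 1)) Y) * (rk (E (j + 1)) Y * n ^ j) := by ring
        _ ≤ (r * rk (K (j + 1)) Y) * (r ^ j * ∏ i ∈ Finset.range (j + 1), rk (K i) Y) := by gcongr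
        _ = _ := by
          rw [Finset.prod_range_succ _ (j + 1)]
          ring
  have hfinal := hchain (r - 1) (by omega)
  rw [Nat.sub_add_cancel (by omega : 1 ≤ r)] at hfinal
  have h1 : n ^ (r - 1) ≤ r ^ (r - 1) * ∏ i ∈ Finset.range r, rk (K i) Y := by
    refine le_trans ?_ hfinal
    exact Nat.le_mul_of_pos_left _ (Nat.pos_of_ne_zero (rk_ne hY0))
  have h2 : ρ Z ≤ ρ Y := by
    rw [hYq]
    exact hmax _ ⟨Z, le_rfl, hZ0, rfl⟩
  have e1 : (0 : ℚ) < ((∏ j ∈ Finset.range r, rk (K j) Z : ℕ) : ℚ) := by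
    have : 0 < ∏ j ∈ Finset.range r, rk (K j) Z :=
      Finset.prod_pos fun j _ => Nat.pos_of_ne_zero (rk_ne hZ0)
    exact_mod_cast this
  have e2 : (0 : ℚ) < ((∏ j ∈ Finset.range r, rk (K j) Y : ℕ) : ℚ) := by
    have : 0 < ∏ j ∈ Finset.range r, rk (K j) Y := Finset.prod_pos fun j _ => hdpos j
    exact_mod_cast this
  have h3 : ρ Y ≤ (r : ℚ) ^ (r - 1) := by
    rw [hρ]
    simp only
    rw [div_le_iff₀ e2, ← hn]
    exact_mod_cast h1
  have h4 := h2.trans h3
  rw [hρ] at h4
  simp only at h4
  rw [div_le_iff₀ e1] at h4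
  exact_mod_cast h4

/-- from bounds for finite dimensional subspaces to a finite spanning subset -/
lemma spanning_of_bound {Y : Set A} {P : ℕ → Prop} {M : ℕ} (hM : ∀ n, P n → n ≤ M)
    (h : ∀ T : Finset A, (T : Set A) ⊆ Y → P (Module.finrank k (span k (T : Set A)))) :
    ∃ Z : Finset A, (Z : Set A) ⊆ Y ∧ P Z.card ∧ Y ⊆ span k (Z : Set A) := by
  classical
  obtain ⟨b, hb1, hb2, hb3⟩ := exists_linearIndependent k Y
  have key : ∀ T : Finset A, (T : Set A) ⊆ b → P T.card := by
    intro T hT
    have h3 : LinearIndependent k (fun x : T => (x : A)) :=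
      hb3.comp (fun x : T => (⟨x, hT x.2⟩ : b)) (fun x y h => by
        have := congrArg (fun z : b => (z : A)) h
        exact Subtype.ext this)
    have h4 : Module.finrank k (span k (T : Set A)) = T.card := finrank_span_finset_eq_card h3
    rw [← h4]
    exact h T (hT.trans hb1)
  have hfin : b.Finite := by
    by_contra hinf
    obtain ⟨T, hT1, hT2⟩ := Set.Infinite.exists_subset_card_eq hinf (M + 1)
    have := hM _ (key T hT1)
    omega
  refine ⟨hfin.toFinset, ?_, key _ (by rw [hfin.coe_toFinset]), ?_⟩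
  · rw [hfin.coe_toFinset]
    exact hb1
  · rw [hfin.coe_toFinset, hb2]
    exact subset_span

/-- **Finite dimensionality over several independent fields, with a bound.** -/
theorem finR (r : ℕ) (hr : 2 ≤ r) (K E : ℕ → IntermediateField k A)
    (hK : ∀ j < r, K j ≤ E (j + 1)) (hE : ∀ j < r, E j ≤ E (j + 1))
    (hd : ∀ j < r, 1 ≤ j → Disj (K j) (E j)) {Y : Set A} (X : ℕ → Finset A)
    (hX : ∀ j < r, Y ⊆ span (K j) (X j : Set A)) :
    ∃ Z : Finset A, (Z : Set A) ⊆ Y ∧
      Z.card ^ (r - 1) ≤ r ^ (r - 1) * ∏ j ∈ Finset.range r, (X j).card ∧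
      Y ⊆ span k (Z : Set A) := by
  refine spanning_of_bound (P := fun n => n ^ (r - 1) ≤
    r ^ (r - 1) * ∏ j ∈ Finset.range r, (X j).card)
    (M := r ^ (r - 1) * ∏ j ∈ Finset.range r, (X j).card) (fun n hn => ?_) (fun T hT => ?_)
  · exact (Nat.le_self_pow (by omega) n).trans hn
  · have : FiniteDimensional k (span k (T : Set A)) := FiniteDimensional.span_finset k T
    refine (many_fields r hr K E hK hE hd (span k (T : Set A))).trans ?_
    refine Nat.mul_le_mul_left _ (Finset.prod_le_prod' fun j hj => ?_)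
    exact rk_span_le (hT.trans (hX j (Finset.mem_range.1 hj)))

end Pool.Agent.Run7.h123.LC
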