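import Mathlib
import Pool.Agent.Run7.h123.LC.LinR

set_option autoImplicit false

/-!
# Linear dependence over several independent fields

If `z_1, …, z_n` are linearly independent over `k` and linearly dependent over each of `r ≥ 1`
independent fields, then `r < n`.
-/

namespace Pool.Agent.Run7.h123.LC

open Submodule

variable {k A : Type} [Field k] [Field A] [Algebra k A]

/-- the rational hull -/
lemma hull {K E : IntermediateField k A} (hd : Disj E K) {n : ℕ} {ι : Type} (J : Finset ι)
    (a : ι → Fin n → A) (ha : ∀ j ∈ J, ∀ l, a j l ∈ E) (x : Fin n → A) (hx : ∀ l, x l ∈ K)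
    (hxs : x ∈ span A (a '' (J : Set ι))) :
    ∃ (P : ℕ) (f : Fin P → A) (v : Fin P → Fin n → k), (∀ p, f p ∈ K) ∧
      (∀ p, (algebraMap k A ∘ v p) ∈ span A (a '' (J : Set ι))) ∧
      x = ∑ p, f p • (algebraMap k A ∘ v p) := by
  classical
  obtain ⟨F, hF⟩ : ∃ F : Submodule k A, F = span k (Set.range x) := ⟨_, rfl⟩
  have hFf : FiniteDimensional k F := by
    rw [hF]
    exact FiniteDimensional.span_of_finite k (Set.finite_range x)
  have hFr : Module.Free k F := Module.Free.of_divisionRing k F
  have hFK : ∀ y ∈ F, y ∈ K := by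
    intro y hy
    have h1 : F ≤ Subalgebra.toSubmodule K.toSubalgebra := by
      rw [hF, span_le]
      rintro _ ⟨l, rfl⟩
      exact hx l
    exact h1 hy
  obtain ⟨P, ⟨b⟩⟩ : ∃ P : ℕ, Nonempty (Module.Basis (Fin P) k F) := ⟨_, ⟨Module.finBasis k F⟩⟩
  have hxF : ∀ l, x l ∈ F := fun l => by
    rw [hF]
    exact subset_span ⟨l, rfl⟩
  obtain ⟨f, hf⟩ : ∃ f : Fin P → A, f = fun p => (b p : A) := ⟨_, rfl⟩
  obtain ⟨v, hv⟩ : ∃ v : Fin P → Fin n → k, v = fun p l => b.repr ⟨x l, hxF l⟩ p := ⟨_, rfl⟩
  have hfF : ∀ p, f p ∈ F := fun p => by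
    rw [hf]
    exact (b p).2
  have hxl : ∀ l, x l = ∑ p, v p l • f p := by
    intro l
    have h1 := congrArg (fun y : F => (y : A)) (b.sum_repr ⟨x l, hxF l⟩)
    simp only [AddSubmonoidClass.coe_finsetSum, Submodule.coe_smul] at h1
    rw [hv, hf]
    exact h1.symm
  have hli : LinearIndependent E f := by
    have h1 : LinearIndependent k (fun p => (⟨f p, hFK _ (hfF p)⟩ : K)) := by
      have h2 : LinearIndependent k f := by
        rw [hf]
        exact b.linearIndependent.map' F.subtype (Submodule.ker_subtype F)
      exact LinearIndependent.of_comp (K.val.toLinearMap) h2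
    exact hd _ _ h1
  obtain ⟨g, hg⟩ := LinearMap.exists_leftInverse_of_injective (Fintype.linearCombination E f)
    (LinearMap.ker_eq_bot.2 (linearIndependent_iff_injective_fintypeLinearCombination.1 hli))
  have hgf : ∀ q, g (f q) = Pi.single q 1 := by
    intro q
    have h1 := LinearMap.congr_fun hg (Pi.single q 1)
    rw [LinearMap.comp_apply, Fintype.linearCombination_apply_single, one_smul] at h1
    exact h1
  obtain ⟨c, hc⟩ : ∃ c : ι → A, ∑ j ∈ J, c j • a j = x := by
    obtain ⟨c0, hc0⟩ := (Submodule.mem_span_image_finset_iff_exists_fun A).1 hxs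
    refine ⟨fun j => if h : j ∈ J then c0 ⟨j, h⟩ else 0, ?_⟩
    rw [← hc0, ← Finset.sum_coe_sort J]
    refine Finset.sum_congr rfl fun j _ => ?_
    simp only [dif_pos j.2]
  refine ⟨P, f, v, fun p => hFK _ (hfF p), fun p => ?_, ?_⟩
  · have h1 : algebraMap k A ∘ v p = ∑ j ∈ J, ((g (c j) p : E) : A) • a j := by
      funext l
      have h2 : g (x l) p = algebraMap k E (v p l) := by
        rw [hxl l, map_sum, Finset.sum_apply]
        have h3 : ∀ q, g (v q l • f q) p = v q l • (Pi.single q (1 : E) : _ → E) p := by
          intro q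
          have h4 : v q l • f q = (algebraMap k E (v q l)) • f q := by
            rw [algebraMap_smul]
          rw [h4, map_smul, hgf q, Pi.smul_apply, algebraMap_smul]
        rw [Finset.sum_congr rfl fun q _ => h3 q, Finset.sum_eq_single p]
        · rw [Pi.single_eq_same, Algebra.algebraMap_eq_smul_one]
        · intro q _ hq
          rw [Pi.single_eq_of_ne hq.symm, smul_zero]
        · intro h
          exact absurd (Finset.mem_univ p) h
      have h3 : x l = ∑ j ∈ J, c j * a j l := by
        rw [← hc, Finset.sum_apply]
        rfl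
      have h4 : g (x l) p = ∑ j ∈ J, (if h : a j l ∈ E then (⟨a j l, h⟩ : E) else 0) * g (c j) p := by
        rw [h3, map_sum, Finset.sum_apply]
        refine Finset.sum_congr rfl fun j hj => ?_
        rw [dif_pos (ha j hj l)]
        have h5 : c j * a j l = (⟨a j l, ha j hj l⟩ : E) • c j := by
          change c j * a j l = a j l * c j
          ring
        rw [h5, map_smul]
        rfl
      have h5 : (algebraMap k A (v p l)) = ((g (x l) p : E) : A) := by
        rw [h2]
        rfl
      change algebraMap k A (v p l) = _
      rw [h5, h4, AddSubmonoidClass.coe_finsetSum, Finset.sum_apply]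
      refine Finset.sum_congr rfl fun j hj => ?_
      rw [dif_pos (ha j hj l)]
      change a j l * ((g (c j) p : E) : A) = ((g (c j) p : E) : A) * a j l
      ring
    rw [h1]
    exact sum_mem fun j hj => smul_mem _ _ (subset_span ⟨j, hj, rfl⟩)
  · funext l
    rw [hxl l, Finset.sum_apply]
    refine Finset.sum_congr rfl fun p _ => ?_
    rw [Algebra.smul_def]
    exact mul_comm _ _

/-- **Linear dependence over several independent fields.** -/
theorem rado {ι : Type} [DecidableEq ι] (K E : ι → IntermediateField k A)
    (hKE : ∀ i j, j ≠ i → K j ≤ E i) (hd : ∀ i, Disj (E i) (K i)) : ∀ (n : ℕ) (z : Fin n → A)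
    (_ : LinearIndependent k z) (I : Finset ι) (_ : I.Nonempty) (a : ι → Fin n → A)
    (_ : ∀ i ∈ I, ∀ l, a i l ∈ K i) (_ : ∀ i ∈ I, a i ≠ 0) (_ : ∀ i ∈ I, ∑ l, a i l * z l = 0),
    I.card < n := by
  classical
  intro n
  induction n using Nat.strong_induction_on with
  | _ n ih =>
    intro z hz I hI a ha hne hrel
    by_contra hcon
    push Not at hcon
    obtain ⟨i0, hi0⟩ := hI
    have hn : 0 < n := by
      rw [Nat.pos_iff_ne_zero]
      rintro rfl
      exact hne i0 hi0 (Subsingleton.elim _ _)
    -- the hyperplane
    set H : Submodule A (Fin n → A) := LinearMap.ker (Fintype.linearCombination A z) with hH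
    have haH : ∀ i ∈ I, a i ∈ H := by
      intro i hi
      rw [hH, LinearMap.mem_ker, Fintype.linearCombination_apply]
      exact hrel i hi
    have hHlt : Module.finrank A H < n := by
      have h1 : H ≠ ⊤ := by
        intro h
        have h2 : (Pi.single ⟨0, hn⟩ 1 : Fin n → A) ∈ H := by rw [h]; exact Submodule.mem_top
        rw [hH, LinearMap.mem_ker, Fintype.linearCombination_apply_single, one_smul] at h2
        exact hz.ne_zero _ h2
      have h2 := Submodule.finrank_lt h1
      rwa [Module.finrank_fin_fun] at h2
    have hspan : ∀ J : Finset ι, J ⊆ I → span A (a '' (J : Set ι)) ≤ H := by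
      intro J hJ
      rw [span_le]
      rintro _ ⟨j, hj, rfl⟩
      exact haH j (hJ hj)
    -- a minimal dependent subset
    have hdep : ¬ LinearIndepOn A a (I : Set ι) := by
      intro h
      have h1 : LinearIndependent A (fun i : I => a i) := h
      have h2 := finrank_span_eq_card h1
      have h3 : span A (Set.range fun i : I => a i) ≤ H := by
        rw [span_le]
        rintro _ ⟨i, rfl⟩
        exact haH i i.2
      have h4 := Submodule.finrank_mono h3
      rw [h2, Fintype.card_coe] at h4
      omega
    obtain ⟨J, hJ, hJmin⟩ := Finset.exists_min_image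
      (I.powerset.filter fun J : Finset ι => ¬ LinearIndepOn A a (J : Set ι)) Finset.card
      ⟨I, Finset.mem_filter.2 ⟨Finset.mem_powerset_self I, hdep⟩⟩
    rw [Finset.mem_filter, Finset.mem_powerset] at hJ
    obtain ⟨hJI, hJdep⟩ := hJ
    have hJne : J.Nonempty := by
      rw [Finset.nonempty_iff_ne_empty]
      rintro rfl
      refine hJdep ?_
      rw [Finset.coe_empty]
      exact linearIndepOn_empty A a
    have herase : ∀ j ∈ J, LinearIndepOn A a ((J.erase j : Finset ι) : Set ι) := by
      intro j hj
      by_contra h
      have h1 := hJmin (J.erase j) (Finset.mem_filter.2 ⟨Finset.mem_powerset.2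
        ((Finset.erase_subset _ _).trans hJI), h⟩)
      have h2 := Finset.card_erase_lt_of_mem hj
      omega
    have hmem : ∀ j ∈ J, a j ∈ span A (a '' ((J.erase j : Finset ι) : Set ι)) := by
      intro j hj
      by_contra h
      refine hJdep ?_
      have h1 : (J : Set ι) = insert j ((J.erase j : Finset ι) : Set ι) := by
        rw [← Finset.coe_insert, Finset.insert_erase hj]
      rw [h1]
      exact (herase j hj).insert h
    obtain ⟨S, hS⟩ : ∃ S : Submodule A (Fin n → A), S = span A (a '' (J : Set ι)) := ⟨_, rfl⟩
    have hSJ : ∀ j ∈ J, span A (a '' ((J.erase j : Finset ι) : Set ι)) ≤ S := by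
      intro j _
      rw [hS]
      exact span_mono (Set.image_mono (Finset.coe_subset.2 (Finset.erase_subset _ _)))
    have hScard : Module.finrank A S < J.card := by
      obtain ⟨j, hj⟩ := hJne
      have h1 : S ≤ span A (a '' ((J.erase j : Finset ι) : Set ι)) := by
        rw [hS, span_le]
        rintro _ ⟨i, hi, rfl⟩
        by_cases hij : i = j
        · rw [hij]
          exact hmem j hj
        · exact subset_span ⟨i, Finset.mem_coe.2 (Finset.mem_erase.2 ⟨hij, hi⟩), rfl⟩
      have h2 := Submodule.finrank_mono h1
      have h3 : Module.finrank A (span A (a '' ((J.erase j : Finset ι) : Set ι))) ≤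
          (J.erase j).card := by
        rw [← Finset.coe_image]
        exact (finrank_span_finset_le_card _).trans Finset.card_image_le
      have h4 := Finset.card_erase_lt_of_mem hj
      omega
    -- the rational vectors in `S`
    set B : Submodule k (Fin n → k) :=
      { carrier := {v | (algebraMap k A ∘ v) ∈ S}
        zero_mem' := by
          change (algebraMap k A ∘ (0 : Fin n → k)) ∈ S
          have : (algebraMap k A ∘ (0 : Fin n → k)) = 0 := by
            funext l
            simp
          rw [this]
          exact zero_mem S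
        add_mem' := by
          intro u v hu hv
          change (algebraMap k A ∘ (u + v)) ∈ S
          have : (algebraMap k A ∘ (u + v)) = (algebraMap k A ∘ u) + (algebraMap k A ∘ v) := by
            funext l
            simp
          rw [this]
          exact add_mem hu hv
        smul_mem' := by
          intro c v hv
          change (algebraMap k A ∘ (c • v)) ∈ S
          have : (algebraMap k A ∘ (c • v)) = (algebraMap k A c) • (algebraMap k A ∘ v) := by
            funext l
            simp
          rw [this]
          exact smul_mem S _ hv } with hB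
    have hBfree : Module.Free k B := Module.Free.of_divisionRing k B
    set t := Module.finrank k B with ht
    set w := Module.finBasis k B with hw
    have hwli : LinearIndependent k (fun q => ((w q : B) : Fin n → k)) :=
      w.linearIndependent.map' B.subtype (Submodule.ker_subtype B)
    have htS : t ≤ Module.finrank A S := by
      have h1 : LinearIndependent A (fun q => algebraMap k A ∘ ((w q : B) : Fin n → k)) :=
        linearIndependent_algebraMap_comp_iff.2 hwli
      have h2 := finrank_span_eq_card h1
      rw [Fintype.card_fin] at h2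
      rw [ht, ← h2]
      refine Submodule.finrank_mono ?_
      rw [span_le]
      rintro _ ⟨q, rfl⟩
      exact (w q).2
    have htn : t < n := by
      have h1 := Submodule.finrank_mono (hspan J hJI)
      rw [← hS] at h1
      omega
    -- new coordinates
    have hcoef : ∀ j ∈ J, ∃ b : Fin t → A, (∀ q, b q ∈ K j) ∧
        a j = ∑ q, b q • (algebraMap k A ∘ ((w q : B) : Fin n → k)) := by
      intro j hj
      obtain ⟨P, f, v, hf, hv, hx⟩ := hull (hd j) (J.erase j) a (fun i hi l => by
        rw [Finset.mem_erase] at hi
        exact hKE j i hi.1 (ha i (hJI hi.2) l)) (a j) (ha j (hJI hj)) (hmem j hj)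
      have hvB : ∀ p, v p ∈ B := fun p => hSJ j hj (hv p)
      refine ⟨fun q => ∑ p, f p * algebraMap k A (w.repr ⟨v p, hvB p⟩ q), fun q =>
        sum_mem fun p _ => mul_mem (hf p) ((K j).algebraMap_mem _), ?_⟩
      rw [hx]
      funext l
      simp only [Finset.sum_apply, Pi.smul_apply, smul_eq_mul, Function.comp_apply, Finset.sum_mul]
      rw [Finset.sum_comm]
      refine Finset.sum_congr rfl fun p _ => ?_
      have h1 := congrArg (fun y : B => (y : Fin n → k) l) (w.sum_repr ⟨v p, hvB p⟩)
      simp only [AddSubmonoidClass.coe_finsetSum, Finset.sum_apply] at h1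
      rw [← h1, map_sum, Finset.mul_sum]
      refine Finset.sum_congr rfl fun q _ => ?_
      have h2 : ((w.repr ⟨v p, hvB p⟩ q • w q : B) : Fin n → k) l =
          w.repr ⟨v p, hvB p⟩ q * (w q : Fin n → k) l := rfl
      rw [h2, map_mul, mul_assoc]
    choose! b hbK hba using hcoef
    have hfinal := ih t htn (fun q => ∑ l, algebraMap k A ((w q : Fin n → k) l) * z l) ?_ J hJne b
      (fun j hj q => hbK j hj q) (fun j hj h0 => ?_) (fun j hj => ?_)
    · omega
    · rw [Fintype.linearIndependent_iff]
      intro g hg
      have h1 : ∑ l, (∑ q, g q * (w q : Fin n → k) l) • z l = 0 := by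
        rw [← hg]
        simp only [Finset.sum_smul, Finset.smul_sum]
        rw [Finset.sum_comm]
        refine Finset.sum_congr rfl fun q _ => Finset.sum_congr rfl fun l _ => ?_
        rw [Algebra.smul_def, Algebra.smul_def, map_mul, mul_assoc]
      have h2 := Fintype.linearIndependent_iff.1 hz _ h1
      refine Fintype.linearIndependent_iff.1 hwli g ?_
      funext l
      rw [Finset.sum_apply]
      exact h2 l
    · refine hne j (hJI hj) ?_
      rw [hba j hj, h0]
      simp
    · have h1 := hrel j (hJI hj)
      rw [hba j hj] at h1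
      rw [← h1]
      simp only [Finset.sum_apply, Pi.smul_apply, smul_eq_mul, Function.comp_apply, Finset.sum_mul,
        Finset.mul_sum]
      rw [Finset.sum_comm]
      refine Finset.sum_congr rfl fun l _ => Finset.sum_congr rfl fun q _ => ?_
      rw [mul_assoc]

/-- **Small spaces over many independent fields.** -/
theorem finL {r : ℕ} (K E : Fin r → IntermediateField k A) (hKE : ∀ i j, j ≠ i → K j ≤ E i)
    (hd : ∀ i, Disj (E i) (K i)) {N : ℕ} (hr : 0 < r) (hN : N ≤ r) {Y : Set A}
    (X : Fin r → Finset A) (hXc : ∀ i, (X i).card < N)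
    (hX : ∀ i, Y ⊆ span (K i) (X i : Set A)) :
    ∃ Z : Finset A, (Z : Set A) ⊆ Y ∧ Z.card < N ∧ Y ⊆ span k (Z : Set A) := by
  classical
  refine spanning_of_bound (P := fun n => n < N) (M := N) (fun n hn => hn.le) (fun T hT => ?_)
  by_contra hcon
  push Not at hcon
  have : FiniteDimensional k (span k (T : Set A)) := FiniteDimensional.span_finset k T
  obtain ⟨f, hf1, -, hf3⟩ := Submodule.exists_fun_fin_finrank_span_eq k (T : Set A)
  obtain ⟨z, hz⟩ : ∃ z : Fin N → A, z = fun l => f (Fin.castLE hcon l) := ⟨_, rfl⟩
  have hzli : LinearIndependent k z := by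
    rw [hz]
    exact hf3.comp _ (Fin.castLE_injective hcon)
  have hzY : ∀ l, z l ∈ Y := by
    intro l
    rw [hz]
    exact hT (hf1 _)
  have hrel : ∀ i, ∃ a : Fin N → A, (∀ l, a l ∈ K i) ∧ a ≠ 0 ∧ ∑ l, a l * z l = 0 := by
    intro i
    have h1 : ¬ LinearIndependent (K i) z := by
      intro h
      have h2 := finrank_span_eq_card h
      rw [Fintype.card_fin] at h2
      have h3 : span (K i) (Set.range z) ≤ span (K i) (X i : Set A) := by
        rw [span_le]
        rintro _ ⟨l, rfl⟩
        exact hX i (hzY l)
      have h4 : FiniteDimensional (K i) (span (K i) (X i : Set A)) :=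
        FiniteDimensional.span_finset _ _
      have h5 := Submodule.finrank_mono h3
      have h6 := finrank_span_finset_le_card (R := K i) (X i)
      have h7 := hXc i
      have h8 : Module.finrank (K i) (span (K i) (X i : Set A)) ≤ (X i).card := h6
      omega
    rw [Fintype.not_linearIndependent_iff] at h1
    obtain ⟨g, hg, l, hl⟩ := h1
    refine ⟨fun l => (g l : A), fun l => (g l).2, fun h0 => ?_, hg⟩
    exact hl (Subtype.ext (congrFun h0 l))
  choose a ha1 ha2 ha3 using hrel
  have h1 := rado K E hKE hd N z hzli Finset.univ ⟨⟨0, hr⟩, Finset.mem_univ _⟩ a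
    (fun i _ l => ha1 i l) (fun i _ => ha2 i) (fun i _ => ha3 i)
  rw [Finset.card_univ, Fintype.card_fin] at h1
  omega

end Pool.Agent.Run7.h123.LC
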