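import Mathlib
import Pool.Agent.Run7.h123.LC.LinD
import Pool.Agent.Run7.h123.LC.LinR
import Pool.Agent.Run7.h123.LC.LinL
import Pool.Agent.TH796.AL.Alg4

set_option autoImplicit false

/-!
# Transfer of finite dimensionality
-/

namespace Pool.Agent.Run7.h123.LC

open Filter Topology
open Pool.Agent.TH932.Abs Pool.Agent.TH932.Germs Pool.Agent.TH932.Chi
open Pool.Agent.TH796.AL Pool.Agent.TH932.Words Pool.Agent.TH796.AL.Strong
open Pool.Agent.TH796.AL.Final Pool.Agent.TH796.AL.TwoB Pool.Agent.TH796.AL.Grp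
open Pool.Agent.TH796.AL.Nv Pool.Agent.TH796.AL.Ai Pool.Agent.TH796.AL.Lin
open Pool.Agent.TH796.AL.AlgA Pool.Agent.TH796.AL.Alg

variable {m : ℕ} {B : Base m} {L : ℕ → ℝ} {hL : Tendsto L atTop atTop}

lemma span_image [DecidableEq (FF hL)] {V : Submodule ℝ (Fin m → ℝ)} {Y X : Finset ℝ}
    (h : (Y : Set ℝ) ⊆ Submodule.span (FV B hL V) (X : Set ℝ)) :
    kst hL '' (Y : Set ℝ) ⊆
      Submodule.span (IntermediateField.adjoin (kk (RG hL B) (FF hL)) (UF B hL V : Set (FF hL)))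
          ((X.image (kst hL) : Finset (FF hL)) : Set (FF hL)) := by
  rintro _ ⟨x, hx, rfl⟩
  obtain ⟨f, hf⟩ := Submodule.mem_span_finset'.1 (h hx)
  rw [← hf, map_sum]
  refine sum_mem fun a _ => ?_
  have e1 : f a • (a : ℝ) = (f a : ℝ) * a := rfl
  rw [e1, map_mul]
  have h3 : kst hL (f a : ℝ) ∈ IntermediateField.adjoin (kk (RG hL B) (FF hL))
      (UF B hL V : Set (FF hL)) :=
    IntermediateField.subset_adjoin _ _ ⟨_, (f a).2, rfl⟩
  have e2 : kst hL (f a : ℝ) * kst hL (a : ℝ) = (⟨_, h3⟩ : IntermediateField.adjoin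
      (kk (RG hL B) (FF hL)) (UF B hL V : Set (FF hL))) • kst hL (a : ℝ) := rfl
  rw [e2]
  refine Submodule.smul_mem _ _ (Submodule.subset_span ?_)
  rw [Finset.coe_image]
  exact ⟨a, a.2, rfl⟩

/-- **Transfer, two fields.** -/
theorem transfer {V W : Submodule ℝ (Fin m → ℝ)} (hVW : Disjoint V W) (Y X₁ X₂ : Finset ℝ)
    (s₁ : (Y : Set ℝ) ⊆ Submodule.span (FV B hL V) (X₁ : Set ℝ))
    (s₂ : (Y : Set ℝ) ⊆ Submodule.span (FV B hL W) (X₂ : Set ℝ)) :
    ∃ Z : Finset (FF hL), (Z : Set (FF hL)) ⊆ kst hL '' (Y : Set ℝ) ∧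
      Z.card ≤ X₁.card * X₂.card ∧
      kst hL '' (Y : Set ℝ) ⊆ Submodule.span (kk (RG hL B) (FF hL)) (Z : Set (FF hL)) := by
  classical
  obtain ⟨Z, hZ1, hZ2, hZ3⟩ := finP
    (disj_of_LD (R := RG hL B) (A := FF hL) (phi_injective hL B) (ld (B := B) (hL := hL) hVW))
    (X₁.image (kst hL)) (X₂.image (kst hL)) (span_image s₁) (span_image s₂)
  exact ⟨Z, hZ1, hZ2.trans (Nat.mul_le_mul Finset.card_image_le Finset.card_image_le), hZ3⟩

/-- **Transfer, several fields.** -/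
theorem transfer_many (r : ℕ) (hr : 2 ≤ r) (V : ℕ → Submodule ℝ (Fin m → ℝ))
    (hV : ∀ j < r, Disjoint (V j) (⨆ i : ℕ, ⨆ (_ : i < j), V i)) (Y : Finset ℝ)
    (X : ℕ → Finset ℝ)
    (s : ∀ j < r, (Y : Set ℝ) ⊆ Submodule.span (FV B hL (V j)) (X j : Set ℝ)) :
    ∃ Z : Finset (FF hL), (Z : Set (FF hL)) ⊆ kst hL '' (Y : Set ℝ) ∧
      Z.card ^ (r - 1) ≤ r ^ (r - 1) * ∏ j ∈ Finset.range r, (X j).card ∧
      kst hL '' (Y : Set ℝ) ⊆ Submodule.span (kk (RG hL B) (FF hL)) (Z : Set (FF hL)) := by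
  classical
  obtain ⟨Z, hZ1, hZ2, hZ3⟩ := finR (k := kk (RG hL B) (FF hL)) (A := FF hL) r hr
    (fun j => IntermediateField.adjoin (kk (RG hL B) (FF hL)) (UF B hL (V j) : Set (FF hL)))
    (fun j => IntermediateField.adjoin (kk (RG hL B) (FF hL))
      (UF B hL (⨆ i : ℕ, ⨆ (_ : i < j), V i) : Set (FF hL)))
    (fun j _ => IntermediateField.adjoin.mono _ _ _
      (UF_mono (le_iSup₂_of_le j (Nat.lt_succ_self j) le_rfl)))
    (fun j _ => IntermediateField.adjoin.mono _ _ _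
      (UF_mono (iSup₂_le fun i hi => le_iSup₂_of_le i (by omega) le_rfl)))
    (fun j hj _ => disj_of_LD (R := RG hL B) (A := FF hL) (phi_injective hL B)
      (ld (B := B) (hL := hL) (hV j hj)))
    (fun j => (X j).image (kst hL)) (fun j hj => span_image (s j hj))
  exact ⟨Z, hZ1, hZ2.trans (Nat.mul_le_mul_left _
    (Finset.prod_le_prod' fun j _ => Finset.card_image_le)), hZ3⟩

/-- **Transfer, small spaces over many fields.** -/
theorem transfer_rank {r : ℕ} (hr : 0 < r) {V : Fin r → Submodule ℝ (Fin m → ℝ)}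
    (hV : iSupIndep V) {N : ℕ} (hN : N ≤ r) (Y : Finset ℝ) (X : Fin r → Finset ℝ)
    (hX : ∀ i, (X i).card < N)
    (s : ∀ i, (Y : Set ℝ) ⊆ Submodule.span (FV B hL (V i)) (X i : Set ℝ)) :
    ∃ Z : Finset (FF hL), (Z : Set (FF hL)) ⊆ kst hL '' (Y : Set ℝ) ∧ Z.card < N ∧
      kst hL '' (Y : Set ℝ) ⊆ Submodule.span (kk (RG hL B) (FF hL)) (Z : Set (FF hL)) := by
  classical
  refine finL (k := kk (RG hL B) (FF hL)) (A := FF hL)
    (fun i => IntermediateField.adjoin (kk (RG hL B) (FF hL)) (UF B hL (V i) : Set (FF hL)))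
    (fun i => IntermediateField.adjoin (kk (RG hL B) (FF hL))
      (UF B hL (⨆ j, ⨆ (_ : j ≠ i), V j) : Set (FF hL)))
    (fun i j hij => IntermediateField.adjoin.mono _ _ _ (UF_mono (le_iSup₂_of_le j hij le_rfl)))
    (fun i => disj_of_LD (R := RG hL B) (A := FF hL) (phi_injective hL B)
      (ld (B := B) (hL := hL) (hV i).symm)) hr hN
    (fun i => (X i).image (kst hL)) (fun i => Finset.card_image_le.trans_lt (hX i))
    (fun i => span_image (s i))

end Pool.Agent.Run7.h123.LC
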