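import Mathlib
import Pool.Agent.Run7.h123.LC.LinU
import Pool.Agent.TH818.SA.Sub

set_option autoImplicit false

/-!
# Simultaneous approximation of numbers which span a space of finite dimension over the germs
-/

namespace Pool.Agent.Run7.h123.LC

open Filter Topology
open Pool.Agent.TH932.Abs Pool.Agent.TH932.Germs Pool.Agent.TH932.Chi
open Pool.Agent.TH796.AL Pool.Agent.TH932.Words Pool.Agent.TH796.AL.Strong
open Pool.Agent.TH796.AL.Final Pool.Agent.TH796.AL.TwoB Pool.Agent.TH796.AL.Grp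
open Pool.Agent.TH796.AL.Nv Pool.Agent.TH796.AL.Ai Pool.Agent.TH796.AL.Lin
open Pool.Agent.TH796.AL.AlgA Pool.Agent.TH796.AL.Alg

variable {m : ℕ} {B : Base m} {L : ℕ → ℝ} {hL : Tendsto L atTop atTop}

lemma rel_clear {R A : Type} [CommRing R] [Field A] [Algebra R A] {D : ℕ} {w : Fin D → A} {z : A}
    (h : z ∈ Submodule.span (kk R A) (Set.range w)) : ∃ v : Fin (D + 1) → R, v 0 ≠ 0 ∧
      ∑ j, algebraMap R A (v j) * (Fin.cons z w : Fin (D + 1) → A) j = 0 := by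
  obtain ⟨r, hr⟩ := Submodule.mem_span_range_iff_exists_fun _ |>.1 h
  obtain ⟨b, a, hb, ha⟩ := kk_common r
  refine ⟨Fin.cons b (fun j => -a j), ?_, ?_⟩
  · rw [Fin.cons_zero]
    rintro rfl
    exact hb (map_zero _)
  · rw [Fin.sum_univ_succ]
    simp only [Fin.cons_zero, Fin.cons_succ]
    have e0 : z = ∑ j, (r j : A) * w j := hr.symm
    have e1 : algebraMap R A b * z = ∑ j, algebraMap R A (a j) * w j := by
      rw [e0, Finset.mul_sum]
      refine Finset.sum_congr rfl fun j _ => ?_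
      rw [← ha j]
      ring
    rw [e1, ← Finset.sum_add_distrib]
    refine Finset.sum_eq_zero fun j _ => ?_
    rw [map_neg]
    ring

/-- a relation over the germs -/
lemma rel_one {D : ℕ} (v : Fin D → ℝ) {x : ℝ}
    (h : kst hL x ∈ Submodule.span (kk (RG hL B) (FF hL)) (Set.range fun j => kst hL (v j))) :
    ∃ (H : ℝ) (c₀ : ℕ → ℤ) (c : Fin D → ℕ → ℤ), (∀ᶠ n in (UU : Filter ℕ), c₀ n ≠ 0) ∧
      (∀ᶠ n in (UU : Filter ℕ), |(c₀ n : ℝ)| ≤ Real.exp (H * L n)) ∧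
      (∀ᶠ n in (UU : Filter ℕ), ∀ j, |(c j n : ℝ)| ≤ Real.exp (H * L n)) ∧
      ∀ E : ℝ, ∀ᶠ n in (UU : Filter ℕ),
        |(c₀ n : ℝ) * x - ∑ j, (c j n : ℝ) * v j| ≤ Real.exp (-(E * L n)) := by
  obtain ⟨u, hu0, hu⟩ := rel_clear h
  have hrel : ∑ j, phi hL B (u j) * kst hL ((Fin.cons x v : Fin (D + 1) → ℝ) j) = 0 := by
    rw [← hu]
    refine Finset.sum_congr rfl fun j _ => ?_
    refine Fin.cases ?_ (fun j => ?_) j
    · rfl
    · rfl
  obtain ⟨H, c, g1, g2, g3⟩ := clear u (Fin.cons x v : Fin (D + 1) → ℝ) 0 hu0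
    ((rel_zero_iff hL B _ _).1 hrel)
  refine ⟨H, c 0, fun j n => -(c j.succ n), g1, g2 0, ?_, fun E => ?_⟩
  · rw [Filter.eventually_all]
    intro j
    filter_upwards [g2 j.succ] with n hn
    push_cast
    rw [abs_neg]
    exact hn
  · filter_upwards [g3 E] with n hn
    have e1 : (c 0 n : ℝ) * x - ∑ j, ((-(c (Fin.succ j) n) : ℤ) : ℝ) * v j =
        ∑ j, (c j n : ℝ) * (Fin.cons x v : Fin (D + 1) → ℝ) j := by
      rw [Fin.sum_univ_succ]
      simp only [Fin.cons_zero, Fin.cons_succ]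
      push_cast
      rw [sub_eq_add_neg, ← Finset.sum_neg_distrib]
      congr 1
      exact Finset.sum_congr rfl fun j _ => by ring
    rw [e1]
    exact hn

/-- simultaneous approximate relations with a common first coefficient -/
lemma approx {D : ℕ} (v : Fin D → ℝ) {ι : Type} [Fintype ι] (x : ι → ℝ)
    (h : ∀ i, kst hL (x i) ∈
      Submodule.span (kk (RG hL B) (FF hL)) (Set.range fun j => kst hL (v j))) (κ M0 : ℕ) :
    ∃ M : ℕ, M0 < M ∧ 1 ≤ M ∧ ∀ i, ∃ p : Fin D → ℤ, (∀ j, |(p j : ℝ)| ≤ (M : ℝ) ^ 2) ∧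
      |(M : ℝ) * x i - ∑ j, (p j : ℝ) * v j| < 1 / (M : ℝ) ^ κ := by
  classical
  choose Hi c₀ c h1 h2 h3 h4 using fun i => rel_one v (h i)
  obtain ⟨H, hH⟩ : ∃ H : ℝ, H = ∑ i, |Hi i| + 1 := ⟨_, rfl⟩
  have hHi : ∀ i, Hi i ≤ H := fun i => by
    have := Finset.single_le_sum (f := fun i => |Hi i|) (fun _ _ => abs_nonneg _)
      (Finset.mem_univ i)
    have h5 := le_abs_self (Hi i)
    rw [hH]
    linarith
  have hH1 : 1 ≤ H := by
    have : 0 ≤ ∑ i, |Hi i| := Finset.sum_nonneg fun _ _ => abs_nonneg _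
    linarith
  obtain ⟨T, hT⟩ : ∃ T : ℕ, T = Fintype.card ι := ⟨_, rfl⟩
  obtain ⟨P, hP⟩ : ∃ P : ℝ, P = H * (T + 1) := ⟨_, rfl⟩
  have hP1 : 1 ≤ P := by
    rw [hP]
    have : (0 : ℝ) ≤ T := Nat.cast_nonneg _
    nlinarith
  obtain ⟨n, ⟨f1, f2, f3⟩, f4, f5⟩ := ((((Filter.eventually_all.2 h1).and
    ((Filter.eventually_all.2 h2).and (Filter.eventually_all.2 h3))).and
    ((Filter.eventually_all.2 fun i => h4 i (P * (2 * κ + 2) + κ + 2)).and
    (ev_of_atTop (hL.eventually_ge_atTop ((M0 : ℝ) + 1)))))).exists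
  obtain ⟨l, hl⟩ : ∃ l : ℝ, l = L n := ⟨_, rfl⟩
  rw [← hl] at f2 f3 f4 f5
  have hl1 : 1 ≤ l := by
    have : (0 : ℝ) ≤ M0 := Nat.cast_nonneg _
    linarith
  obtain ⟨Z, hZ⟩ : ∃ Z : ℝ, Z = Real.exp (H * l) := ⟨_, rfl⟩
  have hZ1 : 1 ≤ Z := by
    rw [hZ]
    exact Real.one_le_exp (by nlinarith)
  have hexp : ∀ i, Real.exp (Hi i * l) ≤ Z := fun i => by
    rw [hZ]
    exact Real.exp_le_exp.2 (mul_le_mul_of_nonneg_right (hHi i) (by linarith))
  obtain ⟨Y, hY⟩ : ∃ Y : ℝ, Y = Real.exp (P * l) := ⟨_, rfl⟩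
  have hYZ : Y = Z ^ (T + 1) := by
    rw [hY, hZ, hP, ← Real.exp_nat_mul]
    congr 1
    push_cast
    ring
  have hY1 : 1 ≤ Y := by
    rw [hYZ]
    exact one_le_pow₀ hZ1
  obtain ⟨q, hq⟩ : ∃ q : ℕ, q = ∏ i, (c₀ i n).natAbs := ⟨_, rfl⟩
  have hq1 : 1 ≤ q := by
    rw [hq]
    exact Finset.prod_pos fun i _ => Int.natAbs_pos.2 (f1 i)
  have hqY : (q : ℝ) ≤ Y := by
    rw [hq, hYZ]
    push_cast
    calc ∏ i, ((c₀ i n).natAbs : ℝ) ≤ ∏ _i : ι, Z := Finset.prod_le_prod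
          (fun i _ => Nat.cast_nonneg _) (fun i _ => by
            rw [Nat.cast_natAbs, Int.cast_abs]
            exact (f2 i).trans (hexp i))
      _ = Z ^ T := by rw [Finset.prod_const, Finset.card_univ, hT]
      _ ≤ Z ^ (T + 1) := pow_le_pow_right₀ hZ1 (Nat.le_succ T)
  obtain ⟨s, hs⟩ : ∃ s : ι → ℤ, s = fun i => (∏ j ∈ Finset.univ.erase i, ((c₀ j n).natAbs : ℤ)) *
    (c₀ i n).sign := ⟨_, rfl⟩
  have hsq : ∀ i, s i * c₀ i n = q := by
    intro i
    rw [hs, hq]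
    simp only
    rw [mul_assoc, Int.sign_mul_self_eq_natAbs, Finset.prod_erase_mul _ _ (Finset.mem_univ i)]
    push_cast
    rfl
  have hsY : ∀ i, |(s i : ℝ)| * Z ≤ Y := by
    intro i
    have e1 : |(s i : ℝ)| ≤ Z ^ T := by
      rw [hs]
      simp only
      push_cast
      rw [abs_mul, Finset.abs_prod]
      have e2 : |((c₀ i n).sign : ℝ)| ≤ 1 := by
        have h5 : |(c₀ i n).sign| = 1 := by
          rw [Int.abs_sign_of_ne_zero (f1 i)]
        have h6 : |((c₀ i n).sign : ℝ)| = ((|(c₀ i n).sign| : ℤ) : ℝ) := by push_cast; rfl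
        rw [h6, h5]
        norm_num
      have e3 : ∏ j ∈ Finset.univ.erase i, |(|(c₀ j n : ℝ)|)| ≤ Z ^ T := by
        calc ∏ j ∈ Finset.univ.erase i, |(|(c₀ j n : ℝ)|)|
            ≤ ∏ _j ∈ Finset.univ.erase i, Z := Finset.prod_le_prod
              (fun j _ => abs_nonneg _) (fun j _ => by
                rw [abs_abs]
                exact (f2 j).trans (hexp j))
          _ = Z ^ (T - 1) := by
              rw [Finset.prod_const, Finset.card_erase_of_mem (Finset.mem_univ i),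
                Finset.card_univ, hT]
          _ ≤ Z ^ T := pow_le_pow_right₀ hZ1 (Nat.sub_le _ _)
      calc (∏ j ∈ Finset.univ.erase i, |(|(c₀ j n : ℝ)|)|) * |((c₀ i n).sign : ℝ)|
          ≤ Z ^ T * 1 := mul_le_mul e3 e2 (abs_nonneg _) (by positivity)
        _ = Z ^ T := mul_one _
    calc |(s i : ℝ)| * Z ≤ Z ^ T * Z := mul_le_mul_of_nonneg_right e1 (by linarith)
      _ = Y := by rw [hYZ, pow_succ]
  obtain ⟨mm, hmm⟩ : ∃ mm : ℕ, mm = ⌈Y⌉₊ := ⟨_, rfl⟩
  have hmY : Y ≤ mm := by rw [hmm]; exact Nat.le_ceil Y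
  have hmY2 : (mm : ℝ) ≤ 2 * Y := by
    have := (Nat.ceil_lt_add_one (by linarith : 0 ≤ Y)).le
    rw [hmm]
    linarith
  have hmm1 : 1 ≤ mm := by
    have : (1 : ℝ) ≤ mm := hY1.trans hmY
    exact_mod_cast this
  have hqr : (1 : ℝ) ≤ q := by exact_mod_cast hq1
  have hmr : (1 : ℝ) ≤ mm := by exact_mod_cast hmm1
  have hM1 : 1 ≤ q * mm := Nat.mul_pos hq1 hmm1
  have hMm : (mm : ℝ) ≤ ((q * mm : ℕ) : ℝ) := by
    push_cast
    nlinarith
  refine ⟨q * mm, ?_, hM1, fun i => ⟨fun j => mm * (s i * c i j n), fun j => ?_, ?_⟩⟩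
  · have e1 : (M0 : ℝ) < ((q * mm : ℕ) : ℝ) := by
      have e2 : l ≤ Y := by
        rw [hY]
        have := Real.add_one_le_exp (P * l)
        nlinarith
      linarith
    exact_mod_cast e1
  · have e1 : |(s i : ℝ) * (c i j n : ℝ)| ≤ Y := by
      rw [abs_mul]
      refine le_trans ?_ (hsY i)
      exact mul_le_mul_of_nonneg_left ((f3 i j).trans (hexp i)) (abs_nonneg _)
    push_cast
    rw [abs_mul, Nat.abs_cast]
    calc (mm : ℝ) * |(s i : ℝ) * (c i j n : ℝ)| ≤ mm * mm :=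
          mul_le_mul_of_nonneg_left (e1.trans hmY) (by linarith)
      _ ≤ ((q : ℝ) * mm) ^ 2 := by
          rw [sq]
          have : (mm : ℝ) ≤ q * mm := by nlinarith
          exact mul_le_mul this this (by linarith) (by positivity)
  · have e1 : (((q * mm : ℕ)) : ℝ) * x i - ∑ j, ((mm * (s i * c i j n) : ℤ) : ℝ) * v j =
        mm * s i * ((c₀ i n : ℝ) * x i - ∑ j, (c i j n : ℝ) * v j) := by
      have e2 : (q : ℝ) = (s i : ℝ) * (c₀ i n : ℝ) := by
        have := hsq i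
        exact_mod_cast this.symm
      push_cast
      rw [e2, mul_sub, Finset.mul_sum]
      congr 1
      · ring
      · exact Finset.sum_congr rfl fun j _ => by ring
    rw [e1, abs_mul, abs_mul, Nat.abs_cast]
    have hs1 : |(s i : ℝ)| ≤ Y := by
      have := hsY i
      have h5 := abs_nonneg (s i : ℝ)
      nlinarith
    have e3 : (mm : ℝ) * |(s i : ℝ)| * |(c₀ i n : ℝ) * x i - ∑ j, (c i j n : ℝ) * v j| ≤
        2 * Y * Y * Real.exp (-((P * (2 * κ + 2) + κ + 2) * l)) := by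
      refine mul_le_mul (mul_le_mul hmY2 hs1 (abs_nonneg _) (by positivity)) (f4 i)
        (abs_nonneg _) (by positivity)
    refine e3.trans_lt ?_
    have hM0' : (0 : ℝ) < (((q * mm : ℕ)) : ℝ) := by exact_mod_cast hM1
    rw [lt_div_iff₀ (by positivity)]
    have e4 : (((q * mm : ℕ)) : ℝ) ^ κ ≤ (2 * Y ^ 2) ^ κ := by
      refine pow_le_pow_left₀ hM0'.le ?_ κ
      push_cast
      calc (q : ℝ) * mm ≤ Y * (2 * Y) := mul_le_mul hqY hmY2 (by linarith) (by linarith)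
        _ = 2 * Y ^ 2 := by ring
    have e5 : Real.exp (-((P * (2 * κ + 2) + κ + 2) * l)) * Y ^ (2 * κ + 2) =
        Real.exp (-((κ + 2) * l)) := by
      rw [hY, ← Real.exp_nat_mul, ← Real.exp_add]
      congr 1
      push_cast
      ring
    calc 2 * Y * Y * Real.exp (-((P * (2 * κ + 2) + κ + 2) * l)) * (((q * mm : ℕ)) : ℝ) ^ κ
        ≤ 2 * Y * Y * Real.exp (-((P * (2 * κ + 2) + κ + 2) * l)) * (2 * Y ^ 2) ^ κ := by
          gcongr
      _ = 2 ^ (κ + 1) * (Real.exp (-((P * (2 * κ + 2) + κ + 2) * l)) * Y ^ (2 * κ + 2)) := by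
          rw [mul_pow, ← pow_mul]
          ring
      _ = 2 ^ (κ + 1) * Real.exp (-((κ + 2) * l)) := by rw [e5]
      _ ≤ 2 ^ (κ + 1) * Real.exp (-((κ + 2) : ℝ)) := by
          gcongr
          have : (0 : ℝ) ≤ κ := Nat.cast_nonneg _
          nlinarith
      _ < 1 := by
          have h5 : (2 : ℝ) < Real.exp 1 := by
            have := Real.exp_one_gt_d9
            linarith
          have h6 : Real.exp (-((κ + 2) : ℝ)) = (Real.exp 1 ^ (κ + 2))⁻¹ := by
            rw [← Real.exp_nat_mul, ← Real.exp_neg]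
            congr 1
            push_cast
            ring
          rw [h6, ← div_eq_mul_inv, div_lt_one (by positivity)]
          calc (2 : ℝ) ^ (κ + 1) ≤ 2 ^ (κ + 2) := pow_le_pow_right₀ (by norm_num) (by omega)
            _ < Real.exp 1 ^ (κ + 2) := pow_lt_pow_left₀ h5 (by norm_num) (by omega)

end Pool.Agent.Run7.h123.LC
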