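import Mathlib
import Pool.Agent.Run7.h123.LC.LinZ

set_option autoImplicit false

/-!
# Odd zeta values and finite dimensional spaces over the fields of low complexity
-/

namespace Pool.Agent.Run7.h123.LC

open Filter Topology
open Pool.Agent.TH932.Abs Pool.Agent.TH932.Germs Pool.Agent.TH932.Chi
open Pool.Agent.TH796.AL Pool.Agent.TH932.Words Pool.Agent.TH796.AL.Strong
open Pool.Agent.TH796.AL.Final Pool.Agent.TH796.AL.TwoB Pool.Agent.TH796.AL.Grp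
open Pool.Agent.TH796.AL.Nv Pool.Agent.TH796.AL.Ai Pool.Agent.TH796.AL.Lin
open Pool.Agent.TH796.AL.AlgA Pool.Agent.TH796.AL.Alg

/-- from relations with a common coefficient to simultaneous approximations -/
theorem sim_of_approx (D : ℕ) (v : Fin D → ℝ) {ι : Type} (x : ι → ℝ)
    (h : ∀ κ M0 : ℕ, ∃ M : ℕ, M0 < M ∧ 1 ≤ M ∧ ∀ i, ∃ p : Fin D → ℤ,
      (∀ j, |(p j : ℝ)| ≤ (M : ℝ) ^ 2) ∧
      |(M : ℝ) * x i - ∑ j, (p j : ℝ) * v j| < 1 / (M : ℝ) ^ κ) (q0 : ℕ) :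
    ∃ q : ℕ, q0 ≤ q ∧ ∀ i, ∃ p : ℤ,
      |(q : ℝ) * x i - p| < (q : ℝ) ^ (-(1 / ((D : ℝ) + 1))) := by
  classical
  obtain ⟨a, ha⟩ : ∃ a : ℕ, a = 2 * D + 5 := ⟨_, rfl⟩
  obtain ⟨κ, hκ⟩ : ∃ κ : ℕ, κ = a * D + 2 * D + 3 := ⟨_, rfl⟩
  obtain ⟨M, hM1, hM2, hM3⟩ := h κ (q0 + (D + 1) ^ (D + 1) + 1)
  have hMD : (D + 1) ^ (D + 1) < M := by omega
  have hMr : (1 : ℝ) ≤ M := by exact_mod_cast hM2
  have hM0 : (0 : ℝ) < M := by linarith
  obtain ⟨t, ht1, ht2, ht3⟩ := Pool.Agent.TH818.SA.dirichlet_sim D v (M ^ a)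
    (Nat.one_le_pow _ _ hM2)
  choose P hP using ht3
  refine ⟨M * t, ?_, fun i => ?_⟩
  · calc q0 ≤ M * 1 := by omega
      _ ≤ M * t := Nat.mul_le_mul_left M ht1
  obtain ⟨p, hp1, hp2⟩ := hM3 i
  refine ⟨∑ j, p j * P j, ?_⟩
  have e1 : ((M * t : ℕ) : ℝ) * x i - ((∑ j, p j * P j : ℤ) : ℝ) =
      t * ((M : ℝ) * x i - ∑ j, (p j : ℝ) * v j) +
        ∑ j, (p j : ℝ) * ((t : ℝ) * v j - P j) := by
    push_cast
    simp only [mul_sub, Finset.sum_sub_distrib, Finset.mul_sum]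
    have : ∑ j, (t : ℝ) * ((p j : ℝ) * v j) = ∑ j, (p j : ℝ) * ((t : ℝ) * v j) :=
      Finset.sum_congr rfl fun _ _ => by ring
    rw [this]
    ring
  have htr : (1 : ℝ) ≤ t := by exact_mod_cast ht1
  have htr2 : (t : ℝ) ≤ (M : ℝ) ^ (a * D) := by
    have : (t : ℝ) ≤ (((M ^ a) ^ D : ℕ) : ℝ) := by exact_mod_cast ht2
    rw [← pow_mul] at this
    exact_mod_cast this
  have e2 : |((M * t : ℕ) : ℝ) * x i - ((∑ j, p j * P j : ℤ) : ℝ)| <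
      ((D : ℝ) + 1) / (M : ℝ) ^ (2 * D + 3) := by
    rw [e1]
    have f1 : |(t : ℝ) * ((M : ℝ) * x i - ∑ j, (p j : ℝ) * v j)| <
        1 / (M : ℝ) ^ (2 * D + 3) := by
      rw [abs_mul, Nat.abs_cast]
      calc (t : ℝ) * |(M : ℝ) * x i - ∑ j, (p j : ℝ) * v j|
          < t * (1 / (M : ℝ) ^ κ) := mul_lt_mul_of_pos_left hp2 (by linarith)
        _ ≤ (M : ℝ) ^ (a * D) * (1 / (M : ℝ) ^ κ) :=
            mul_le_mul_of_nonneg_right htr2 (by positivity)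
        _ = 1 / (M : ℝ) ^ (2 * D + 3) := by
            rw [hκ, add_assoc, pow_add]
            field_simp
    have f2 : |∑ j, (p j : ℝ) * ((t : ℝ) * v j - P j)| ≤ D * (1 / (M : ℝ) ^ (2 * D + 3)) := by
      refine (Finset.abs_sum_le_sum_abs _ _).trans ?_
      have f3 : ∀ j ∈ (Finset.univ : Finset (Fin D)), |(p j : ℝ) * ((t : ℝ) * v j - P j)| ≤
          1 / (M : ℝ) ^ (2 * D + 3) := by
        intro j _
        rw [abs_mul]
        calc |(p j : ℝ)| * |(t : ℝ) * v j - P j|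
            ≤ (M : ℝ) ^ 2 * (1 / ((M ^ a : ℕ) : ℝ)) :=
              mul_le_mul (hp1 j) (hP j).le (abs_nonneg _) (by positivity)
          _ = 1 / (M : ℝ) ^ (2 * D + 3) := by
              rw [ha, show 2 * D + 5 = (2 * D + 3) + 2 by ring, pow_add]
              push_cast
              rw [pow_add]
              field_simp
      refine (Finset.sum_le_card_nsmul _ _ _ f3).trans (le_of_eq ?_)
      rw [Finset.card_univ, Fintype.card_fin, nsmul_eq_mul]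
    calc |(t : ℝ) * ((M : ℝ) * x i - ∑ j, (p j : ℝ) * v j) +
          ∑ j, (p j : ℝ) * ((t : ℝ) * v j - P j)|
        ≤ |(t : ℝ) * ((M : ℝ) * x i - ∑ j, (p j : ℝ) * v j)| +
          |∑ j, (p j : ℝ) * ((t : ℝ) * v j - P j)| := abs_add_le _ _
      _ < 1 / (M : ℝ) ^ (2 * D + 3) + D * (1 / (M : ℝ) ^ (2 * D + 3)) := add_lt_add_of_lt_of_le f1 f2
      _ = _ := by ring
  refine e2.trans ?_
  have hMt : (0 : ℝ) < ((M * t : ℕ) : ℝ) := by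
    have : 0 < M * t := Nat.mul_pos (by omega) (by omega)
    exact_mod_cast this
  have e3 : (((D : ℝ) + 1) / (M : ℝ) ^ (2 * D + 3)) ^ (D + 1) < (((M * t : ℕ) : ℝ))⁻¹ := by
    have f1 : ((M * t : ℕ) : ℝ) ≤ (M : ℝ) ^ (1 + a * D) := by
      push_cast
      rw [pow_add, pow_one]
      exact mul_le_mul_of_nonneg_left htr2 hM0.le
    have f2 : ((D : ℝ) + 1) ^ (D + 1) < M := by exact_mod_cast hMD
    rw [div_pow, div_lt_iff₀ (by positivity), ← div_eq_inv_mul, lt_div_iff₀ hMt]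
    calc ((D : ℝ) + 1) ^ (D + 1) * ((M * t : ℕ) : ℝ)
        ≤ ((D : ℝ) + 1) ^ (D + 1) * (M : ℝ) ^ (1 + a * D) :=
          mul_le_mul_of_nonneg_left f1 (by positivity)
      _ < M * (M : ℝ) ^ (1 + a * D) := mul_lt_mul_of_pos_right f2 (by positivity)
      _ = (M : ℝ) ^ (2 + a * D) := by ring
      _ ≤ ((M : ℝ) ^ (2 * D + 3)) ^ (D + 1) := by
          rw [← pow_mul]
          refine pow_le_pow_right₀ hMr ?_
          rw [ha]
          nlinarith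
  obtain ⟨B, hB⟩ : ∃ B : ℝ, B = ((D : ℝ) + 1) / (M : ℝ) ^ (2 * D + 3) := ⟨_, rfl⟩
  have hB0 : 0 ≤ B := by rw [hB]; positivity
  rw [← hB] at e3 ⊢
  have e4 : B = (B ^ (D + 1)) ^ (1 / ((D : ℝ) + 1)) := by
    rw [← Real.rpow_natCast, ← Real.rpow_mul hB0]
    push_cast
    rw [mul_one_div_cancel (by positivity), Real.rpow_one]
  rw [e4]
  have e5 : ((M * t : ℕ) : ℝ) ^ (-(1 / ((D : ℝ) + 1))) =
      (((M * t : ℕ) : ℝ)⁻¹) ^ (1 / ((D : ℝ) + 1)) := by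
    rw [Real.rpow_neg hMt.le, Real.inv_rpow hMt.le]
  rw [e5]
  exact Real.rpow_lt_rpow (by positivity) e3 (by positivity)

/-- the numbers in `W` have simultaneous approximations with exponent `1 / D` -/
def Sim (D : ℕ) (W : Set ℝ) : Prop :=
  ∀ Y : Finset ℝ, (Y : Set ℝ) ⊆ W → ∀ q0 : ℕ, ∃ q : ℕ, q0 ≤ q ∧ ∀ y ∈ Y, ∃ p : ℤ,
    |(q : ℝ) * y - p| < (q : ℝ) ^ (-(1 / (D : ℝ)))

/-- a finite spanning set -/
lemma finite_span {F : Subfield ℝ} {W : Submodule F ℝ} (hW : FiniteDimensional F W) :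
    ∃ X₁ : Finset ℝ, X₁.card = Module.finrank F W ∧
      (W : Set ℝ) ⊆ Submodule.span F (X₁ : Set ℝ) := by
  have h1 : Submodule.span F (W : Set ℝ) = W := Submodule.span_eq W
  have h2 : Module.Finite F (Submodule.span F (W : Set ℝ)) := by rw [h1]; exact hW
  obtain ⟨G, -, hG2, hG3, -⟩ := Submodule.exists_finset_span_eq_linearIndepOn F (W : Set ℝ)
  refine ⟨G, ?_, ?_⟩
  · rw [hG2, h1]
  · rw [hG3]
    exact Submodule.subset_span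

/-- coefficients -/
lemma coeffs {F : Subfield ℝ} {X₁ Y : Finset ℝ} (h : (Y : Set ℝ) ⊆ Submodule.span F (X₁ : Set ℝ)) :
    ∃ f : Y × X₁ → ℝ, (∀ i, f i ∈ F) ∧ ∀ F' : Subfield ℝ, (∀ i, f i ∈ F') →
      (Y : Set ℝ) ⊆ Submodule.span F' (X₁ : Set ℝ) := by
  choose! f hf using fun y (hy : y ∈ Submodule.span F (X₁ : Set ℝ)) =>
    Submodule.mem_span_finset'.1 hy
  refine ⟨fun i => (f i.1 i.2 : ℝ), fun i => (f i.1 i.2).2, fun F' hF' y hy => ?_⟩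
  have h1 := hf y (h hy)
  have h2 : ∑ a : X₁, (⟨(f y a : ℝ), hF' (⟨y, hy⟩, a)⟩ : F') • (a : ℝ) = y := h1
  rw [← h2]
  exact sum_mem fun a _ => Submodule.smul_mem _ _ (Submodule.subset_span a.2)

/-- approximations from a small spanning subset -/
lemma sim_of_span {m : ℕ} {B : Base m} {L : ℕ → ℝ} {hL : Tendsto L atTop atTop} {D : ℕ}
    {Y : Finset ℝ} {Z : Finset (FF hL)} (hZ1 : (Z : Set (FF hL)) ⊆ kst hL '' (Y : Set ℝ))
    (hZc : Z.card < D)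
    (hZ2 : kst hL '' (Y : Set ℝ) ⊆ Submodule.span (kk (RG hL B) (FF hL)) (Z : Set (FF hL)))
    (q0 : ℕ) : ∃ q : ℕ, q0 ≤ q ∧ ∀ y ∈ Y, ∃ p : ℤ,
      |(q : ℝ) * y - p| < (q : ℝ) ^ (-(1 / (D : ℝ))) := by
  classical
  choose! g hg hgz using fun z (hz : z ∈ kst hL '' (Y : Set ℝ)) => hz
  set e := Z.equivFin with he
  have h4 : (Z : Set (FF hL)) ⊆ Set.range fun j : Fin Z.card => kst hL (g (e.symm j)) := by
    intro z hz
    refine ⟨e ⟨z, hz⟩, ?_⟩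
    simp only [Equiv.symm_apply_apply]
    exact hgz z (hZ1 hz)
  obtain ⟨q, hq, hq2⟩ := sim_of_approx Z.card (fun j => g (e.symm j)) (ι := Y) (fun y => (y : ℝ))
    (fun κ M0 => approx _ (fun y : Y => (y : ℝ)) (fun y =>
      Submodule.span_mono h4 (hZ2 ⟨(y : ℝ), y.2, rfl⟩)) κ M0) (max q0 1)
  refine ⟨q, (le_max_left _ _).trans hq, fun y hy => ?_⟩
  obtain ⟨p, hp⟩ := hq2 ⟨y, hy⟩
  refine ⟨p, hp.trans_le ?_⟩
  have hq1 : (1 : ℝ) ≤ q := by exact_mod_cast (le_max_right q0 1).trans hq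
  refine Real.rpow_le_rpow_of_exponent_le hq1 ?_
  have h5 : ((Z.card : ℝ)) + 1 ≤ (D : ℝ) := by exact_mod_cast hZc
  exact neg_le_neg (one_div_le_one_div_of_le (by positivity) h5)

/-- **Finite dimensional spaces over two fields of low complexity.** -/
theorem two_spaces {S : Set ℕ} (hS : S.Infinite) {Γ Δ : Subgroup ℚˣ} (hd : Γ ⊓ Δ = ⊥)
    {F₁ F₂ : Subfield ℝ} (hF₁ : F₁ ≤ Fl S Γ) (hF₂ : F₂ ≤ Fl S Δ) {W₁ : Submodule F₁ ℝ}
    {W₂ : Submodule F₂ ℝ} (hW₁ : FiniteDimensional F₁ W₁) (hW₂ : FiniteDimensional F₂ W₂) {D : ℕ}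
    (hD : Module.finrank F₁ W₁ * Module.finrank F₂ W₂ < D) :
    Sim D {x | x ∈ W₁ ∧ x ∈ W₂} := by
  classical
  intro Y hY q0
  obtain ⟨X₁, a1, a2⟩ := finite_span hW₁
  obtain ⟨X₂, b1, b2⟩ := finite_span hW₂
  obtain ⟨f₁, hf₁, hs₁⟩ := coeffs (Y := Y) (fun y hy => a2 (hY hy).1)
  obtain ⟨f₂, hf₂, hs₂⟩ := coeffs (Y := Y) (fun y hy => b2 (hY hy).2)
  obtain ⟨m, B, L, hL, h⟩ := ifield (ι := (Y × X₁) ⊕ (Y × X₂)) (Sum.elim (fun _ => Γ) fun _ => Δ) hS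
    (Sum.elim f₁ f₂) (by
      rintro (i | i)
      · exact hF₁ (hf₁ i)
      · exact hF₂ (hf₂ i))
  obtain ⟨Z, hZ1, hZc, hZ2⟩ := transfer (B := B) (hL := hL) (Pool.Agent.TH796.AL.Grp.disj B hd)
    Y X₁ X₂ (hs₁ (FV B hL (VS B Γ)) fun i => h (Sum.inl i))
    (hs₂ (FV B hL (VS B Δ)) fun i => h (Sum.inr i))
  rw [a1, b1] at hZc
  exact sim_of_span hZ1 (by omega) hZ2 q0

/-- simultaneous representation of the coefficients -/
lemma represent {S : Set ℕ} (hS : S.Infinite) {r : ℕ} {Γ : Fin r → Subgroup ℚˣ}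
    {F : Fin r → Subfield ℝ} (hF : ∀ i, F i ≤ Fl S (Γ i)) {W : ∀ i, Submodule (F i) ℝ}
    (hW : ∀ i, FiniteDimensional (F i) (W i)) (Y : Finset ℝ) (hY : ∀ i, (Y : Set ℝ) ⊆ W i) :
    ∃ (m : ℕ) (B : Base m) (L : ℕ → ℝ) (hL : Tendsto L atTop atTop) (X : Fin r → Finset ℝ),
      (∀ i, (X i).card = Module.finrank (F i) (W i)) ∧
      ∀ i, (Y : Set ℝ) ⊆ Submodule.span (FV B hL (VS B (Γ i))) (X i : Set ℝ) := by
  classical
  choose X hX1 hX2 using fun i => finite_span (hW i)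
  choose f hf hs using fun i => coeffs (F := F i) (X₁ := X i) (Y := Y) ((hY i).trans (hX2 i))
  obtain ⟨m, B, L, hL, h⟩ := ifield (ι := Σ i : Fin r, Y × X i) (fun k => Γ k.1) hS
    (fun k => f k.1 k.2) (fun k => hF k.1 (hf k.1 k.2))
  exact ⟨m, B, L, hL, X, hX1, fun i => hs i _ fun j => h ⟨i, j⟩⟩

/-- **Finite dimensional spaces over several fields of low complexity.** -/
theorem many_spaces {S : Set ℕ} (hS : S.Infinite) {r : ℕ} (hr : 2 ≤ r) {Γ : Fin r → Subgroup ℚˣ}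
    (hΓ : GIndep Γ) {F : Fin r → Subfield ℝ} (hF : ∀ i, F i ≤ Fl S (Γ i))
    {W : ∀ i, Submodule (F i) ℝ} (hW : ∀ i, FiniteDimensional (F i) (W i)) {D : ℕ}
    (hD : r ^ (r - 1) * ∏ i, Module.finrank (F i) (W i) < D ^ (r - 1)) :
    Sim D {x | ∀ i, x ∈ W i} := by
  classical
  intro Y hY q0
  obtain ⟨m, B, L, hL, X, hX1, hs⟩ := represent hS hF hW Y (fun i y hy => hY hy i)
  have hv := vindep B hΓ
  obtain ⟨Z, hZ1, hZc, hZ2⟩ := transfer_many (B := B) (hL := hL) r hr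
    (fun j => if h : j < r then VS B (Γ ⟨j, h⟩) else ⊥) (fun j hj => by
      simp only [dif_pos hj]
      refine (hv ⟨j, hj⟩).mono_right ?_
      refine iSup₂_le fun i hi => ?_
      rw [dif_pos (hi.trans hj)]
      refine le_iSup₂_of_le (⟨i, hi.trans hj⟩ : Fin r) ?_ le_rfl
      intro h0
      rw [Fin.mk.injEq] at h0
      omega)
    Y (fun j => if h : j < r then X ⟨j, h⟩ else ∅) (fun j hj => by
      rw [dif_pos hj, dif_pos hj]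
      exact hs ⟨j, hj⟩)
  refine sim_of_span hZ1 ?_ hZ2 q0
  refine lt_of_pow_lt_pow_left₀ (r - 1) (Nat.zero_le _) (hZc.trans_lt ?_)
  refine lt_of_eq_of_lt ?_ hD
  congr 1
  rw [Finset.prod_range]
  refine Finset.prod_congr rfl fun i _ => ?_
  rw [dif_pos i.2, ← hX1 i]

/-- **Small spaces over many fields of low complexity.** -/
theorem rank_spaces {S : Set ℕ} (hS : S.Infinite) {r : ℕ} (hr : 0 < r) {Γ : Fin r → Subgroup ℚˣ}
    (hΓ : GIndep Γ) {F : Fin r → Subfield ℝ} (hF : ∀ i, F i ≤ Fl S (Γ i))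
    {W : ∀ i, Submodule (F i) ℝ} (hW : ∀ i, FiniteDimensional (F i) (W i)) {D : ℕ}
    (hD : ∀ i, Module.finrank (F i) (W i) < D) (hDr : D ≤ r) :
    Sim D {x | ∀ i, x ∈ W i} := by
  classical
  intro Y hY q0
  obtain ⟨m, B, L, hL, X, hX1, hs⟩ := represent hS hF hW Y (fun i y hy => hY hy i)
  obtain ⟨Z, hZ1, hZc, hZ2⟩ := transfer_rank (B := B) (hL := hL) hr (vindep B hΓ) hDr Y X
    (fun i => by rw [hX1 i]; exact hD i) hs
  exact sim_of_span hZ1 hZc hZ2 q0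

lemma line_abs {R A : Type} [CommRing R] [Field A] [Algebra R A] {Y : Set A} {Z : Finset A}
    (h1 : (1 : A) ∈ Y) (hZc : Z.card < 2) (hY : Y ⊆ Submodule.span (kk R A) (Z : Set A)) :
    Y ⊆ Submodule.span (kk R A) {(1 : A)} := by
  have h2 : Submodule.span (kk R A) {(1 : A)} ≤ Submodule.span (kk R A) (Z : Set A) := by
    rw [Submodule.span_le, Set.singleton_subset_iff]
    exact hY h1
  have h3 : Module.finrank (kk R A) (Submodule.span (kk R A) {(1 : A)}) = 1 :=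
    finrank_span_singleton one_ne_zero
  have h4 := finrank_span_finset_le_card (R := kk R A) Z
  have h4' : Module.finrank (kk R A) (Submodule.span (kk R A) (Z : Set A)) ≤ Z.card := h4
  have h5 : FiniteDimensional (kk R A) (Submodule.span (kk R A) (Z : Set A)) :=
    FiniteDimensional.span_finset _ Z
  rw [Submodule.eq_of_le_of_finrank_le h2 (by omega)]
  exact hY

lemma plane_abs {R A : Type} [CommRing R] [Field A] [Algebra R A] {Y : Set A} {Z : Finset A}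
    (h1 : (1 : A) ∈ Y) (hZc : Z.card < 3) (hZY : (Z : Set A) ⊆ Y)
    (hY : Y ⊆ Submodule.span (kk R A) (Z : Set A)) :
    ∃ z ∈ Y, Y ⊆ Submodule.span (kk R A) {(1 : A), z} := by
  by_cases h : ∃ z ∈ Z, z ∉ Submodule.span (kk R A) {(1 : A)}
  · obtain ⟨z, hz, hz1⟩ := h
    refine ⟨z, hZY hz, ?_⟩
    have h2 : Submodule.span (kk R A) {(1 : A), z} ≤ Submodule.span (kk R A) (Z : Set A) := by
      rw [Submodule.span_le, Set.insert_subset_iff, Set.singleton_subset_iff]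
      exact ⟨hY h1, hY (hZY hz)⟩
    have h3 : LinearIndependent (kk R A) ![(1 : A), z] := by
      rw [LinearIndependent.pair_iff]
      intro s t hst
      by_cases ht : t = 0
      · rw [ht, zero_smul, add_zero] at hst
        exact ⟨(smul_eq_zero.1 hst).resolve_right one_ne_zero, ht⟩
      · exfalso
        refine hz1 (Submodule.mem_span_singleton.2 ⟨-(t⁻¹ * s), ?_⟩)
        have h4 : t • z = -(s • (1 : A)) := eq_neg_of_add_eq_zero_right hst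
        have h5 : z = t⁻¹ • (t • z) := by rw [smul_smul, inv_mul_cancel₀ ht, one_smul]
        rw [h5, h4, neg_smul, smul_neg, smul_smul]
    have h4 := finrank_span_eq_card h3
    rw [Fintype.card_fin] at h4
    have h5 : Set.range ![(1 : A), z] = {(1 : A), z} := by
      rw [Matrix.range_cons, Matrix.range_cons, Matrix.range_empty, Set.union_empty]
      rfl
    rw [h5] at h4
    have h6 : Module.finrank (kk R A) (Submodule.span (kk R A) (Z : Set A)) ≤ Z.card :=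
      finrank_span_finset_le_card (R := kk R A) Z
    have h7 : FiniteDimensional (kk R A) (Submodule.span (kk R A) (Z : Set A)) :=
      FiniteDimensional.span_finset _ Z
    rw [Submodule.eq_of_le_of_finrank_le h2 (by omega)]
    exact hY
  · push Not at h
    refine ⟨1, h1, hY.trans ?_⟩
    have h2 : Submodule.span (kk R A) (Z : Set A) ≤ Submodule.span (kk R A) {(1 : A), 1} := by
      rw [Submodule.span_le]
      intro z hz
      exact Submodule.span_mono (by simp) (h z hz)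
    exact h2

/-- approximations by rational lines -/
lemma line_of_span {m : ℕ} {B : Base m} {L : ℕ → ℝ} {hL : Tendsto L atTop atTop}
    {Y : Finset ℝ} (h1 : (1 : ℝ) ∈ Y) {Z : Finset (FF hL)} (hZc : Z.card < 2)
    (hZ2 : kst hL '' (Y : Set ℝ) ⊆ Submodule.span (kk (RG hL B) (FF hL)) (Z : Set (FF hL)))
    (κ M0 : ℕ) : ∃ M : ℕ, M0 < M ∧ ∀ y ∈ Y, ∃ p : ℤ, |(M : ℝ) * y - p| < 1 / (M : ℝ) ^ κ := by
  have h2 := line_abs (R := RG hL B) (A := FF hL) (Y := kst hL '' (Y : Set ℝ))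
    ⟨1, h1, map_one _⟩ hZc hZ2
  obtain ⟨M, hM, -, h3⟩ := approx (hL := hL) (B := B) (fun _ : Fin 1 => (1 : ℝ))
    (fun y : Y => (y : ℝ)) (fun y => Submodule.span_mono (by
      rintro _ rfl
      exact ⟨0, map_one _⟩) (h2 ⟨(y : ℝ), y.2, rfl⟩)) κ M0
  refine ⟨M, hM, fun y hy => ?_⟩
  obtain ⟨p, -, hp⟩ := h3 ⟨y, hy⟩
  refine ⟨p 0, ?_⟩
  rw [Fin.sum_univ_one, mul_one] at hp
  exact hp

/-- approximations by rational planes -/
lemma plane_of_span {m : ℕ} {B : Base m} {L : ℕ → ℝ} {hL : Tendsto L atTop atTop}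
    {Y : Finset ℝ} (h1 : (1 : ℝ) ∈ Y) {Z : Finset (FF hL)} (hZc : Z.card < 3)
    (hZ1 : (Z : Set (FF hL)) ⊆ kst hL '' (Y : Set ℝ))
    (hZ2 : kst hL '' (Y : Set ℝ) ⊆ Submodule.span (kk (RG hL B) (FF hL)) (Z : Set (FF hL))) :
    ∃ θ : ℝ, ∀ κ M0 : ℕ, ∃ M : ℕ, M0 < M ∧ 1 ≤ M ∧ ∀ y ∈ Y, ∃ a b : ℤ, |(b : ℝ)| ≤ (M : ℝ) ^ 2 ∧
      |(M : ℝ) * y - (a + θ * b)| < 1 / (M : ℝ) ^ κ := by
  obtain ⟨_, ⟨θ, hθ, rfl⟩, h2⟩ := plane_abs (R := RG hL B) (A := FF hL)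
    (Y := kst hL '' (Y : Set ℝ)) ⟨1, h1, map_one _⟩ hZc hZ1 hZ2
  refine ⟨θ, fun κ M0 => ?_⟩
  obtain ⟨M, hM, hM1, h3⟩ := approx (hL := hL) (B := B) (![(1 : ℝ), θ])
    (fun y : Y => (y : ℝ)) (fun y => Submodule.span_mono (by
      rintro _ (rfl | rfl)
      · exact ⟨0, map_one _⟩
      · exact ⟨1, rfl⟩) (h2 ⟨(y : ℝ), y.2, rfl⟩)) κ M0
  refine ⟨M, hM, hM1, fun y hy => ?_⟩
  obtain ⟨p, hp1, hp⟩ := h3 ⟨y, hy⟩
  refine ⟨p 0, p 1, hp1 1, ?_⟩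
  rw [Fin.sum_univ_two] at hp
  have h4 : (p 0 : ℝ) * ![(1 : ℝ), θ] 0 + (p 1 : ℝ) * ![(1 : ℝ), θ] 1 = p 0 + θ * p 1 := by
    simp only [Matrix.cons_val_zero, Matrix.cons_val_one]
    ring
  rw [h4] at hp
  exact hp

/-- the numbers of two fields -/
theorem two_fields {S : Set ℕ} (hS : S.Infinite) {Γ Δ : Subgroup ℚˣ} (hd : Γ ⊓ Δ = ⊥)
    {x : ℝ} (h₁ : x ∈ Fl S Γ) (h₂ : x ∈ Fl S Δ) (κ M0 : ℕ) :
    ∃ M : ℕ, M0 < M ∧ ∃ p : ℤ, |(M : ℝ) * x - p| < 1 / (M : ℝ) ^ κ := by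
  classical
  obtain ⟨m, B, L, hL, h⟩ := ifield (ι := Fin 2) ![Γ, Δ] hS (fun _ => x) (by
    intro i
    fin_cases i
    · exact h₁
    · exact h₂)
  have key : ∀ F : Subfield ℝ, x ∈ F →
      ((({1, x} : Finset ℝ) : Set ℝ)) ⊆ Submodule.span F ((({1} : Finset ℝ)) : Set ℝ) := by
    intro F hx y hy
    rw [Finset.coe_singleton]
    rw [Finset.coe_insert, Finset.coe_singleton] at hy
    rcases hy with rfl | rfl
    · exact Submodule.subset_span rfl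
    · have : y = (⟨y, hx⟩ : F) • (1 : ℝ) := by
        change y = y * 1
        rw [mul_one]
      rw [this]
      exact Submodule.smul_mem _ _ (Submodule.subset_span rfl)
  obtain ⟨Z, hZ1, hZc, hZ2⟩ := transfer (B := B) (hL := hL) (Pool.Agent.TH796.AL.Grp.disj B hd)
    {1, x} {1} {1} (key _ (h 0)) (key _ (h 1))
  rw [Finset.card_singleton, mul_one] at hZc
  obtain ⟨M, hM, h3⟩ := line_of_span (Finset.mem_insert_self _ _) (by omega) hZ2 κ M0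
  exact ⟨M, hM, h3 x (by simp)⟩

/-- the planes, two fields -/
theorem plane_two {S : Set ℕ} (hS : S.Infinite) {Γ Δ : Subgroup ℚˣ} (hd : Γ ⊓ Δ = ⊥)
    {F₁ F₂ : Subfield ℝ} (hF₁ : F₁ ≤ Fl S Γ) (hF₂ : F₂ ≤ Fl S Δ) {W₁ : Submodule F₁ ℝ}
    {W₂ : Submodule F₂ ℝ} (hW₁ : FiniteDimensional F₁ W₁) (hW₂ : FiniteDimensional F₂ W₂)
    (hD : Module.finrank F₁ W₁ * Module.finrank F₂ W₂ < 3) {Y : Finset ℝ} (h1 : (1 : ℝ) ∈ Y)
    (hY₁ : (Y : Set ℝ) ⊆ W₁) (hY₂ : (Y : Set ℝ) ⊆ W₂) :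
    ∃ θ : ℝ, ∀ κ M0 : ℕ, ∃ M : ℕ, M0 < M ∧ 1 ≤ M ∧ ∀ y ∈ Y, ∃ a b : ℤ, |(b : ℝ)| ≤ (M : ℝ) ^ 2 ∧
      |(M : ℝ) * y - (a + θ * b)| < 1 / (M : ℝ) ^ κ := by
  classical
  obtain ⟨X₁, a1, a2⟩ := finite_span hW₁
  obtain ⟨X₂, b1, b2⟩ := finite_span hW₂
  obtain ⟨f₁, hf₁, hs₁⟩ := coeffs (Y := Y) (hY₁.trans a2)
  obtain ⟨f₂, hf₂, hs₂⟩ := coeffs (Y := Y) (hY₂.trans b2)
  obtain ⟨m, B, L, hL, h⟩ := ifield (ι := (Y × X₁) ⊕ (Y × X₂)) (Sum.elim (fun _ => Γ) fun _ => Δ) hS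
    (Sum.elim f₁ f₂) (by
      rintro (i | i)
      · exact hF₁ (hf₁ i)
      · exact hF₂ (hf₂ i))
  obtain ⟨Z, hZ1, hZc, hZ2⟩ := transfer (B := B) (hL := hL) (Pool.Agent.TH796.AL.Grp.disj B hd)
    Y X₁ X₂ (hs₁ (FV B hL (VS B Γ)) fun i => h (Sum.inl i))
    (hs₂ (FV B hL (VS B Δ)) fun i => h (Sum.inr i))
  rw [a1, b1] at hZc
  exact plane_of_span h1 (by omega) hZ1 hZ2

/-- the planes, three fields -/
theorem plane_three {S : Set ℕ} (hS : S.Infinite) {Γ : Fin 3 → Subgroup ℚˣ} (hΓ : GIndep Γ)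
    {F : Fin 3 → Subfield ℝ} (hF : ∀ i, F i ≤ Fl S (Γ i)) {W : ∀ i, Submodule (F i) ℝ}
    (hW : ∀ i, FiniteDimensional (F i) (W i)) (hD : ∀ i, Module.finrank (F i) (W i) < 3)
    {Y : Finset ℝ} (h1 : (1 : ℝ) ∈ Y) (hY : ∀ i, (Y : Set ℝ) ⊆ W i) :
    ∃ θ : ℝ, ∀ κ M0 : ℕ, ∃ M : ℕ, M0 < M ∧ 1 ≤ M ∧ ∀ y ∈ Y, ∃ a b : ℤ, |(b : ℝ)| ≤ (M : ℝ) ^ 2 ∧
      |(M : ℝ) * y - (a + θ * b)| < 1 / (M : ℝ) ^ κ := by
  classical
  obtain ⟨m, B, L, hL, X, hX1, hs⟩ := represent hS hF hW Y hY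
  obtain ⟨Z, hZ1, hZc, hZ2⟩ := transfer_rank (B := B) (hL := hL) (by norm_num) (vindep B hΓ)
    (le_refl 3) Y X (fun i => by rw [hX1 i]; exact hD i) hs
  exact plane_of_span h1 hZc hZ1 hZ2

/-- **Odd zeta values.** -/
theorem zeta_of_sim : ∃ s0 : ℕ, ∀ s ≥ s0, ∀ D : ℕ, 1 ≤ D →
    (D : ℝ) ≤ 1 / 1000 * Real.log (Real.log s) → ∀ W : Set ℝ, Sim D W →
      1 / 1000 / (D : ℝ) * Real.sqrt (s * Real.log (Real.log s) / Real.log s) ≤
      (Set.ncard {i : ℕ | 3 ≤ i ∧ i ≤ s ∧ Odd i ∧ (∑' n : ℕ, 1 / ((n : ℝ) + 1) ^ i) ∉ W} : ℝ) := by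
  classical
  obtain ⟨s0, hs0⟩ := Pool.Agent.TH818.SA.t_final
  refine ⟨s0, fun s hs D hD1 hDs W hW => ?_⟩
  obtain ⟨z, hz⟩ : ∃ z : ℕ → ℝ, z = fun i => ∑' n : ℕ, 1 / ((n : ℝ) + 1) ^ i := ⟨_, rfl⟩
  obtain ⟨q0, hq0⟩ := hs0 s hs D hD1 hDs
  obtain ⟨Y, hY⟩ : ∃ Y : Finset ℝ, Y = ((Finset.Icc 3 s).filter (fun i => Odd i ∧ z i ∈ W)).image z :=
    ⟨_, rfl⟩
  have hYW : (Y : Set ℝ) ⊆ W := by
    intro y hy
    rw [hY, Finset.mem_coe] at hy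
    obtain ⟨i, hi, rfl⟩ := Finset.mem_image.1 hy
    exact (Finset.mem_filter.1 hi).2.2
  obtain ⟨q, hqq0, hq⟩ := hW Y hYW q0
  refine (hq0 q hqq0).trans ?_
  have hfin : {i : ℕ | 3 ≤ i ∧ i ≤ s ∧ Odd i ∧ (∑' n : ℕ, 1 / ((n : ℝ) + 1) ^ i) ∉ W}.Finite :=
    (Set.finite_Iic s).subset fun i hi => hi.2.1
  refine Nat.cast_le.2 (Set.ncard_le_ncard ?_ hfin)
  rintro i ⟨a1, a2, a3, a4⟩
  refine ⟨a1, a2, a3, fun hmem => ?_⟩
  obtain ⟨p, hp⟩ := hq (z i) (by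
    rw [hY]
    refine Finset.mem_image_of_mem _ (Finset.mem_filter.2 ⟨Finset.mem_Icc.2 ⟨a1, a2⟩, a3, ?_⟩)
    rw [hz]
    exact hmem)
  rw [hz] at hp
  exact absurd ((a4 p).trans_lt hp) (lt_irrefl _)

end Pool.Agent.Run7.h123.LC
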