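import Mathlib
import Pool.Agent.Run7.h123.LC.Gen
import Pool.Agent.Run7.h123.LC.LinM

set_option autoImplicit false

/-!
# Odd zeta values: groups and bases
-/

namespace Pool.Agent.Run7.h123.LC

open Filter Topology
open Pool.Agent.TH796.AL Pool.Agent.TH932.Words Pool.Agent.TH796.AL.Final
open Pool.Agent.TH796.AL.TwoB Pool.Agent.TH796.AL.Ai Pool.Agent.TH796.AL.Alg
open Pool.Agent.TH796.AL.Grp Pool.Agent.TH796.Fin

lemma MInd.init {n : ℕ} {c : Fin (n + 1) → ℕ} (h : MInd c) : MInd (fun i : Fin n => c i.castSucc) := by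
  intro k hk
  have h1 := h (Fin.snoc k 0) (by
    rw [Fin.prod_univ_castSucc]
    simp only [Fin.snoc_castSucc, Fin.snoc_last, zpow_zero, mul_one]
    exact hk)
  funext i
  have h2 := congrFun h1 i.castSucc
  rw [Fin.snoc_castSucc] at h2
  exact h2

lemma shrink {P : ℕ → Prop} {r : ℕ} : ∀ n : ℕ, (∃ c : Fin (r + n) → ℕ, (∀ i, 2 ≤ c i) ∧ MInd c ∧
    ∀ i, P (c i)) → ∃ c : Fin r → ℕ, (∀ i, 2 ≤ c i) ∧ MInd c ∧ ∀ i, P (c i) := by
  intro n
  induction n with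
  | zero => exact fun h => h
  | succ n ih =>
    rintro ⟨c, h1, h2, h3⟩
    exact ih ⟨fun i => c i.castSucc, fun i => h1 _, MInd.init h2, fun i => h3 _⟩

/-- a property of bases which does not hold for `n + 1` independent ones -/
theorem outside_rank (P : ℕ → Prop) (n : ℕ) (h : ∀ c : Fin (n + 1) → ℕ, (∀ i, 2 ≤ c i) → MInd c →
    ¬ ∀ i, P (c i)) : ∃ (k : ℕ) (c : Fin k → ℕ), k ≤ n ∧ (∀ i, 2 ≤ c i) ∧ MInd c ∧
      ∀ b : ℕ, 2 ≤ b → MInd (Fin.snoc c b : Fin (k + 1) → ℕ) → ¬ P b := by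
  classical
  set Q : ℕ → Prop := fun k => ∃ c : Fin k → ℕ, (∀ i, 2 ≤ c i) ∧ MInd c ∧ ∀ i, P (c i) with hQ
  have hle : ∀ k, Q k → k ≤ n := by
    intro k hk
    by_contra hcon
    obtain ⟨l, rfl⟩ : ∃ l, k = n + 1 + l := ⟨k - (n + 1), by omega⟩
    obtain ⟨c, h1, h2, h3⟩ := shrink l hk
    exact h c h1 h2 h3
  have h0 : Q 0 := ⟨Fin.elim0, fun i => i.elim0, fun k _ => Subsingleton.elim _ _,
    fun i => i.elim0⟩
  obtain ⟨k, hk, hmax⟩ : ∃ k, Q k ∧ ∀ l, Q l → l ≤ k := by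
    refine ⟨Nat.findGreatest Q n, Nat.findGreatest_spec (Nat.zero_le n) h0, fun l hl => ?_⟩
    exact Nat.le_findGreatest (hle l hl) hl
  obtain ⟨c, hc, hi, hb⟩ := hk
  refine ⟨k, c, hle k ⟨c, hc, hi, hb⟩, hc, hi, fun b hb2 hind hbad => ?_⟩
  have h1 : Q (k + 1) := by
    refine ⟨Fin.snoc c b, fun i => ?_, hind, fun i => ?_⟩
    · refine Fin.lastCases ?_ (fun j => ?_) i
      · rw [Fin.snoc_last]
        exact hb2
      · rw [Fin.snoc_castSucc]
        exact hc j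
    · refine Fin.lastCases ?_ (fun j => ?_) i
      · rw [Fin.snoc_last]
        exact hbad
      · rw [Fin.snoc_castSucc]
        exact hb j
  have := hmax _ h1
  omega

lemma rad_inf {b c : ℕ} (hb : 2 ≤ b) (hc : 2 ≤ c) (h : MInd ![b, c]) : rad b ⊓ rad c = ⊥ := by
  have h1 := gindep_rad (b := ![b, c]) (fun i => by fin_cases i <;> simpa) h
  rw [eq_bot_iff]
  rintro g ⟨hg1, hg2⟩
  have h2 := h1 ![g, g⁻¹] (fun i => by
    fin_cases i
    · exact hg1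
    · exact (rad c).inv_mem hg2) (by
    rw [Fin.prod_univ_two]
    exact mul_inv_cancel g) 0
  exact Subgroup.mem_bot.2 h2

end Pool.Agent.Run7.h123.LC
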