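import Mathlib
import Pool.Agent.Run7.h123.LC.LinB
import Pool.Agent.Run7.h6.ZM.Meas

set_option autoImplicit false

/-!
# `ζ(7), ζ(9), ζ(11), ζ(13)`
-/

namespace Pool.Agent.Run7.h123.LC

open Filter Topology
open Pool.Agent.TH796.AL Pool.Agent.TH796.AL.Ai Pool.Agent.TH796.AL.Grp Pool.Agent.TH796.AL.TwoB
open Pool.Agent.TH796.AL.Final

/-- the lines, two fields -/
theorem line_two {S : Set ℕ} (hS : S.Infinite) {Γ Δ : Subgroup ℚˣ} (hd : Γ ⊓ Δ = ⊥)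
    {F₁ F₂ : Subfield ℝ} (hF₁ : F₁ ≤ Fl S Γ) (hF₂ : F₂ ≤ Fl S Δ) {W₁ : Submodule F₁ ℝ}
    {W₂ : Submodule F₂ ℝ} (hW₁ : FiniteDimensional F₁ W₁) (hW₂ : FiniteDimensional F₂ W₂)
    (hD : Module.finrank F₁ W₁ * Module.finrank F₂ W₂ < 2) {Y : Finset ℝ} (h1 : (1 : ℝ) ∈ Y)
    (hY₁ : (Y : Set ℝ) ⊆ W₁) (hY₂ : (Y : Set ℝ) ⊆ W₂) (κ M0 : ℕ) :
    ∃ M : ℕ, M0 < M ∧ ∀ y ∈ Y, ∃ p : ℤ, |(M : ℝ) * y - p| < 1 / (M : ℝ) ^ κ := by
  classical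
  obtain ⟨X₁, a1, a2⟩ := finite_span hW₁
  obtain ⟨X₂, b1, b2⟩ := finite_span hW₂
  obtain ⟨f₁, hf₁, hs₁⟩ := coeffs (Y := Y) (hY₁.trans a2)
  obtain ⟨f₂, hf₂, hs₂⟩ := coeffs (Y := Y) (hY₂.trans b2)
  obtain ⟨m, B, L, hL, h⟩ := ifield (ι := (Y × X₁) ⊕ (Y × X₂)) (Sum.elim (fun _ => Γ) fun _ => Δ) hS
    (Sum.elim f₁ f₂) (by
      rintro (i | i)
      · exact hF₁ (hf₁ i)
      · exact hF₂ (hf₂ i))
  obtain ⟨Z, hZ1, hZc, hZ2⟩ := transfer (B := B) (hL := hL) (Pool.Agent.TH796.AL.Grp.disj B hd)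
    Y X₁ X₂ (hs₁ (FV B hL (VS B Γ)) fun i => h (Sum.inl i))
    (hs₂ (FV B hL (VS B Δ)) fun i => h (Sum.inr i))
  rw [a1, b1] at hZc
  exact line_of_span h1 (by omega) hZ2 κ M0

/-- the numbers of a finite set in two fields -/
theorem common {S : Set ℕ} (hS : S.Infinite) {Γ Δ : Subgroup ℚˣ} (hd : Γ ⊓ Δ = ⊥) {Y : Finset ℝ}
    (h1 : (1 : ℝ) ∈ Y) (h₁ : ∀ y ∈ Y, y ∈ Fl S Γ) (h₂ : ∀ y ∈ Y, y ∈ Fl S Δ) (κ M0 : ℕ) :
    ∃ M : ℕ, M0 < M ∧ ∀ y ∈ Y, ∃ p : ℤ, |(M : ℝ) * y - p| < 1 / (M : ℝ) ^ κ := by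
  have key : ∀ F : Subfield ℝ, (∀ y ∈ Y, y ∈ F) →
      (Y : Set ℝ) ⊆ Submodule.span F ({1} : Set ℝ) := by
    intro F hF y hy
    have : y = (⟨y, hF y hy⟩ : F) • (1 : ℝ) := by
      change y = y * 1
      rw [mul_one]
    rw [this]
    exact Submodule.smul_mem _ _ (Submodule.mem_span_singleton_self 1)
  refine line_two hS hd (F₁ := Fl S Γ) (F₂ := Fl S Δ) le_rfl le_rfl
    (FiniteDimensional.span_of_finite _ (Set.finite_singleton 1))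
    (FiniteDimensional.span_of_finite _ (Set.finite_singleton 1)) ?_ h1 (key _ h₁) (key _ h₂) κ M0
  rw [finrank_span_singleton one_ne_zero, finrank_span_singleton one_ne_zero]
  norm_num

/-- the zeta value -/
noncomputable def ztt (i : ℕ) : ℝ := ∑' n : ℕ, 1 / ((n : ℝ) + 1) ^ i

theorem zeta_four {S : Set ℕ} (hS : S.Infinite) {Γ Δ : Subgroup ℚˣ} (hd : Γ ⊓ Δ = ⊥)
    (h₁ : ∀ j ∈ ({7, 9, 11, 13} : Finset ℕ), ztt j ∈ Fl S Γ)
    (h₂ : ∀ j ∈ ({7, 9, 11, 13} : Finset ℕ), ztt j ∈ Fl S Δ) : False := by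
  classical
  obtain ⟨c, hc, h⟩ := Pool.Agent.Run7.h6.ZM.measure
  obtain ⟨M0, hM0⟩ := exists_nat_gt (1 / c)
  obtain ⟨M, hM, hap⟩ := common hS hd (Y := insert 1 (({7, 9, 11, 13} : Finset ℕ).image ztt))
    (Finset.mem_insert_self _ _) (by
      intro y hy
      rw [Finset.mem_insert, Finset.mem_image] at hy
      rcases hy with rfl | ⟨j, hj, rfl⟩
      · exact (Fl S Γ).one_mem
      · exact h₁ j hj) (by
      intro y hy
      rw [Finset.mem_insert, Finset.mem_image] at hy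
      rcases hy with rfl | ⟨j, hj, rfl⟩
      · exact (Fl S Δ).one_mem
      · exact h₂ j hj) 1814 M0
  have hMr : 1 / c < M := hM0.trans (by exact_mod_cast hM)
  have hMpos : (0 : ℝ) < M := lt_trans (by positivity) hMr
  choose! p hp using fun (j : ℕ) (hj : j ∈ ({7, 9, 11, 13} : Finset ℕ)) =>
    hap (ztt j) (Finset.mem_insert_of_mem (Finset.mem_image_of_mem _ hj))
  obtain ⟨j, hj, h1⟩ := h p M (by exact_mod_cast hMpos)
  have h2 := hp j hj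
  have h3 : |(∑' n : ℕ, 1 / ((n : ℝ) + 1) ^ j) - (p j : ℝ) / M| * M =
      |(M : ℝ) * ztt j - p j| := by
    unfold ztt
    rw [← abs_of_pos hMpos, ← abs_mul, abs_of_pos hMpos]
    congr 1
    field_simp
  have h4 : c / (M : ℝ) ^ 1814 * M < 1 / (M : ℝ) ^ 1814 := by
    refine lt_of_le_of_lt ?_ h2
    rw [← h3]
    exact mul_le_mul_of_nonneg_right h1 hMpos.le
  have h5 : 1 < c * M := by
    rw [div_lt_iff₀ hc] at hMr
    linarith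
  have h6 : c / (M : ℝ) ^ 1814 * M = c * M / (M : ℝ) ^ 1814 := by ring
  rw [h6, div_lt_div_iff_of_pos_right (by positivity)] at h4
  linarith

end Pool.Agent.Run7.h123.LC
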