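import Mathlib
import Pool.Agent.Run7.h123.LC.LinB

set_option autoImplicit false

/-!
# Numbers with a measure of linear independence
-/

namespace Pool.Agent.Run7.h123.LC

open Filter Topology
open Pool.Agent.TH932.Abs Pool.Agent.TH932.Germs Pool.Agent.TH932.Chi
open Pool.Agent.TH796.AL Pool.Agent.TH932.Words Pool.Agent.TH796.AL.Strong
open Pool.Agent.TH796.AL.Final Pool.Agent.TH796.AL.TwoB Pool.Agent.TH796.AL.Grp
open Pool.Agent.TH796.AL.Nv Pool.Agent.TH796.AL.Ai Pool.Agent.TH796.AL.Lin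
open Pool.Agent.TH796.AL.AlgA Pool.Agent.TH796.AL.Alg

/-- a measure of linear independence of the numbers `x i` -/
def LM {n : ℕ} (x : Fin n → ℝ) : Prop :=
  ∃ (κ : ℕ) (c : ℝ), 0 < c ∧ ∀ p : Fin n → ℤ, p ≠ 0 → ∀ H : ℝ, 1 ≤ H → (∀ i, |(p i : ℝ)| ≤ H) →
    c ≤ H ^ κ * |∑ i, (p i : ℝ) * x i|

theorem no_small {n : ℕ} {x : Fin n → ℝ} (h : LM x) {d : ℕ} (σ : Fin d → Fin n) (i0 : Fin n)
    (hσ : ∀ j, σ j ≠ i0) (hap : ∀ κ M0 : ℕ, ∃ M : ℕ, M0 < M ∧ 1 ≤ M ∧ ∃ p : Fin d → ℤ,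
      (∀ j, |(p j : ℝ)| ≤ (M : ℝ) ^ 2) ∧
      |(M : ℝ) * x i0 - ∑ j, (p j : ℝ) * x (σ j)| < 1 / (M : ℝ) ^ κ) : False := by
  classical
  obtain ⟨κ, c, hc, h⟩ := h
  obtain ⟨M0, hM0⟩ := exists_nat_gt ((1 + d : ℝ) ^ κ / c)
  obtain ⟨M, hM, hM1, p, hp1, hp2⟩ := hap (2 * κ + 1) M0
  have hMr : (1 + d : ℝ) ^ κ / c < M := hM0.trans (by exact_mod_cast hM)
  have hM1r : (1 : ℝ) ≤ M := by exact_mod_cast hM1
  obtain ⟨P, hP⟩ : ∃ P : Fin n → ℤ, P = fun i => (if i = i0 then (M : ℤ) else 0) -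
    ∑ j, if σ j = i then p j else 0 := ⟨_, rfl⟩
  have hP0 : P ≠ 0 := by
    intro h0
    have h1 := congrFun h0 i0
    rw [hP] at h1
    simp only [if_true, Pi.zero_apply] at h1
    rw [Finset.sum_eq_zero (fun j _ => if_neg (hσ j)), sub_zero] at h1
    omega
  have hsum : ∑ i, (P i : ℝ) * x i = (M : ℝ) * x i0 - ∑ j, (p j : ℝ) * x (σ j) := by
    have h1 : ∀ i, (P i : ℝ) * x i = (if i = i0 then (M : ℝ) * x i else 0) -
        ∑ j, if σ j = i then (p j : ℝ) * x i else 0 := by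
      intro i
      rw [hP]
      push_cast
      rw [sub_mul, Finset.sum_mul]
      congr 1
      · split_ifs <;> simp
      · refine Finset.sum_congr rfl fun j _ => ?_
        split_ifs <;> simp
    rw [Finset.sum_congr rfl fun i _ => h1 i, Finset.sum_sub_distrib, Finset.sum_comm]
    congr 1
    · rw [Finset.sum_ite_eq' Finset.univ i0, if_pos (Finset.mem_univ _)]
    · refine Finset.sum_congr rfl fun j _ => ?_
      rw [Finset.sum_ite_eq Finset.univ (σ j), if_pos (Finset.mem_univ _)]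
  have hbound : ∀ i, |(P i : ℝ)| ≤ (1 + d) * (M : ℝ) ^ 2 := by
    intro i
    have hMM : (M : ℝ) ≤ (M : ℝ) ^ 2 := by nlinarith
    rw [hP]
    push_cast
    refine (abs_sub _ _).trans ?_
    have h1 : |(if i = i0 then (M : ℝ) else 0)| ≤ (M : ℝ) ^ 2 := by
      split_ifs
      · rw [abs_of_nonneg (by positivity)]
        exact hMM
      · rw [abs_zero]
        positivity
    have h2 : |∑ j, (if σ j = i then (p j : ℝ) else 0)| ≤ d * (M : ℝ) ^ 2 := by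
      refine (Finset.abs_sum_le_sum_abs _ _).trans ?_
      refine (Finset.sum_le_card_nsmul _ _ ((M : ℝ) ^ 2) fun j _ => ?_).trans ?_
      · split_ifs
        · exact hp1 j
        · rw [abs_zero]
          positivity
      · rw [Finset.card_univ, Fintype.card_fin, nsmul_eq_mul]
    calc _ ≤ (M : ℝ) ^ 2 + d * (M : ℝ) ^ 2 := add_le_add h1 h2
      _ = (1 + d) * (M : ℝ) ^ 2 := by ring
  have hH : (1 : ℝ) ≤ (1 + d) * (M : ℝ) ^ 2 := by
    have h1 : (1 : ℝ) ≤ (M : ℝ) ^ 2 := one_le_pow₀ hM1r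
    have h2 : (0 : ℝ) ≤ d := Nat.cast_nonneg d
    nlinarith
  have h1 := h P hP0 _ hH hbound
  rw [hsum] at h1
  have h2 : ((1 + d) * (M : ℝ) ^ 2) ^ κ * |(M : ℝ) * x i0 - ∑ j, (p j : ℝ) * x (σ j)| <
      ((1 + d) * (M : ℝ) ^ 2) ^ κ * (1 / (M : ℝ) ^ (2 * κ + 1)) :=
    mul_lt_mul_of_pos_left hp2 (by positivity)
  have h3 : ((1 + d) * (M : ℝ) ^ 2) ^ κ * (1 / (M : ℝ) ^ (2 * κ + 1)) = (1 + d : ℝ) ^ κ / M := by
    rw [mul_pow, ← pow_mul, pow_succ]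
    have : (M : ℝ) ≠ 0 := by linarith
    field_simp
  rw [h3] at h2
  have h4 : (1 + d : ℝ) ^ κ / M < c := by
    rw [div_lt_iff₀ (by linarith), mul_comm]
    rwa [div_lt_iff₀ hc] at hMr
  linarith

theorem card_of_lm {n : ℕ} {x : Fin n → ℝ} (h : LM x) {m : ℕ} {B : Base m} {L : ℕ → ℝ}
    {hL : Tendsto L atTop atTop} {Z : Finset (FF hL)}
    (hZ1 : (Z : Set (FF hL)) ⊆ kst hL '' (((Finset.univ.image x : Finset ℝ)) : Set ℝ))
    (hZ2 : kst hL '' (((Finset.univ.image x : Finset ℝ)) : Set ℝ) ⊆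
      Submodule.span (kk (RG hL B) (FF hL)) (Z : Set (FF hL))) : n ≤ Z.card := by
  classical
  by_contra hcon
  push Not at hcon
  have hmem : ∀ z ∈ Z, ∃ i : Fin n, kst hL (x i) = z := by
    intro z hz
    obtain ⟨y, hy, rfl⟩ := hZ1 hz
    rw [Finset.mem_coe, Finset.mem_image] at hy
    obtain ⟨i, -, rfl⟩ := hy
    exact ⟨i, rfl⟩
  choose g hg using fun z : Z => hmem z.1 z.2
  set e := Z.equivFin with he
  obtain ⟨i0, hi0⟩ : ∃ i0 : Fin n, ∀ z : Z, g z ≠ i0 := by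
    by_contra hall
    push Not at hall
    have h1 : Fintype.card (Fin n) ≤ Fintype.card Z := Fintype.card_le_of_surjective g hall
    rw [Fintype.card_fin, Fintype.card_coe] at h1
    omega
  have h4 : (Z : Set (FF hL)) ⊆ Set.range fun j : Fin Z.card => kst hL (x (g (e.symm j))) := by
    intro z hz
    refine ⟨e ⟨z, hz⟩, ?_⟩
    simp only [Equiv.symm_apply_apply]
    exact hg ⟨z, hz⟩
  refine no_small h (fun j : Fin Z.card => g (e.symm j)) i0 (fun j => hi0 _) fun κ M0 => ?_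
  obtain ⟨M, hM, hM1, hap⟩ := approx (hL := hL) (B := B) (fun j : Fin Z.card => x (g (e.symm j)))
    (fun _ : Unit => x i0) (fun _ => Submodule.span_mono h4 (hZ2
      ⟨x i0, Finset.mem_coe.2 (Finset.mem_image_of_mem _ (Finset.mem_univ _)), rfl⟩)) κ M0
  exact ⟨M, hM, hM1, hap ()⟩

/-- **Two fields.** -/
theorem lm_two {n : ℕ} {x : Fin n → ℝ} (h : LM x) {S : Set ℕ} (hS : S.Infinite)
    {Γ Δ : Subgroup ℚˣ} (hd : Γ ⊓ Δ = ⊥) {F₁ F₂ : Subfield ℝ} (hF₁ : F₁ ≤ Fl S Γ)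
    (hF₂ : F₂ ≤ Fl S Δ) {W₁ : Submodule F₁ ℝ} {W₂ : Submodule F₂ ℝ}
    (hW₁ : FiniteDimensional F₁ W₁) (hW₂ : FiniteDimensional F₂ W₂)
    (hx₁ : ∀ i, x i ∈ W₁) (hx₂ : ∀ i, x i ∈ W₂) :
    n ≤ Module.finrank F₁ W₁ * Module.finrank F₂ W₂ := by
  classical
  obtain ⟨Y, hY⟩ : ∃ Y : Finset ℝ, Y = Finset.univ.image x := ⟨_, rfl⟩
  have hY' : ∀ y ∈ Y, ∃ i, x i = y := by
    intro y hy
    rw [hY, Finset.mem_image] at hy
    obtain ⟨i, -, hi⟩ := hy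
    exact ⟨i, hi⟩
  obtain ⟨X₁, a1, a2⟩ := finite_span hW₁
  obtain ⟨X₂, b1, b2⟩ := finite_span hW₂
  obtain ⟨f₁, hf₁, hs₁⟩ := coeffs (Y := Y) (fun y hy => a2 (by
    obtain ⟨i, rfl⟩ := hY' y hy
    exact hx₁ i))
  obtain ⟨f₂, hf₂, hs₂⟩ := coeffs (Y := Y) (fun y hy => b2 (by
    obtain ⟨i, rfl⟩ := hY' y hy
    exact hx₂ i))
  obtain ⟨m, B, L, hL, h'⟩ := ifield (ι := (Y × X₁) ⊕ (Y × X₂)) (Sum.elim (fun _ => Γ) fun _ => Δ) hS
    (Sum.elim f₁ f₂) (by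
      rintro (i | i)
      · exact hF₁ (hf₁ i)
      · exact hF₂ (hf₂ i))
  obtain ⟨Z, hZ1, hZc, hZ2⟩ := transfer (B := B) (hL := hL) (Pool.Agent.TH796.AL.Grp.disj B hd)
    Y X₁ X₂ (hs₁ (FV B hL (VS B Γ)) fun i => h' (Sum.inl i))
    (hs₂ (FV B hL (VS B Δ)) fun i => h' (Sum.inr i))
  rw [a1, b1] at hZc
  rw [hY] at hZ1 hZ2
  exact (card_of_lm h hZ1 hZ2).trans hZc

/-- **Many fields.** -/
theorem lm_rank {n : ℕ} {x : Fin n → ℝ} (h : LM x) {S : Set ℕ} (hS : S.Infinite)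
    {r : ℕ} (hr : 0 < r) (hnr : n ≤ r) {Γ : Fin r → Subgroup ℚˣ} (hΓ : GIndep Γ)
    {F : Fin r → Subfield ℝ} (hF : ∀ i, F i ≤ Fl S (Γ i)) {W : ∀ i, Submodule (F i) ℝ}
    (hW : ∀ i, FiniteDimensional (F i) (W i)) (hx : ∀ i j, x j ∈ W i) :
    ∃ i, n ≤ Module.finrank (F i) (W i) := by
  classical
  by_contra hcon
  push Not at hcon
  obtain ⟨Y, hY⟩ : ∃ Y : Finset ℝ, Y = Finset.univ.image x := ⟨_, rfl⟩
  obtain ⟨m, B, L, hL, X, hX1, hs⟩ := represent hS hF hW Y (fun i y hy => by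
    rw [hY, Finset.mem_coe, Finset.mem_image] at hy
    obtain ⟨j, -, rfl⟩ := hy
    exact hx i j)
  obtain ⟨Z, hZ1, hZc, hZ2⟩ := transfer_rank (B := B) (hL := hL) hr (vindep B hΓ) hnr Y X
    (fun i => by rw [hX1 i]; exact hcon i) hs
  rw [hY] at hZ1 hZ2
  exact absurd (card_of_lm h hZ1 hZ2) (by omega)

theorem linearIndependent_of_finrank {n : ℕ} {F : Subfield ℝ} {x : Fin n → ℝ}
    (h : n ≤ Module.finrank F (Submodule.span F (Set.range x))) : LinearIndependent F x := by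
  rw [linearIndependent_iff_card_le_finrank_span, Fintype.card_fin]
  exact h

/-- **Linear independence over one of `n` independent fields.** -/
theorem lm_indep {n : ℕ} {x : Fin n → ℝ} (h : LM x) (hn : 0 < n) {S : Set ℕ} (hS : S.Infinite)
    {Γ : Fin n → Subgroup ℚˣ} (hΓ : GIndep Γ) {F : Fin n → Subfield ℝ}
    (hF : ∀ i, F i ≤ Fl S (Γ i)) : ∃ i, LinearIndependent (F i) x := by
  obtain ⟨i, hi⟩ := lm_rank h hS hn le_rfl hΓ hF
    (W := fun i => Submodule.span (F i) (Set.range x))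
    (fun i => FiniteDimensional.span_of_finite (F i) (Set.finite_range x))
    (fun i j => Submodule.subset_span ⟨j, rfl⟩)
  exact ⟨i, linearIndependent_of_finrank hi⟩

end Pool.Agent.Run7.h123.LC
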