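import Mathlib
import Pool.Agent.Run7.h123.LC.LinN
import Pool.Agent.TH647.NR.Zeta
import Pool.Agent.TH647.NR.Zeta34

set_option autoImplicit false

/-!
# Measures of linear independence: `1, π ^ 2, ζ(3)` and `1, ζ(3), π ^ 4`
-/

namespace Pool.Agent.Run7.h123.LC

/-- transfer by a map of the coefficients -/
theorem LM.map {n : ℕ} {x y : Fin n → ℝ} (h : LM x) (N : ℕ) (hN : 1 ≤ N)
    (A : (Fin n → ℤ) → Fin n → ℤ) (hA0 : ∀ p, p ≠ 0 → A p ≠ 0)
    (hA : ∀ (p : Fin n → ℤ) (H : ℝ), (∀ i, |(p i : ℝ)| ≤ H) → ∀ i, |(A p i : ℝ)| ≤ N * H)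
    (t : ℝ) (ht : t ≠ 0) (hv : ∀ p : Fin n → ℤ, ∑ i, (p i : ℝ) * y i = t * ∑ i, (A p i : ℝ) * x i) :
    LM y := by
  obtain ⟨κ, c, hc, h⟩ := h
  have hN0 : (1 : ℝ) ≤ N := by exact_mod_cast hN
  have ht0 : 0 < |t| := abs_pos.2 ht
  refine ⟨κ, c * |t| / (N : ℝ) ^ κ, by positivity, fun p hp H hH hb => ?_⟩
  have h1 := h (A p) (hA0 p hp) (N * H) (by nlinarith) (hA p H hb)
  rw [hv, abs_mul, div_le_iff₀ (by positivity)]
  rw [mul_pow] at h1
  calc c * |t| ≤ ((N : ℝ) ^ κ * H ^ κ * |∑ i, (A p i : ℝ) * x i|) * |t| :=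
        mul_le_mul_of_nonneg_right h1 ht0.le
    _ = H ^ κ * (|t| * |∑ i, (A p i : ℝ) * x i|) * (N : ℝ) ^ κ := by ring

theorem lm_of_meas {m : ℕ} {y : Fin (m + 1) → ℝ} {w c : ℝ} (hc : 0 < c)
    (h : Pool.Agent.W472.AC.Meas y w c) : LM y := by
  refine ⟨⌈w⌉₊, c, hc, fun p hp H hH hb => (h p hp H hH hb).trans ?_⟩
  refine mul_le_mul_of_nonneg_right ?_ (abs_nonneg _)
  rw [← Real.rpow_natCast]
  exact Real.rpow_le_rpow_of_exponent_le hH (Nat.le_ceil w)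

/-- three numbers, the first of which is `1` -/
theorem lm_three {x y c : ℝ} {κ : ℕ} (hc : 0 < c)
    (h : ∀ a b d : ℤ, (b ≠ 0 ∨ d ≠ 0) → c / (max |(b : ℝ)| |(d : ℝ)|) ^ κ ≤ |(a : ℝ) + b * x + d * y|) :
    LM ![1, x, y] := by
  refine ⟨κ, min c 1, lt_min hc one_pos, fun p hp H hH hb => ?_⟩
  have hs : ∑ i, (p i : ℝ) * ![1, x, y] i = (p 0 : ℝ) + p 1 * x + p 2 * y := by
    rw [Fin.sum_univ_three]
    simp only [Matrix.cons_val_zero, Matrix.cons_val_one, Matrix.cons_val, mul_one]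
  rw [hs]
  by_cases h0 : p 1 ≠ 0 ∨ p 2 ≠ 0
  · have h1 := h (p 0) (p 1) (p 2) h0
    have h2 : max |(p 1 : ℝ)| |(p 2 : ℝ)| ≤ H := max_le (hb 1) (hb 2)
    have h3 : 0 < max |(p 1 : ℝ)| |(p 2 : ℝ)| := by
      rcases h0 with h0 | h0
      · exact lt_max_of_lt_left (abs_pos.2 (by exact_mod_cast h0))
      · exact lt_max_of_lt_right (abs_pos.2 (by exact_mod_cast h0))
    rw [div_le_iff₀ (by positivity)] at h1
    refine (min_le_left _ _).trans (h1.trans ?_)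
    rw [mul_comm]
    exact mul_le_mul_of_nonneg_right (pow_le_pow_left₀ h3.le h2 κ) (abs_nonneg _)
  · push Not at h0
    have h1 : p 0 ≠ 0 := by
      intro h1
      apply hp
      funext i
      fin_cases i
      · exact h1
      · exact h0.1
      · exact h0.2
    rw [h0.1, h0.2, Int.cast_zero, zero_mul, zero_mul, add_zero, add_zero]
    have h2 : (1 : ℝ) ≤ |(p 0 : ℝ)| := by
      have : 1 ≤ |p 0| := Int.one_le_abs h1
      exact_mod_cast this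
    have h3 : (1 : ℝ) ≤ H ^ κ := one_le_pow₀ hH
    exact (min_le_right _ _).trans (by nlinarith)

theorem lm_pi_zeta : LM ![1, Real.pi ^ 2, ∑' n : ℕ, 1 / ((n : ℝ) + 1) ^ 3] := by
  obtain ⟨κ, -, c, hc, h⟩ := Pool.Agent.TH647.NR.meas_pi_zeta
  exact lm_of_meas hc h

theorem lm_zeta_pi4 : LM ![1, ∑' n : ℕ, 1 / ((n : ℝ) + 1) ^ 3, Real.pi ^ 4] := by
  obtain ⟨c, hc, h⟩ := Pool.Agent.TH647.NR.meas_zeta_pi4
  exact lm_of_meas hc h

/-- `ζ(2)ζ(3), ζ(2), ζ(4)` -/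
theorem lm_product : LM ![(∑' n : ℕ, 1 / ((n : ℝ) + 1) ^ 2) * ∑' n : ℕ, 1 / ((n : ℝ) + 1) ^ 3,
    ∑' n : ℕ, 1 / ((n : ℝ) + 1) ^ 2, ∑' n : ℕ, 1 / ((n : ℝ) + 1) ^ 4] := by
  have h2 : ∑' n : ℕ, 1 / ((n : ℝ) + 1) ^ 2 = Real.pi ^ 2 / 6 := by
    have h1 := (hasSum_nat_add_iff' 1).2 hasSum_zeta_two
    rw [Finset.sum_range_one] at h1
    simp only [Nat.cast_zero, ne_eq, OfNat.ofNat_ne_zero, not_false_eq_true, zero_pow, div_zero,
      sub_zero] at h1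
    refine HasSum.tsum_eq (h1.congr_fun fun n => ?_)
    push_cast
    rfl
  have h4 : ∑' n : ℕ, 1 / ((n : ℝ) + 1) ^ 4 = Real.pi ^ 4 / 90 := by
    have h1 := (hasSum_nat_add_iff' 1).2 hasSum_zeta_four
    rw [Finset.sum_range_one] at h1
    simp only [Nat.cast_zero, ne_eq, OfNat.ofNat_ne_zero, not_false_eq_true, zero_pow, div_zero,
      sub_zero] at h1
    refine HasSum.tsum_eq (h1.congr_fun fun n => ?_)
    push_cast
    rfl
  rw [h2, h4]
  obtain ⟨z, hz⟩ : ∃ z : ℝ, z = ∑' n : ℕ, 1 / ((n : ℝ) + 1) ^ 3 := ⟨_, rfl⟩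
  have h := lm_pi_zeta
  rw [← hz] at h ⊢
  refine h.map 15 (by norm_num) (fun p => ![15 * p 1, p 2, 15 * p 0]) ?_ ?_
    (Real.pi ^ 2 / 90) (by positivity) ?_
  · intro p hp h0
    apply hp
    have a0 := congrFun h0 0
    have a1 := congrFun h0 1
    have a2 := congrFun h0 2
    simp only [Matrix.cons_val_zero, Matrix.cons_val_one, Matrix.cons_val, Pi.zero_apply] at a0 a1 a2
    funext i
    fin_cases i
    · change p 0 = 0
      omega
    · change p 1 = 0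
      omega
    · change p 2 = 0
      omega
  · intro p H hb i
    have hH : 0 ≤ H := (abs_nonneg _).trans (hb 0)
    fin_cases i
    · change |((15 * p 1 : ℤ) : ℝ)| ≤ _
      push_cast
      rw [abs_mul, abs_of_pos (by norm_num : (0 : ℝ) < 15)]
      exact mul_le_mul_of_nonneg_left (hb 1) (by norm_num)
    · change |((p 2 : ℤ) : ℝ)| ≤ _
      have := hb 2
      push_cast
      linarith
    · change |((15 * p 0 : ℤ) : ℝ)| ≤ _
      push_cast
      rw [abs_mul, abs_of_pos (by norm_num : (0 : ℝ) < 15)]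
      exact mul_le_mul_of_nonneg_left (hb 0) (by norm_num)
  · intro p
    rw [Fin.sum_univ_three, Fin.sum_univ_three]
    simp only [Matrix.cons_val_zero, Matrix.cons_val_one, Matrix.cons_val]
    push_cast
    ring

end Pool.Agent.Run7.h123.LC
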