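import Mathlib
import Pool.Agent.Run7.h123.LC.LinG
import Pool.Agent.TH50.DQ.MeasK

set_option autoImplicit false

/-!
# Measures of linear independence: `1, log 2, π ^ 2` and `1, log 2, 6 (log 2) ^ 2 - π ^ 2`
-/

namespace Pool.Agent.Run7.h123.LC

theorem lm_log_pi : LM ![1, Real.log 2, Real.pi ^ 2] := by
  obtain ⟨c, hc, h⟩ := Pool.Agent.LP.MS.measure
  exact lm_three hc (κ := 223) h

theorem lm_log_li : LM ![1, Real.log 2, 6 * Real.log 2 ^ 2 - Real.pi ^ 2] := by
  obtain ⟨c, hc, h⟩ := Pool.Agent.TH50.DQ.MeaT.measure_two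
  have h1 : ∑' k : ℕ, (1 / 2 : ℝ) ^ (k + 1) / ((k : ℝ) + 1) ^ 2 =
      Real.pi ^ 2 / 12 - Real.log 2 ^ 2 / 2 := Pool.Agent.TH89.DL.dilog_half
  rw [h1] at h
  have h2 : LM ![1, Real.log 2, Real.pi ^ 2 / 12 - Real.log 2 ^ 2 / 2] :=
    lm_three hc (κ := 3000) fun a b d hbd => h b d a hbd
  refine h2.map 12 (by norm_num) (fun p => ![p 0, p 1, -(12 * p 2)]) ?_ ?_ 1 one_ne_zero ?_
  · intro p hp h0
    apply hp
    have a0 := congrFun h0 0
    have a1 := congrFun h0 1
    have a2 := congrFun h0 2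
    simp only [Matrix.cons_val_zero, Matrix.cons_val_one, Matrix.cons_val, Pi.zero_apply] at a0 a1 a2
    funext i
    fin_cases i
    · exact a0
    · exact a1
    · change p 2 = 0
      omega
  · intro p H hb i
    have hH : 0 ≤ H := (abs_nonneg _).trans (hb 0)
    fin_cases i
    · change |((p 0 : ℤ) : ℝ)| ≤ _
      have := hb 0
      push_cast
      linarith
    · change |((p 1 : ℤ) : ℝ)| ≤ _
      have := hb 1
      push_cast
      linarith
    · change |((-(12 * p 2) : ℤ) : ℝ)| ≤ _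
      push_cast
      rw [abs_neg, abs_mul, abs_of_pos (by norm_num : (0 : ℝ) < 12)]
      exact mul_le_mul_of_nonneg_left (hb 2) (by norm_num)
  · intro p
    rw [Fin.sum_univ_three, Fin.sum_univ_three]
    simp only [Matrix.cons_val_zero, Matrix.cons_val_one, Matrix.cons_val]
    push_cast
    ring

end Pool.Agent.Run7.h123.LC
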