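import Mathlib
import Pool.Agent.Run7.h123.LC.LinN

set_option autoImplicit false

/-!
# Numbers with a measure of linear independence: products of dimensions over several fields
-/

namespace Pool.Agent.Run7.h123.LC

open Filter Topology
open Pool.Agent.TH932.Abs Pool.Agent.TH932.Germs Pool.Agent.TH932.Chi
open Pool.Agent.TH796.AL Pool.Agent.TH932.Words Pool.Agent.TH796.AL.Strong
open Pool.Agent.TH796.AL.Final Pool.Agent.TH796.AL.TwoB Pool.Agent.TH796.AL.Grp
open Pool.Agent.TH796.AL.Nv Pool.Agent.TH796.AL.Ai Pool.Agent.TH796.AL.Lin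
open Pool.Agent.TH796.AL.AlgA Pool.Agent.TH796.AL.Alg

/-- **Several fields.** -/
theorem lm_many {n : ℕ} {x : Fin n → ℝ} (h : LM x) {S : Set ℕ} (hS : S.Infinite)
    {r : ℕ} (hr : 2 ≤ r) {Γ : Fin r → Subgroup ℚˣ} (hΓ : GIndep Γ)
    {F : Fin r → Subfield ℝ} (hF : ∀ i, F i ≤ Fl S (Γ i)) {W : ∀ i, Submodule (F i) ℝ}
    (hW : ∀ i, FiniteDimensional (F i) (W i)) (hx : ∀ i j, x j ∈ W i) :
    n ^ (r - 1) ≤ r ^ (r - 1) * ∏ i, Module.finrank (F i) (W i) := by
  classical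
  obtain ⟨Y, hY⟩ : ∃ Y : Finset ℝ, Y = Finset.univ.image x := ⟨_, rfl⟩
  obtain ⟨m, B, L, hL, X, hX1, hs⟩ := represent hS hF hW Y (fun i y hy => by
    rw [hY, Finset.mem_coe, Finset.mem_image] at hy
    obtain ⟨j, -, rfl⟩ := hy
    exact hx i j)
  have hv := vindep B hΓ
  obtain ⟨Z, hZ1, hZc, hZ2⟩ := transfer_many (B := B) (hL := hL) r hr
    (fun j => if h : j < r then VS B (Γ ⟨j, h⟩) else ⊥) (fun j hj => by
      simp only [dif_pos hj]
      refine (hv ⟨j, hj⟩).mono_right ?_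
      refine iSup₂_le fun i hi => ?_
      rw [dif_pos (hi.trans hj)]
      refine le_iSup₂_of_le (⟨i, hi.trans hj⟩ : Fin r) ?_ le_rfl
      intro h0
      rw [Fin.mk.injEq] at h0
      omega)
    Y (fun j => if h : j < r then X ⟨j, h⟩ else ∅) (fun j hj => by
      rw [dif_pos hj, dif_pos hj]
      exact hs ⟨j, hj⟩)
  rw [hY] at hZ1 hZ2
  have h1 := card_of_lm h hZ1 hZ2
  refine (Nat.pow_le_pow_left h1 (r - 1)).trans (hZc.trans (le_of_eq ?_))
  congr 1
  rw [Finset.prod_range]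
  refine Finset.prod_congr rfl fun i _ => ?_
  rw [dif_pos i.2, ← hX1 i]

end Pool.Agent.Run7.h123.LC
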