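import Mathlib
import Pool.Agent.Run7.h123.LC.Meas

set_option autoImplicit false

/-!
# Algebraically independent polynomials in numbers with a measure have a measure
-/

namespace Pool.Agent.Run7.h123.LC

open MvPolynomial

/-- **Polynomials in numbers with a measure.** -/
theorem Meas.poly {ι κ : Type} [Fintype κ] {x : ι → ℝ} (hx : Meas x) (Q : κ → MvPolynomial ι ℤ)
    (hQ : AlgebraicIndependent ℤ Q) : Meas (fun k => aeval x (Q k)) := by
  classical
  intro D
  -- degree bound
  obtain ⟨q, hq⟩ : ∃ q : ℕ, ∀ k, (Q k).totalDegree ≤ q :=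
    ⟨∑ k, (Q k).totalDegree, fun k =>
      Finset.single_le_sum (f := fun k => (Q k).totalDegree) (fun _ _ => Nat.zero_le _)
        (Finset.mem_univ k)⟩
  -- the monomials of degree at most `D`
  let g : (κ → Fin (D + 1)) → (κ →₀ ℕ) := fun k => Finsupp.equivFunOnFinite.symm fun i => (k i : ℕ)
  have hg : Function.Injective g := by
    intro k l h
    funext i
    have h1 := DFunLike.congr_fun h i
    exact Fin.ext h1
  set 𝓜 : Finset (κ →₀ ℕ) := Finset.univ.map ⟨g, hg⟩ with h𝓜
  let q' : (κ →₀ ℕ) → MvPolynomial ι ℤ := fun s => s.prod fun k e => Q k ^ e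
  set C : ℝ := 1 + ∑ s ∈ 𝓜, ∑ u ∈ (q' s).support, |(((q' s).coeff u : ℤ) : ℝ)| with hC
  have hC1 : 1 ≤ C := by
    have : 0 ≤ ∑ s ∈ 𝓜, ∑ u ∈ (q' s).support, |(((q' s).coeff u : ℤ) : ℝ)| :=
      Finset.sum_nonneg fun _ _ => Finset.sum_nonneg fun _ _ => abs_nonneg _
    linarith
  obtain ⟨r, c, hr, hc, hm⟩ := hx (q * D)
  refine ⟨r, c * C ^ (-r), hr, by positivity, fun P hP hD H hH => ?_⟩
  have hH1 : 1 ≤ H := by
    obtain ⟨s, hs⟩ := MvPolynomial.ne_zero_iff.1 hP
    refine le_trans ?_ (hH s)
    exact_mod_cast Int.one_le_abs hs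
  have hsupp : P.support ⊆ 𝓜 := by
    intro s hs
    have hdeg : ∀ i, s i < D + 1 := by
      intro i
      have h2 := MvPolynomial.le_totalDegree hs
      rw [Finsupp.sum_fintype _ _ (fun _ => rfl)] at h2
      have h3 : s i ≤ ∑ j, s j :=
        Finset.single_le_sum (f := fun j => s j) (fun _ _ => Nat.zero_le _) (Finset.mem_univ i)
      omega
    refine Finset.mem_map.2 ⟨fun i => ⟨s i, hdeg i⟩, Finset.mem_univ _, ?_⟩
    ext i
    rfl
  set R : MvPolynomial ι ℤ := aeval Q P with hR
  have hRsum : R = ∑ s ∈ P.support, MvPolynomial.C (P.coeff s) * q' s := by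
    rw [hR]
    conv_lhs => rw [P.as_sum, map_sum]
    refine Finset.sum_congr rfl fun s _ => ?_
    rw [aeval_monomial]
    rfl
  have hR0 : R ≠ 0 := by
    intro h0
    exact hP (hQ (h0.trans (map_zero _).symm))
  have hRdeg : R.totalDegree ≤ q * D := by
    rw [hRsum]
    refine MvPolynomial.totalDegree_finsetSum_le fun s hs => ?_
    refine (totalDegree_mul _ _).trans ?_
    rw [totalDegree_C, zero_add]
    refine (totalDegree_finset_prod _ _).trans ?_
    have h2 := MvPolynomial.le_totalDegree hs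
    calc ∑ k ∈ s.support, (Q k ^ s k).totalDegree ≤ ∑ k ∈ s.support, s k * q := by
          refine Finset.sum_le_sum fun k _ => (totalDegree_pow _ _).trans ?_
          exact Nat.mul_le_mul_left _ (hq k)
      _ = q * (s.sum fun _ e => e) := by
          rw [← Finset.sum_mul, mul_comm]
          rfl
      _ ≤ q * D := Nat.mul_le_mul_left _ (h2.trans hD)
  have hRH : ∀ u, |((R.coeff u : ℤ) : ℝ)| ≤ C * H := by
    intro u
    rw [hRsum, coeff_sum]
    push_cast
    refine (Finset.abs_sum_le_sum_abs _ _).trans ?_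
    calc ∑ s ∈ P.support, |(((MvPolynomial.C (P.coeff s) * q' s).coeff u : ℤ) : ℝ)|
        ≤ ∑ s ∈ P.support, H * ∑ u ∈ (q' s).support, |(((q' s).coeff u : ℤ) : ℝ)| := by
          refine Finset.sum_le_sum fun s _ => ?_
          rw [coeff_C_mul]
          push_cast
          rw [abs_mul]
          refine mul_le_mul (hH s) ?_ (abs_nonneg _) (by linarith)
          by_cases hu : u ∈ (q' s).support
          · exact Finset.single_le_sum (f := fun u => |(((q' s).coeff u : ℤ) : ℝ)|)
              (fun _ _ => abs_nonneg _) hu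
          · rw [notMem_support_iff.1 hu, Int.cast_zero, abs_zero]
            exact Finset.sum_nonneg fun _ _ => abs_nonneg _
      _ ≤ ∑ s ∈ 𝓜, H * ∑ u ∈ (q' s).support, |(((q' s).coeff u : ℤ) : ℝ)| :=
          Finset.sum_le_sum_of_subset_of_nonneg hsupp fun s _ _ =>
            mul_nonneg (by linarith) (Finset.sum_nonneg fun _ _ => abs_nonneg _)
      _ ≤ C * H := by
          rw [← Finset.mul_sum, hC]
          nlinarith
  have h1 := hm R hR0 hRdeg (C * H) hRH
  have hval : aeval x R = aeval (fun k => aeval x (Q k)) P := by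
    rw [hR, ← AlgHom.comp_apply, comp_aeval]
  rw [hval, Real.mul_rpow (by linarith) (by linarith)] at h1
  rw [mul_assoc]
  exact h1

end Pool.Agent.Run7.h123.LC
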