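import Mathlib
import Pool.Agent.Run7.h123.LC.Gen

set_option autoImplicit false

/-!
# Exponentials: algebraic independence and linear independence of the exponents
-/

namespace Pool.Agent.Run7.h123.LC

open AlgebraicIndependent

variable {F : Type} [Field F] [Algebra F ℝ]

lemma mem_cl_iff {C : Set ℝ} {z : ℝ} :
    z ∈ (matroid F ℝ).closure C ↔ IsAlgebraic (Algebra.adjoin F C) z := by
  rw [matroid_closure_eq]
  exact Iff.rfl

/-- the exponents whose exponentials are algebraic over `C` -/
noncomputable def expo (F : Type) [Field F] [Algebra F ℝ] (C : Set ℝ) : Submodule ℚ ℝ where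
  carrier := {γ | Real.exp γ ∈ (matroid F ℝ).closure C}
  zero_mem' := by
    change Real.exp 0 ∈ (matroid F ℝ).closure C
    rw [Real.exp_zero, mem_cl_iff]
    exact isAlgebraic_one
  add_mem' := by
    intro a b ha hb
    change Real.exp (a + b) ∈ (matroid F ℝ).closure C
    rw [Real.exp_add, mem_cl_iff]
    exact (mem_cl_iff.1 ha).mul (mem_cl_iff.1 hb)
  smul_mem' := by
    intro q a ha
    change Real.exp (q • a) ∈ (matroid F ℝ).closure C
    rw [mem_cl_iff]
    have h1 : Real.exp (q • a) ^ q.den = Real.exp a ^ q.num := by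
      rw [← Real.exp_nat_mul, ← Real.rpow_intCast, ← Real.exp_mul, mul_comm a]
      congr 1
      rw [Rat.smul_def, ← mul_assoc]
      congr 1
      have := Rat.mul_den_eq_num q
      have h2 : ((q.den : ℚ) : ℝ) * ((q : ℚ) : ℝ) = ((q.num : ℚ) : ℝ) := by
        rw [← Rat.cast_mul, mul_comm, this]
      simpa using h2
    refine IsAlgebraic.of_pow q.den_pos ?_
    rw [h1]
    have h2 := mem_cl_iff.1 ha
    rcases le_or_gt 0 q.num with h3 | h3
    · lift q.num to ℕ using h3 with k
      rw [zpow_natCast]
      exact h2.pow k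
    · obtain ⟨k, hk⟩ := Int.eq_negSucc_of_lt_zero h3
      rw [hk, zpow_negSucc]
      exact (h2.pow _).inv

lemma mem_expo {C : Set ℝ} {γ : ℝ} : γ ∈ expo F C ↔ Real.exp γ ∈ (matroid F ℝ).closure C := Iff.rfl

lemma exp_span {B : Set ℝ} {γ : ℝ} (h : γ ∈ Submodule.span ℚ B) :
    Real.exp γ ∈ (matroid F ℝ).closure (Real.exp '' B) := by
  have h1 : Submodule.span ℚ B ≤ expo F (Real.exp '' B) := by
    refine Submodule.span_le.2 fun b hb => ?_
    exact (matroid F ℝ).subset_closure _ (Set.subset_univ _) ⟨b, hb, rfl⟩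
  exact h1 h

/-- change of the exponents -/
theorem exp_change {n m : ℕ} {α : Fin n → ℝ} (hα : LinearIndependent ℚ α)
    (hx : AlgebraicIndependent F (fun i => Real.exp (α i))) {β : Fin m → ℝ}
    (hβ : LinearIndependent ℚ β) (hβα : ∀ j, β j ∈ Submodule.span ℚ (Set.range α)) :
    AlgebraicIndependent F (fun j => Real.exp (β j)) := by
  classical
  set V := Submodule.span ℚ (Set.range α) with hV
  have hfin : Module.Finite ℚ V := Module.Finite.span_of_finite ℚ (Set.finite_range α)
  have hrank : Module.finrank ℚ V = n := by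
    rw [finrank_span_eq_card hα, Fintype.card_fin]
  have hsub : Set.range β ⊆ (V : Set ℝ) := by
    rintro _ ⟨j, rfl⟩
    exact hβα j
  obtain ⟨b, hb1, hb2, hb3, hb4⟩ := exists_linearIndepOn_id_extension hβ.linearIndepOn_id hsub
  have hcard : b.encard ≤ n := by
    have h1 : LinearIndependent ℚ (fun v : b => (⟨v, hb1 v.2⟩ : V)) := by
      refine LinearIndependent.of_comp V.subtype ?_
      exact hb4
    have hbf : Finite b := h1.finite
    have := Fintype.ofFinite b
    have h2 := h1.fintype_card_le_finrank
    rw [hrank] at h2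
    rw [← Set.coe_fintypeCard]
    exact_mod_cast h2
  set M := matroid F ℝ with hM
  have h1 : (n : ℕ∞) ≤ M.eRk (Real.exp '' b) := by
    have h2 : M.eRk (Set.range fun i => Real.exp (α i)) = n := by
      have h3 : M.Indep (Set.range fun i => Real.exp (α i)) := matroid_indep_iff.2 hx.coe_range
      rw [h3.eRk_eq_encard, Set.encard_eq_coe_toFinset_card, Set.toFinset_range,
        Finset.card_image_of_injective _ hx.injective, Finset.card_univ, Fintype.card_fin]
    rw [← h2, ← M.eRk_closure_eq (Real.exp '' b)]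
    refine M.eRk_mono ?_
    rintro _ ⟨i, rfl⟩
    exact exp_span (hb3 (Submodule.subset_span ⟨i, rfl⟩))
  have hfb : b.Finite := Set.finite_of_encard_le_coe hcard
  have h2 : M.Indep (Real.exp '' b) := by
    rw [M.indep_iff_eRk_eq_encard_of_finite (hfb.image _)]
    refine le_antisymm (M.eRk_le_encard _) ?_
    exact (Set.encard_image_le _ _).trans (hcard.trans h1)
  have h3 : M.Indep (Set.range fun j => Real.exp (β j)) := by
    refine h2.subset ?_
    rintro _ ⟨j, rfl⟩
    exact ⟨β j, hb2 ⟨j, rfl⟩, rfl⟩
  have h4 : Function.Injective fun j => Real.exp (β j) :=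
    Real.exp_injective.comp hβ.injective
  exact (algebraicIndependent_subtype_range h4).1 (matroid_indep_iff.1 h3)

/-- **Products of powers.** Among the numbers `t^(a_j) e^(β_j)` with independent exponents all but
at most `s` are algebraically independent. -/
theorem monomials {n s N : ℕ} {α : Fin n → ℝ} (hα : LinearIndependent ℚ α)
    (hx : AlgebraicIndependent F (fun i => Real.exp (α i))) (t : Fin s → ℝ) (ht : ∀ i, 0 < t i)
    (a : Fin N → Fin s → ℚ) (β : Fin N → ℝ) (hβ : ∀ j, β j ∈ Submodule.span ℚ (Set.range α))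
    (hind : LinearIndependent ℚ (fun j => (a j, β j))) :
    ∃ J : Finset (Fin N), N ≤ J.card + s ∧
      AlgebraicIndependent F (fun j : J => (∏ i, t i ^ (a j i : ℝ)) * Real.exp (β j)) := by
  classical
  set γ : Fin N → ℝ := fun j => ∑ i, (a j i : ℝ) * Real.log (t i) + β j with hγ
  set y : Fin N → ℝ := fun j => (∏ i, t i ^ (a j i : ℝ)) * Real.exp (β j) with hy
  have hyγ : ∀ j, y j = Real.exp (γ j) := by
    intro j
    rw [hy, hγ]
    simp only
    rw [Real.exp_add, Real.exp_sum]
    congr 1
    refine Finset.prod_congr rfl fun i _ => ?_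
    rw [Real.rpow_def_of_pos (ht i), mul_comm]
  obtain ⟨J, hJ1, hJ2⟩ := exists_max (F := F) y
  refine ⟨J, ?_, hJ1⟩
  set M := matroid F ℝ with hM
  -- the kernel
  set A : (Fin N → ℚ) →ₗ[ℚ] (Fin s → ℚ) :=
    { toFun := fun c => ∑ j, c j • a j
      map_add' := fun c d => by simp [add_smul, Finset.sum_add_distrib]
      map_smul' := fun r c => by simp [Finset.smul_sum, mul_smul] } with hA
  have hker : N ≤ Module.finrank ℚ (LinearMap.ker A) + s := by
    have h1 := LinearMap.finrank_range_add_finrank_ker A
    have h2 := Submodule.finrank_le (LinearMap.range A)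
    rw [Module.finrank_fin_fun] at h1 h2
    omega
  set m := Module.finrank ℚ (LinearMap.ker A) with hm
  let bs := Module.finBasis ℚ (LinearMap.ker A)
  set β' : Fin m → ℝ := fun l => ∑ j, ((bs l : Fin N → ℚ) j) • β j with hβ'
  have hβ'V : ∀ l, β' l ∈ Submodule.span ℚ (Set.range α) := fun l =>
    Submodule.sum_mem _ fun j _ => Submodule.smul_mem _ _ (hβ j)
  have hβ'li : LinearIndependent ℚ β' := by
    rw [Fintype.linearIndependent_iff]
    intro g hg
    set c : Fin N → ℚ := ∑ l, g l • (bs l : Fin N → ℚ) with hc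
    have hcA : ∑ j, c j • a j = 0 := by
      have h1 : A c = 0 := by
        rw [hc, map_sum]
        refine Finset.sum_eq_zero fun l _ => ?_
        rw [map_smul, LinearMap.mem_ker.1 (bs l).2, smul_zero]
      exact h1
    have hcβ : ∑ j, c j • β j = 0 := by
      rw [← hg, hc, hβ']
      simp only [Finset.sum_apply, Pi.smul_apply, smul_eq_mul, Finset.sum_smul, Finset.smul_sum,
        mul_smul]
      rw [Finset.sum_comm]
    have h1 : ∑ j, c j • (a j, β j) = 0 := by
      rw [Prod.ext_iff]
      constructor
      · rw [Prod.fst_sum]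
        simpa using hcA
      · rw [Prod.snd_sum]
        simpa using hcβ
    have h2 := (Fintype.linearIndependent_iff.1 hind) c h1
    have h3 : ∑ l, g l • bs l = 0 := by
      apply Subtype.ext
      rw [AddSubmonoidClass.coe_finsetSum]
      simp only [Submodule.coe_smul, ZeroMemClass.coe_zero]
      funext j
      have := h2 j
      rw [hc] at this
      exact this
    exact (Fintype.linearIndependent_iff.1 bs.linearIndependent) g h3
  have h1 := exp_change (F := F) hα hx hβ'li hβ'V
  have h2 : (m : ℕ∞) ≤ M.eRk (y '' J) := by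
    have h3 : M.eRk (Set.range fun l => Real.exp (β' l)) = m := by
      have h3 : M.Indep (Set.range fun l => Real.exp (β' l)) := matroid_indep_iff.2 h1.coe_range
      rw [h3.eRk_eq_encard, Set.encard_eq_coe_toFinset_card, Set.toFinset_range,
        Finset.card_image_of_injective _ h1.injective, Finset.card_univ, Fintype.card_fin]
    rw [← h3, ← M.eRk_closure_eq (y '' J)]
    refine M.eRk_mono ?_
    rintro _ ⟨l, rfl⟩
    have h4 : β' l = ∑ j, ((bs l : Fin N → ℚ) j) • γ j := by
      have h5 : ∑ j, ((bs l : Fin N → ℚ) j) • a j = 0 := LinearMap.mem_ker.1 (bs l).2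
      have h6 : ∑ j, ((bs l : Fin N → ℚ) j) • (∑ i, (a j i : ℝ) * Real.log (t i)) = 0 := by
        have h7 : ∀ i, ∑ j, (((bs l : Fin N → ℚ) j : ℝ)) * (a j i : ℝ) = 0 := by
          intro i
          have h8 := congrFun h5 i
          simp only [Finset.sum_apply, Pi.smul_apply, smul_eq_mul, Pi.zero_apply] at h8
          exact_mod_cast h8
        simp only [Rat.smul_def, Finset.mul_sum]
        rw [Finset.sum_comm]
        refine Finset.sum_eq_zero fun i _ => ?_
        calc ∑ j, (((bs l : Fin N → ℚ) j : ℝ)) * ((a j i : ℝ) * Real.log (t i))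
            = (∑ j, (((bs l : Fin N → ℚ) j : ℝ)) * (a j i : ℝ)) * Real.log (t i) := by
              rw [Finset.sum_mul]
              exact Finset.sum_congr rfl fun j _ => by ring
          _ = 0 := by rw [h7 i, zero_mul]
      rw [hβ', hγ]
      simp only [smul_add, Finset.sum_add_distrib]
      rw [h6, zero_add]
    have h5 : β' l ∈ expo F (y '' J) := by
      rw [h4]
      refine Submodule.sum_mem _ fun j _ => Submodule.smul_mem _ _ ?_
      rw [mem_expo, ← hyγ j, mem_cl_iff]
      exact hJ2 j
    exact h5
  have h3 : M.eRk (y '' J) ≤ J.card := by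
    refine (M.eRk_le_encard _).trans ((Set.encard_image_le _ _).trans ?_)
    rw [Set.encard_coe_eq_coe_finsetCard]
  have h4 : m ≤ J.card := by exact_mod_cast h2.trans h3
  omega

end Pool.Agent.Run7.h123.LC
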