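import Mathlib
import Pool.Agent.Run7.h123.LC.Mult

set_option autoImplicit false

/-!
# The real algebraic closure as a subfield of the real numbers
-/

namespace Pool.Agent.Run7.h123.LC

/-- the field of the real numbers which are algebraic over `K` -/
noncomputable def RC (K : Subfield ℝ) : Subfield ℝ := (algebraicClosure K ℝ).toSubfield

lemma mem_RC {K : Subfield ℝ} {y : ℝ} : y ∈ RC K ↔ IsAlgebraic K y := by
  unfold RC
  exact mem_algebraicClosure_iff

lemma le_RC (K : Subfield ℝ) : K ≤ RC K := fun y hy =>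
  mem_RC.2 (isAlgebraic_algebraMap (⟨y, hy⟩ : K))

lemma ai_RC {K : Subfield ℝ} {ι : Type} {x : ι → ℝ} (h : AlgebraicIndependent (Cl K) x) :
    AlgebraicIndependent (RC K) x := h

/-- **All bases outside a group of rank at most `n`**, with the real algebraic closures -/
theorem exceptional_RC {S : Set ℕ} (hS : S.Infinite) {n : ℕ} {x : Fin n → ℝ} (hx : Meas x)
    (K : ℕ → Subfield ℝ) (hK : ∀ b, 2 ≤ b → K b ≤ Pool.Agent.TH796.AL.Ai.Fl S (rad b)) :
    ∃ (k : ℕ) (c : Fin k → ℕ), k ≤ n ∧ (∀ i, 2 ≤ c i) ∧ MInd c ∧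
      ∀ b : ℕ, 2 ≤ b → MInd (Fin.snoc c b : Fin (k + 1) → ℕ) →
        AlgebraicIndependent (RC (K b)) x :=
  exceptional_gen hS hx rad (fun _ _ hb hi => gindep_rad hb hi) K hK

end Pool.Agent.Run7.h123.LC
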