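import Mathlib
import Pool.Agent.Run7.h123.LC.RC

set_option autoImplicit false

/-!
# Transcendence degrees over subfields of the real numbers: counting
-/

namespace Pool.Agent.Run7.h123.LC

open AlgebraicIndependent

section

variable (F : Type) [Field F] [Algebra F ℝ]

/-- the algebraic closure of `F(A)` in `ℝ` -/
noncomputable def clS (A : Set ℝ) : Subfield ℝ where
  carrier := (matroid F ℝ).closure A
  mul_mem' := fun ha hb => mem_cl_iff.2 ((mem_cl_iff.1 ha).mul (mem_cl_iff.1 hb))
  one_mem' := mem_cl_iff.2 isAlgebraic_one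
  add_mem' := fun ha hb => mem_cl_iff.2 ((mem_cl_iff.1 ha).add (mem_cl_iff.1 hb))
  zero_mem' := mem_cl_iff.2 isAlgebraic_zero
  neg_mem' := fun ha => mem_cl_iff.2 (mem_cl_iff.1 ha).neg
  inv_mem' := fun _ ha => mem_cl_iff.2 (mem_cl_iff.1 ha).inv

variable {F}

lemma mem_clS {A : Set ℝ} {z : ℝ} : z ∈ clS F A ↔ z ∈ (matroid F ℝ).closure A := Iff.rfl

lemma subset_clS (A : Set ℝ) : A ⊆ clS F A := (matroid F ℝ).subset_closure A (Set.subset_univ _)

lemma clS_mono {A B : Set ℝ} (h : A ⊆ B) : clS F A ≤ clS F B :=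
  (matroid F ℝ).closure_subset_closure h

lemma clS_le {A B : Set ℝ} (h : A ⊆ clS F B) : clS F A ≤ clS F B :=
  (matroid F ℝ).closure_subset_closure_of_subset_closure h

lemma algebraMap_mem_clS (A : Set ℝ) (c : F) : algebraMap F ℝ c ∈ clS F A := by
  rw [mem_clS, mem_cl_iff]
  exact isAlgebraic_algebraMap (⟨algebraMap F ℝ c, Subalgebra.algebraMap_mem _ c⟩ :
    Algebra.adjoin F A)

lemma mem_of_alg {A : Set ℝ} {z : ℝ} (h : IsAlgebraic (clS F A) z) : z ∈ clS F A := by
  have h1 : IsAlgebraic (Algebra.adjoin F (clS F A : Set ℝ)) z := by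
    refine IsAlgebraic.ringHom_of_comp_eq (R := clS F A)
      ((clS F A).subtype.codRestrict (Algebra.adjoin F (clS F A : Set ℝ))
        (fun y => Algebra.subset_adjoin y.2)) (RingHom.id ℝ) h ?_ ?_
    · intro a b hab
      have h1 := congrArg (fun v : Algebra.adjoin F (clS F A : Set ℝ) => (v : ℝ)) hab
      exact Subtype.ext h1
    · ext a
      rfl
  have h2 := mem_cl_iff.2 h1
  change z ∈ (matroid F ℝ).closure A
  rw [← (matroid F ℝ).closure_closure A]
  exact h2

/-- lower bound for the number of generators -/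
lemma card_le_of_span {ι : Type} [Fintype ι] {v : ι → ℝ} (hv : AlgebraicIndependent F v)
    {A : Set ℝ} (h : ∀ i, v i ∈ clS F A) : (Fintype.card ι : ℕ∞) ≤ A.encard := by
  classical
  set M := matroid F ℝ with hM
  have h3 : M.eRk (Set.range v) = Fintype.card ι := by
    have h3 : M.Indep (Set.range v) := matroid_indep_iff.2 hv.coe_range
    rw [h3.eRk_eq_encard, Set.encard_eq_coe_toFinset_card, Set.toFinset_range,
      Finset.card_image_of_injective _ hv.injective, Finset.card_univ]
  rw [← h3]
  calc M.eRk (Set.range v) ≤ M.eRk (M.closure A) := by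
        refine M.eRk_mono ?_
        rintro _ ⟨i, rfl⟩
        exact h i
    _ = M.eRk A := M.eRk_closure_eq A
    _ ≤ A.encard := M.eRk_le_encard A

/-- a spanning family of the right cardinality is independent -/
lemma ai_of_span {ι κ : Type} [Fintype ι] [Fintype κ] {v : ι → ℝ} (hv : AlgebraicIndependent F v)
    {u : κ → ℝ} (hcard : Fintype.card κ ≤ Fintype.card ι) (h : ∀ i, v i ∈ clS F (Set.range u)) :
    AlgebraicIndependent F u := by
  classical
  set M := matroid F ℝ with hM
  have h1 := card_le_of_span hv h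
  have h2 : (Set.range u).encard ≤ (Fintype.card κ : ℕ∞) := by
    rw [← Set.image_univ]
    refine (Set.encard_image_le _ _).trans ?_
    rw [Set.encard_univ, ENat.card_eq_coe_fintype_card]
  have h3 : M.eRk (Set.range v) = Fintype.card ι := by
    have h3 : M.Indep (Set.range v) := matroid_indep_iff.2 hv.coe_range
    rw [h3.eRk_eq_encard, Set.encard_eq_coe_toFinset_card, Set.toFinset_range,
      Finset.card_image_of_injective _ hv.injective, Finset.card_univ]
  have h4 : (Fintype.card ι : ℕ∞) ≤ M.eRk (Set.range u) := by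
    rw [← h3, ← M.eRk_closure_eq (Set.range u)]
    refine M.eRk_mono ?_
    rintro _ ⟨i, rfl⟩
    exact h i
  have h5 : M.Indep (Set.range u) := by
    rw [M.indep_iff_eRk_eq_encard_of_finite (Set.finite_range u)]
    refine le_antisymm (M.eRk_le_encard _) (h2.trans (le_trans ?_ h4))
    exact_mod_cast hcard
  have hinj : Function.Injective u := by
    have h6 : Fintype.card κ ≤ (Finset.univ.image u).card := by
      have h7 : ((Fintype.card κ : ℕ) : ℕ∞) ≤ ((Finset.univ.image u).card : ℕ∞) := by
        calc ((Fintype.card κ : ℕ) : ℕ∞) ≤ (Fintype.card ι : ℕ∞) := by exact_mod_cast hcard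
          _ ≤ (Set.range u).encard := h1
          _ = _ := by
              rw [← Set.encard_coe_eq_coe_finsetCard, Finset.coe_image, Finset.coe_univ,
                Set.image_univ]
      exact_mod_cast h7
    rw [← Finset.card_univ] at h6
    have h8 := Finset.card_image_iff.1 (le_antisymm Finset.card_image_le h6)
    rwa [Finset.coe_univ, Set.injOn_univ] at h8
  exact (algebraicIndependent_subtype_range hinj).1 (matroid_indep_iff.1 h5)

end

/-- numbers algebraic over the field generated by `K` and `A` -/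
lemma mem_clS_of {K : Subfield ℝ} {A : Set ℝ} {z : ℝ}
    (h : IsAlgebraic (Subfield.closure ((K : Set ℝ) ∪ A)) z) : z ∈ clS K A := by
  apply mem_of_alg
  refine Pool.Agent.TH796.AL.Alg.alg_mono (Subfield.closure_le.2 ?_) h
  rintro y (hy | hy)
  · exact algebraMap_mem_clS A (⟨y, hy⟩ : K)
  · exact subset_clS A hy

/-- **Counting.** Let the `v i` be algebraically independent over `K`, and algebraic over
`K(e, u)`. At most `card κ + 1 - card ι` of the `u k` are algebraic over `K(e)`. -/
theorem count {F : Type} [Field F] [Algebra F ℝ] {ι κ : Type} [Fintype ι] [Fintype κ] {v : ι → ℝ}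
    (hv : AlgebraicIndependent F v) {u : κ → ℝ} {e : ℝ}
    (h : ∀ i, v i ∈ clS F (insert e (Set.range u))) :
    Fintype.card ι + {k | u k ∈ clS F {e}}.ncard ≤ Fintype.card κ + 1 := by
  classical
  set A : Set κ := {k | u k ∈ clS F {e}} with hA
  have h1 : ∀ i, v i ∈ clS F (insert e (u '' Aᶜ)) := by
    intro i
    refine clS_le ?_ (h i)
    rintro y (rfl | ⟨k, rfl⟩)
    · exact subset_clS _ (Set.mem_insert _ _)
    · by_cases hk : k ∈ A
      · exact clS_mono (Set.singleton_subset_iff.2 (Set.mem_insert _ _)) hk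
      · exact subset_clS _ (Set.mem_insert_of_mem _ ⟨k, hk, rfl⟩)
  have h2 := card_le_of_span hv h1
  have h3 : (insert e (u '' Aᶜ)).encard ≤ ((Aᶜ.ncard + 1 : ℕ) : ℕ∞) := by
    refine (Set.encard_insert_le _ _).trans ?_
    push_cast
    gcongr
    refine (Set.encard_image_le _ _).trans ?_
    rw [Set.Finite.cast_ncard_eq (Set.toFinite _)]
  have h4 : Fintype.card ι ≤ Aᶜ.ncard + 1 := by exact_mod_cast h2.trans h3
  have h5 := Set.ncard_add_ncard_compl A
  rw [Nat.card_eq_fintype_card] at h5
  omega

end Pool.Agent.Run7.h123.LC
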