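import Mathlib
import Pool.Agent.Run7.h123.LC.Span
import Pool.Agent.Run7.h123.LC.PolyM
import Pool.Agent.Run7.h168.Z3.Inc
import Pool.Agent.Run7.h168.Mult.Gam

set_option autoImplicit false

/-!
# Incomplete zeta values over the fields of low complexity
-/

namespace Pool.Agent.Run7.h123.LC

open Pool.Agent.R352.E Pool.Agent.R352.Q Pool.Agent.N743.SS Run7.h168.Z3

/-- the exceptional bases for a family with a finite index set -/
theorem exceptional_fintype {S : Set ℕ} (hS : S.Infinite) {ι : Type} [Fintype ι] {x : ι → ℝ}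
    (hx : Meas x) (K : ℕ → Subfield ℝ)
    (hK : ∀ b, 2 ≤ b → K b ≤ Pool.Agent.TH796.AL.Ai.Fl S (rad b)) :
    ∃ (k : ℕ) (c : Fin k → ℕ), k ≤ Fintype.card ι ∧ (∀ i, 2 ≤ c i) ∧ MInd c ∧
      ∀ b : ℕ, 2 ≤ b → MInd (Fin.snoc c b : Fin (k + 1) → ℕ) →
        AlgebraicIndependent (RC (K b)) x := by
  have h1 : Meas (x ∘ (Fintype.equivFin ι).symm) := hx.comp _ (Fintype.equivFin ι).symm.injective
  obtain ⟨k, c, hk, hc, hi, h⟩ := exceptional_RC hS h1 K hK
  refine ⟨k, c, hk, hc, hi, fun b hb hbi => ?_⟩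
  have h2 := (h b hb hbi).comp (Fintype.equivFin ι) (Fintype.equivFin ι).injective
  have h3 : (x ∘ (Fintype.equivFin ι).symm) ∘ (Fintype.equivFin ι) = x := by
    funext i
    simp
  rwa [h3] at h2

lemma exp_mem_clS {F : Type} [Field F] [Algebra F ℝ] {A : Set ℝ} {r s : ℚ}
    (h : Real.exp r ∈ clS F A) (hr : r ≠ 0) : Real.exp s ∈ clS F A := by
  have h1 : ((s : ℚ) : ℝ) ∈ Submodule.span ℚ ({(r : ℝ)} : Set ℝ) := by
    rw [Submodule.mem_span_singleton]
    refine ⟨s / r, ?_⟩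
    rw [Rat.smul_def]
    have : (r : ℝ) ≠ 0 := by exact_mod_cast hr
    push_cast
    field_simp
  have h2 := exp_span (F := F) h1
  rw [Set.image_singleton] at h2
  exact clS_le (F := F) (A := {Real.exp r}) (Set.singleton_subset_iff.2 h) h2

/-- **A measure for `e` and the incomplete zeta values.** -/
theorem meas_Z (T : Finset (ℕ × ℚ)) (hT : ∀ p ∈ T, 2 ≤ p.1 ∧ 0 < p.2) : ∃ q : ℕ, 1 ≤ q ∧
    Meas (fun o : Option T => o.elim (Real.exp (-1 / q)) (fun p => Zk p.1.1 p.1.2)) := by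
  classical
  obtain ⟨X, hX⟩ : ∃ X : Finset ℚ, X = T.image Prod.snd := ⟨_, rfl⟩
  have hXm : ∀ p : T, p.1.2 ∈ X := fun p => by
    rw [hX]
    exact Finset.mem_image_of_mem _ p.2
  have hXp : ∀ a ∈ X, 0 < a := by
    intro a ha
    rw [hX, Finset.mem_image] at ha
    obtain ⟨p, hp, rfl⟩ := ha
    exact (hT p hp).2
  obtain ⟨e, -⟩ : ∃ e : X ≃ Fin X.card, e = X.equivFin := ⟨_, rfl⟩
  obtain ⟨q, mm, hq, hmm, hmx⟩ := Pool.Agent.Run7.h168.Mult.common_den
    (fun i : Fin X.card => ((e.symm i : X) : ℚ)) (fun i => hXp _ (e.symm i).2)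
  have hq0 : (q : ℝ) ≠ 0 := by positivity
  have hinj : Function.Injective mm := by
    intro i j hij
    have h1 := hmx i
    rw [hij, hmx j] at h1
    have h2 : ((e.symm j : X) : ℚ) = ((e.symm i : X) : ℚ) := by exact_mod_cast h1
    exact (e.symm.injective (Subtype.ext h2)).symm
  obtain ⟨J, hJ⟩ : ∃ J : ℕ, ∀ p : T, p.1.1 ≤ J :=
    ⟨T.sup Prod.fst, fun p => Finset.le_sup (f := Prod.fst) p.2⟩
  have hmeas := measM_EE J X.card mm hinj hmm hq
  obtain ⟨y, hy⟩ : ∃ y : Option (Fin J × Fin X.card) → ℝ, y = (fun o =>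
      o.elim (Real.exp (-1 / q)) (fun p => EE (p.1 + 1) ((mm p.2 : ℝ) / q))) := ⟨_, rfl⟩
  rw [← hy] at hmeas
  have hmeas' : Meas y := hmeas
  obtain ⟨Q, hQ⟩ : ∃ Q : Option T → MvPolynomial (Option (Fin J × Fin X.card)) ℤ,
      Q = fun o => o.elim (MvPolynomial.X none)
        (fun p => Zp p.1.1 (mm (e ⟨p.1.2, hXm p⟩)) (e ⟨p.1.2, hXm p⟩)) := ⟨_, rfl⟩
  have hval : ∀ o, MvPolynomial.aeval y (Q o) =
      o.elim (Real.exp (-1 / q)) (fun p => Zk p.1.1 p.1.2) := by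
    rintro (_ | p)
    · rw [hQ]
      simp only [Option.elim, MvPolynomial.aeval_X]
      rw [hy]
      rfl
    · rw [hQ, hy]
      simp only [Option.elim]
      have hx := hXp _ (hXm p)
      refine Zp_val p.1.1 (hT p.1 p.2).1 (hJ p) q hq mm _ _ (by exact_mod_cast hx) ?_
      rw [hmx]
      simp
  have hAI : AlgebraicIndependent ℚ
      (fun o : Option T => o.elim (Real.exp (-1 / q)) (fun p => Zk p.1.1 p.1.2)) := by
    refine ai_of_span (AI_sub T hT) le_rfl ?_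
    rintro (_ | p)
    · have h1 : Real.exp ((-1 / q : ℚ) : ℝ) ∈ clS ℚ (Set.range
          fun o : Option T => o.elim (Real.exp (-1 / q)) (fun p => Zk p.1.1 p.1.2)) := by
        refine subset_clS _ ⟨none, ?_⟩
        simp
      have h2 := exp_mem_clS (s := 1) h1 (by
        have : (q : ℚ) ≠ 0 := by exact_mod_cast hq0
        exact div_ne_zero (by norm_num) this)
      simpa using h2
    · exact subset_clS _ ⟨some p, rfl⟩
  refine ⟨q, hq, ?_⟩
  have hfun : (fun o : Option T => o.elim (Real.exp (-1 / q)) (fun p => Zk p.1.1 p.1.2)) =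
      fun o => MvPolynomial.aeval y (Q o) := funext fun o => (hval o).symm
  rw [hfun] at hAI ⊢
  refine hmeas'.poly Q ?_
  have h1 : AlgebraicIndependent ℤ (fun o => MvPolynomial.aeval y (Q o)) :=
    hAI.restrictScalars (RingHom.injective_int (algebraMap ℤ ℚ))
  exact AlgebraicIndependent.of_comp (MvPolynomial.aeval y : MvPolynomial _ ℤ →ₐ[ℤ] ℝ) h1

/-- **All bases outside a group of rank at most `|T| + 1`.** -/
theorem zeta_bases {S : Set ℕ} (hS : S.Infinite) (T : Finset (ℕ × ℚ))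
    (hT : ∀ p ∈ T, 2 ≤ p.1 ∧ 0 < p.2) (K : ℕ → Subfield ℝ)
    (hK : ∀ b, 2 ≤ b → K b ≤ Pool.Agent.TH796.AL.Ai.Fl S (rad b)) :
    ∃ (k : ℕ) (c : Fin k → ℕ), k ≤ T.card + 1 ∧ (∀ i, 2 ≤ c i) ∧ MInd c ∧
      ∀ b : ℕ, 2 ≤ b → MInd (Fin.snoc c b : Fin (k + 1) → ℕ) →
        AlgebraicIndependent (RC (K b))
          (fun o : Option T => o.elim (Real.exp 1) (fun p => Zk p.1.1 p.1.2)) := by
  obtain ⟨q, hq, hm⟩ := meas_Z T hT
  obtain ⟨k, c, hk, hc, hi, h⟩ := exceptional_fintype hS hm K hK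
  have hcard : Fintype.card (Option T) = T.card + 1 := by
    rw [Fintype.card_option, Fintype.card_coe]
  refine ⟨k, c, by rwa [hcard] at hk, hc, hi, fun b hb hbi => ?_⟩
  refine ai_of_span (h b hb hbi) le_rfl ?_
  rintro (_ | p)
  · have h1 : Real.exp ((1 : ℚ) : ℝ) ∈ clS (RC (K b)) (Set.range
        fun o : Option T => o.elim (Real.exp 1) (fun p => Zk p.1.1 p.1.2)) := by
      refine subset_clS _ ⟨none, ?_⟩
      simp
    have h2 := exp_mem_clS (s := -1 / q) h1 one_ne_zero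
    have h3 : (((-1 / q : ℚ)) : ℝ) = -1 / (q : ℝ) := by push_cast; rfl
    rw [h3] at h2
    exact h2
  · exact subset_clS _ ⟨some p, rfl⟩

end Pool.Agent.Run7.h123.LC
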