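import Mathlib
import Pool.Agent.Run7.h123.LC.LinB
import Pool.Agent.Results.MP_c2395a_nt.PlaneDistanceZeta7
import Pool.Agent.Results.MP_c2395a_nt.ZetaFiveMeasureSharp

set_option autoImplicit false

/-!
# `ζ(5)` and `1, ζ(3), ζ(5), ζ(7)`
-/

namespace Pool.Agent.Run7.h123.LC

open Filter Topology
open Pool.Agent.TH796.AL Pool.Agent.TH796.AL.Ai Pool.Agent.TH796.AL.Grp Pool.Agent.TH796.AL.TwoB
open Pool.Agent.TH796.AL.Final

/-- the zeta value -/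
noncomputable def zt (i : ℕ) : ℝ := ∑' n : ℕ, 1 / ((n : ℝ) + 1) ^ i

theorem zeta_five {S : Set ℕ} (hS : S.Infinite) {Γ Δ : Subgroup ℚˣ} (hd : Γ ⊓ Δ = ⊥)
    (h₁ : zt 5 ∈ Fl S Γ) (h₂ : zt 5 ∈ Fl S Δ) : False := by
  obtain ⟨c, hc, h⟩ := Pool.Agent.Results.MP_c2395a_nt.ZetaFiveMeasureSharp.result
  obtain ⟨M0, hM0⟩ := exists_nat_gt (1 / c)
  obtain ⟨M, hM, p, hp⟩ := two_fields hS hd h₁ h₂ 83 M0
  have hMr : 1 / c < M := hM0.trans (by exact_mod_cast hM)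
  have hMpos : (0 : ℝ) < M := lt_trans (by positivity) hMr
  have h1 := h p M (by exact_mod_cast hMpos)
  have h2 : |(∑' n : ℕ, 1 / ((n : ℝ) + 1) ^ 5) - (p : ℝ) / M| * M =
      |(M : ℝ) * zt 5 - p| := by
    unfold zt
    rw [← abs_of_pos hMpos, ← abs_mul, abs_of_pos hMpos]
    congr 1
    field_simp
  have h3 : c / (M : ℝ) ^ 83 * M < 1 / (M : ℝ) ^ 83 := by
    refine lt_of_le_of_lt ?_ hp
    rw [← h2]
    exact mul_le_mul_of_nonneg_right h1 hMpos.le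
  have h4 : 1 < c * M := by
    rw [div_lt_iff₀ hc] at hMr
    linarith
  have h5 : c / (M : ℝ) ^ 83 * M = c * M / (M : ℝ) ^ 83 := by ring
  rw [h5, div_lt_div_iff_of_pos_right (by positivity)] at h3
  linarith

theorem no_plane (h : ∃ θ : ℝ, ∀ κ M0 : ℕ, ∃ M : ℕ, M0 < M ∧ 1 ≤ M ∧
    ∀ y ∈ ({1, zt 3, zt 5, zt 7} : Finset ℝ), ∃ a b : ℤ, |(b : ℝ)| ≤ (M : ℝ) ^ 2 ∧
      |(M : ℝ) * y - (a + θ * b)| < 1 / (M : ℝ) ^ κ) : False := by
  obtain ⟨θ, hθ⟩ := h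
  obtain ⟨c, hc, h⟩ := Pool.Agent.Results.MP_c2395a_nt.PlaneDistanceZeta7.result.1
  obtain ⟨M0, hM0⟩ := exists_nat_gt (1 / c)
  obtain ⟨M, hM, hM1, hap⟩ := hθ 2140 M0
  have hMr : 1 / c < M := hM0.trans (by exact_mod_cast hM)
  have hMpos : (0 : ℝ) < M := lt_trans (by positivity) hMr
  have hM1r : (1 : ℝ) ≤ M := by exact_mod_cast hM1
  obtain ⟨a3, b3, h31, h32⟩ := hap (zt 3) (by simp)
  obtain ⟨a5, b5, h51, h52⟩ := hap (zt 5) (by simp)
  obtain ⟨a7, b7, h71, h72⟩ := hap (zt 7) (by simp)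
  obtain ⟨i, hi, hle⟩ := h M (fun i => if i = 3 then a3 else if i = 5 then a5 else a7)
    (fun i => if i = 3 then b3 else if i = 5 then b5 else b7) θ ((M : ℝ) ^ 2)
    (by exact_mod_cast hMpos) (by nlinarith) (by simpa using h31) (by simpa using h51)
    (by simpa using h71)
  have key : ∀ (x : ℝ) (a b : ℤ), |(M : ℝ) * x - (a + θ * b)| < 1 / (M : ℝ) ^ 2140 →
      c / ((M : ℝ) ^ 2) ^ 1070 ≤ |x - ((a : ℝ) + θ * (b : ℝ)) / M| → False := by
    intro x a b h1 h2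
    have h3 : |x - ((a : ℝ) + θ * (b : ℝ)) / M| * M = |(M : ℝ) * x - (a + θ * b)| := by
      rw [← abs_of_pos hMpos, ← abs_mul, abs_of_pos hMpos]
      congr 1
      field_simp
    have h4 : c / (M : ℝ) ^ 2140 * M < 1 / (M : ℝ) ^ 2140 := by
      refine lt_of_le_of_lt ?_ h1
      rw [← h3]
      refine mul_le_mul_of_nonneg_right ?_ hMpos.le
      rw [← pow_mul] at h2
      exact h2
    have h5 : 1 < c * M := by
      rw [div_lt_iff₀ hc] at hMr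
      linarith
    have h6 : c / (M : ℝ) ^ 2140 * M = c * M / (M : ℝ) ^ 2140 := by ring
    rw [h6, div_lt_div_iff_of_pos_right (by positivity)] at h4
    linarith
  rcases hi with rfl | rfl | rfl
  · exact key (zt 3) a3 b3 h32 (by simpa [zt] using hle)
  · exact key (zt 5) a5 b5 h52 (by simpa [zt] using hle)
  · exact key (zt 7) a7 b7 h72 (by simpa [zt] using hle)

/-- the space spanned by `1, ζ(3), ζ(5), ζ(7)` -/
noncomputable def sp7 (F : Subfield ℝ) : Submodule F ℝ :=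
  Submodule.span F (({1, zt 3, zt 5, zt 7} : Finset ℝ) : Set ℝ)

theorem sp7_two {S : Set ℕ} (hS : S.Infinite) {Γ Δ : Subgroup ℚˣ} (hd : Γ ⊓ Δ = ⊥)
    {F₁ F₂ : Subfield ℝ} (hF₁ : F₁ ≤ Fl S Γ) (hF₂ : F₂ ≤ Fl S Δ) :
    3 ≤ Module.finrank F₁ (sp7 F₁) * Module.finrank F₂ (sp7 F₂) := by
  by_contra hcon
  push Not at hcon
  exact no_plane (plane_two hS hd hF₁ hF₂ (FiniteDimensional.span_finset F₁ _)
    (FiniteDimensional.span_finset F₂ _) hcon (Finset.mem_insert_self _ _)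
    Submodule.subset_span Submodule.subset_span)

theorem sp7_three {S : Set ℕ} (hS : S.Infinite) {Γ : Fin 3 → Subgroup ℚˣ} (hΓ : GIndep Γ)
    {F : Fin 3 → Subfield ℝ} (hF : ∀ i, F i ≤ Fl S (Γ i)) :
    ¬ ∀ i, Module.finrank (F i) (sp7 (F i)) < 3 := by
  intro hcon
  exact no_plane (plane_three hS hΓ hF (W := fun i => sp7 (F i))
    (fun i => FiniteDimensional.span_finset (F i) _) hcon (Finset.mem_insert_self _ _)
    (fun i => Submodule.subset_span))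

end Pool.Agent.Run7.h123.LC
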