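import Mathlib
import Pool.Agent.Run7.h123.LC.Meas
import Pool.Agent.Run7.h838.LW.Trs

set_option autoImplicit false

/-!
# The measure of algebraic independence in the theorem of Lindemann and Weierstrass
-/

namespace Pool.Agent.Run7.h123.LC

/-- **Exponentials of linearly independent real algebraic numbers have a measure of algebraic
independence.** -/
theorem meas_exp {ι : Type} [Fintype ι] (α : ι → ℝ) (hα : ∀ i, IsAlgebraic ℚ (α i))
    (hli : LinearIndependent ℚ α) : Meas (fun i => Real.exp (α i)) := by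
  classical
  intro D
  set a : (ι → Fin (D + 1)) → ℂ := fun k => ∑ i, ((k i : ℕ) : ℂ) * (α i : ℂ) with ha
  have haα : ∀ i, IsAlgebraic ℚ ((α i : ℝ) : ℂ) := fun i =>
    (hα i).algebraMap
  have halg : ∀ k, IsAlgebraic ℚ (a k) := by
    intro k
    rw [ha, ← mem_algebraicClosure_iff]
    exact sum_mem fun i _ => mul_mem (natCast_mem _ _) (mem_algebraicClosure_iff.2 (haα i))
  have hinj : Function.Injective a := by
    intro k l hkl
    have h1 : ∑ i, (((k i : ℕ) : ℝ) - ((l i : ℕ) : ℝ)) * α i = 0 := by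
      have h2 : ((∑ i, ((k i : ℕ) : ℝ) * α i : ℝ) : ℂ) = ((∑ i, ((l i : ℕ) : ℝ) * α i : ℝ) : ℂ) := by
        push_cast
        exact hkl
      have h3 := Complex.ofReal_injective h2
      simp only [sub_mul, Finset.sum_sub_distrib]
      rw [h3, sub_self]
    rw [Fintype.linearIndependent_iff] at hli
    have h2 := hli (fun i => ((k i : ℕ) : ℚ) - ((l i : ℕ) : ℚ)) (by
      rw [← h1]
      refine Finset.sum_congr rfl fun i _ => ?_
      rw [Algebra.smul_def]
      simp)
    funext i
    have h3 := h2 i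
    rw [sub_eq_zero] at h3
    exact Fin.ext (by exact_mod_cast h3)
  obtain ⟨κ, c, hκ, hc, hm⟩ := Run7.h838.LW.measure_alg a halg hinj
  refine ⟨κ, c, hκ, hc, fun P hP hD H hH => ?_⟩
  obtain ⟨s0, hs0⟩ := MvPolynomial.ne_zero_iff.1 hP
  have hH1 : 1 ≤ H := by
    refine le_trans ?_ (hH s0)
    exact_mod_cast Int.one_le_abs hs0
  have hdeg : ∀ s ∈ P.support, ∀ i, s i < D + 1 := by
    intro s hs i
    have h2 := MvPolynomial.le_totalDegree hs
    rw [Finsupp.sum_fintype _ _ (fun _ => rfl)] at h2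
    have h3 : s i ≤ ∑ j, s j :=
      Finset.single_le_sum (f := fun j => s j) (fun _ _ => Nat.zero_le _) (Finset.mem_univ i)
    omega
  let g : (ι → Fin (D + 1)) → (ι →₀ ℕ) := fun k => Finsupp.equivFunOnFinite.symm fun i => (k i : ℕ)
  have hg : Function.Injective g := by
    intro k l h
    funext i
    have h1 := DFunLike.congr_fun h i
    exact Fin.ext h1
  have hgs : ∀ s ∈ P.support, ∃ k, g k = s := by
    intro s hs
    refine ⟨fun i => ⟨s i, hdeg s hs i⟩, ?_⟩
    ext i
    rfl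
  have h1 := hm (fun k => P.coeff (g k)) H hH1 (fun k => hH _) (by
    obtain ⟨k, hk⟩ := hgs s0 (MvPolynomial.mem_support_iff.2 hs0)
    intro h
    have h2 := congrFun h k
    simp only [hk] at h2
    exact hs0 h2)
  have hval : (((MvPolynomial.aeval (fun i => Real.exp (α i)) P : ℝ)) : ℂ) =
      ∑ k, ((P.coeff (g k) : ℤ) : ℂ) * Complex.exp (a k) := by
    conv_lhs => rw [P.as_sum, map_sum]
    have h2 : ∑ k, ((P.coeff (g k) : ℤ) : ℂ) * Complex.exp (a k) =
        ∑ s ∈ (Finset.univ : Finset (ι → Fin (D + 1))).map ⟨g, hg⟩,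
          ((P.coeff s : ℤ) : ℂ) * Complex.exp (∑ i, ((s i : ℕ) : ℂ) * (α i : ℂ)) := by
      rw [Finset.sum_map]
      rfl
    have h3 : ∑ s ∈ P.support, ((P.coeff s : ℤ) : ℂ) * Complex.exp (∑ i, ((s i : ℕ) : ℂ) * (α i : ℂ)) =
        ∑ s ∈ (Finset.univ : Finset (ι → Fin (D + 1))).map ⟨g, hg⟩,
          ((P.coeff s : ℤ) : ℂ) * Complex.exp (∑ i, ((s i : ℕ) : ℂ) * (α i : ℂ)) := by
      refine Finset.sum_subset (fun s hs => ?_) (fun s _ hs => ?_)
      · obtain ⟨k, hk⟩ := hgs s hs
        exact Finset.mem_map.2 ⟨k, Finset.mem_univ _, hk⟩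
      · rw [MvPolynomial.notMem_support_iff.1 hs, Int.cast_zero, zero_mul]
    rw [h2, ← h3]
    rw [Complex.ofReal_sum]
    refine Finset.sum_congr rfl fun s _ => ?_
    rw [MvPolynomial.aeval_monomial, Complex.exp_sum, Finsupp.prod_fintype _ _ (fun i => pow_zero _)]
    push_cast
    rw [eq_intCast]
    push_cast
    congr 1
    refine Finset.prod_congr rfl fun i _ => ?_
    rw [Complex.exp_nat_mul]
  rw [← hval] at h1
  rwa [Complex.norm_real, Real.norm_eq_abs] at h1

end Pool.Agent.Run7.h123.LC
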