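import Mathlib
import Pool.Agent.Run7.h123.LC.Span
import Pool.Agent.Run7.h103.PF.Defs

set_option autoImplicit false

/-!
# The deficiency inequality at finite scales
-/

namespace Pool.Agent.Run7.h123.LC

open Filter Topology Finset
open Pool.Agent.TH796.AL Pool.Agent.TH932.Words Pool.Agent.TH796.AL.Final
open Pool.Agent.TH796.AL.TwoB Pool.Agent.TH796.AL.Ai Pool.Agent.TH796.AL.Alg
open Pool.Agent.TH796.AL.Grp Pool.Agent.TH796.Fin
open Pool.Agent.Run7.h103.PF

lemma gindep_single {r : ℕ} {b : Fin r → ℕ} (hb : ∀ i, 2 ≤ b i) (h : MInd b) :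
    GIndep (fun i => GA {b i}) := by
  intro g hg hp
  refine gindep_cls hb h g (fun i => ?_) hp
  refine Subgroup.closure_mono ?_ (hg i)
  rintro v ⟨d, hd, hv⟩
  refine ⟨d, ?_, hv⟩
  rw [Set.mem_singleton_iff.1 hd]
  exact ⟨hb i, not_indep_self (b i)⟩

open AlgebraicIndependent in
/-- **The deficiency inequality for predictable numbers**, for fixed sets of numbers. -/
theorem deficiency_key {r n : ℕ} (b : Fin r → ℕ) (hb : ∀ i, 2 ≤ b i) (hi : MInd b) {x : Fin n → ℝ}
    (hx : Meas x) {κ : Type} [Finite κ] (y : κ → ℝ) (u : Fin r → κ → ℕ → ℤ) {C : ℝ}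
    (hu : ∀ i k, Simple (b i) C (u i k)) (A : ℝ) (G : Fin r → Set κ)
    (h : ∀ R : ℕ, ∃ M K : ℕ, R * (K + 1) ≤ M ∧
      ∀ i, ∀ k ∈ G i, Good (b i) (u i k) (y k) M K (A * Real.log (M / (K + 1))))
    (T : Fin r → Finset (Fin n))
    (hT : ∀ i j, x j ∈ (matroid ℤ ℝ).closure ((Subfield.closure (y '' G i) : Set ℝ) ∪ x '' (T i))) :
    r * n ≤ n + ∑ i, (T i).card := by
  classical
  have : ∀ i, Fintype (G i) := fun i => Fintype.ofFinite _
  obtain ⟨m, B, L, hL, h1⟩ := key (ι := Σ i, G i) (fun p => b p.1) (fun p => hb _)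
    (fun p => u p.1 p.2) (fun p => hu _ _) (fun p => y p.2) A (fun R => by
      obtain ⟨M, K, hMK, hG⟩ := h R
      exact ⟨M, K, hMK, fun p => hG p.1 p.2 p.2.2⟩)
  have h2 : ∀ i, Subfield.closure (y '' G i) ≤ FV B hL (VS B (GA {b i})) := by
    intro i
    refine Subfield.closure_le.2 ?_
    rintro _ ⟨k, hk, rfl⟩
    exact Subfield.subset_closure (h1 ⟨i, ⟨k, hk⟩⟩)
  refine deficiency (R := RG hL B) (fun i => UF B hL (VS B (GA {b i})))
    (fun k => UF B hL (⨆ j : Fin r, ⨆ (_ : j ≠ k), VS B (GA {b j}))) (fun k => ?_)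
    (fun j k hjk => ?_) (fun j => kst hL (x j)) (ai_kst hx) T (fun i j => ?_)
  · exact ld (vindep B (gindep_single hb hi) k).symm
  · exact UF_mono (le_iSup₂_of_le j hjk.ne le_rfl)
  · have h3 := closure_map (R := RG hL B) (kst hL) (hT i j)
    refine (matroid (RG hL B) (FF hL)).closure_subset_closure ?_ h3
    rintro _ ⟨z, hz, rfl⟩
    rcases hz with h4 | ⟨l, hl, rfl⟩
    · exact Or.inl ⟨z, h2 i h4, rfl⟩
    · exact Or.inr ⟨l, hl, rfl⟩

lemma MInd.injective {r : ℕ} {b : Fin r → ℕ} (hb : ∀ i, 2 ≤ b i) (h : MInd b) :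
    Function.Injective b := by
  classical
  intro i j hij
  by_contra hne
  have h1 := h (Pi.single i 1 - Pi.single j 1) (by
    have h2 : ∀ l, (b l : ℚ) ≠ 0 := fun l => by
      have := hb l
      exact_mod_cast (by omega : b l ≠ 0)
    simp only [Pi.sub_apply, zpow_sub₀ (h2 _), Finset.prod_div_distrib]
    have h3 : ∀ l : Fin r, ∏ k, (b k : ℚ) ^ (Pi.single l (1 : ℤ) : Fin r → ℤ) k = b l := by
      intro l
      rw [Finset.prod_eq_single l]
      · rw [Pi.single_eq_same, zpow_one]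
      · intro k _ hk
        rw [Pi.single_eq_of_ne hk, zpow_zero]
      · intro hl
        exact absurd (Finset.mem_univ l) hl
    rw [h3, h3, hij, div_self (h2 j)])
  have h2 := congrFun h1 i
  simp only [Pi.sub_apply, Pi.single_eq_same, Pi.single_eq_of_ne hne, Pi.zero_apply] at h2
  omega

/-- the numbers which are predictable in base `b` -/
def predictable {κ : Type} (b : ℕ) (u : κ → ℕ → ℤ) (y : κ → ℝ) (M K : ℕ) (E : ℝ) : Set κ :=
  {k | ¬ Unpredictable b (u k) (y k) M K E}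

lemma good_of {κ : Type} {b : ℕ} {u : κ → ℕ → ℤ} {y : κ → ℝ} {M K : ℕ} {E : ℝ} {k : κ}
    (h : k ∈ predictable b u y M K E) : Good b (u k) (y k) M K E := by
  by_contra hcon
  exact h (unpredictable_of hcon)

/-- **The deficiency inequality at finite scales.** -/
theorem finite_scale {n : ℕ} {x : Fin n → ℝ} (hx : Meas x) {κ : Type} [Finite κ] (y : κ → ℝ)
    (F : Finset ℕ) (hF : ∀ b ∈ F, 2 ≤ b) (u : ℕ → κ → ℕ → ℤ) {C : ℝ}
    (hu : ∀ b ∈ F, ∀ k, SimpleWord b C (u b k)) (A : ℝ) :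
    ∃ R : ℕ, ∀ M K : ℕ, R * (K + 1) ≤ M → ∃ T : ℕ → Finset (Fin n),
      (∀ b, AlgebraicIndependent (Subfield.closure
          (y '' predictable b (u b) y M K (A * Real.log (M / (K + 1))))) fun j : T b => x j) ∧
      ∀ (r : ℕ) (b : Fin r → ℕ), (∀ i, b i ∈ F) → MInd b → r * n ≤ n + ∑ i, (T (b i)).card := by
  classical
  have := Fintype.ofFinite κ
  choose T hT1 hT2 using fun G : Set κ => exists_max (F := Subfield.closure (y '' G)) x
  have hex : ∀ t : Σ r : Fin (F.card + 1), (Fin r → F) × (F → Set κ), ∃ R : ℕ,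
      MInd (fun i => (t.2.1 i : ℕ)) →
      (¬ (t.1 : ℕ) * n ≤ n + ∑ i, (T (t.2.2 (t.2.1 i))).card) → ∀ M K : ℕ, R * (K + 1) ≤ M →
      (∀ i, ∀ k ∈ t.2.2 (t.2.1 i), Good (t.2.1 i) (u (t.2.1 i) k) (y k) M K
        (A * Real.log (M / (K + 1)))) → False := by
    rintro ⟨r, b, G⟩
    by_cases hi : MInd (fun i => (b i : ℕ))
    · by_cases hle : (r : ℕ) * n ≤ n + ∑ i, (T (G (b i))).card
      · exact ⟨0, fun _ h => absurd hle h⟩
      · by_contra hcon
        push Not at hcon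
        refine hle (deficiency_key (fun i => (b i : ℕ)) (fun i => hF _ (b i).2) hi hx y
          (fun i => u (b i)) (fun i k => simple_of (hu _ (b i).2 k)) A (fun i => G (b i))
          (fun R => ?_) (fun i => T (G (b i))) (fun i j => closure_of_adjoin (hT2 (G (b i)) j)))
        obtain ⟨-, -, M, K, hMK, h, -⟩ := hcon R
        exact ⟨M, K, hMK, h⟩
    · exact ⟨0, fun h => absurd h hi⟩
  choose R hR using hex
  refine ⟨Finset.univ.sup R, fun M K hMK => ?_⟩
  refine ⟨fun b => T (predictable b (u b) y M K (A * Real.log (M / (K + 1)))),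
    fun b => hT1 _, fun r b hb hi => ?_⟩
  by_contra hcon
  have hr : r < F.card + 1 := by
    have h1 := MInd.injective (fun i => hF _ (hb i)) hi
    have h2 : (Finset.univ.image b).card ≤ F.card := Finset.card_le_card (by
      intro c hc
      obtain ⟨i, -, rfl⟩ := Finset.mem_image.1 hc
      exact hb i)
    rw [Finset.card_image_of_injective _ h1, Finset.card_univ, Fintype.card_fin] at h2
    omega
  refine hR ⟨⟨r, hr⟩, fun i => ⟨b i, hb i⟩,
    fun c => predictable c (u c) y M K (A * Real.log (M / (K + 1)))⟩ hi hcon M K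
    ((Nat.mul_le_mul_right _ (Finset.le_sup (Finset.mem_univ _))).trans hMK) (fun i k hk => ?_)
  exact good_of hk

/-- **All bases of `F` outside a group of rank at most `n`**, at finite scales -/
theorem finite_scale_bases {n : ℕ} {x : Fin n → ℝ} (hx : Meas x) {κ : Type} [Finite κ] (y : κ → ℝ)
    (F : Finset ℕ) (hF : ∀ b ∈ F, 2 ≤ b) (u : ℕ → κ → ℕ → ℤ) {C : ℝ}
    (hu : ∀ b ∈ F, ∀ k, SimpleWord b C (u b k)) (A : ℝ) :
    ∃ R : ℕ, ∀ M K : ℕ, R * (K + 1) ≤ M → ∃ (k : ℕ) (c : Fin k → ℕ), k ≤ n ∧ (∀ i, c i ∈ F) ∧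
      MInd c ∧ ∀ b ∈ F, MInd (Fin.snoc c b : Fin (k + 1) → ℕ) →
        AlgebraicIndependent (Subfield.closure
          (y '' predictable b (u b) y M K (A * Real.log (M / (K + 1))))) x := by
  classical
  obtain ⟨R, hR⟩ := finite_scale hx y F hF u hu A
  refine ⟨R, fun M K hMK => ?_⟩
  obtain ⟨T, hT1, hT2⟩ := hR M K hMK
  set P : ℕ → Prop := fun k => ∃ c : Fin k → ℕ, (∀ i, c i ∈ F) ∧ MInd c ∧
    ∀ i, (T (c i)).card < n with hP
  have hle : ∀ k, P k → k ≤ n := by
    rintro k ⟨c, hc, hi, hb⟩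
    have h1 := hT2 k c hc hi
    have h2 : ∑ i, ((T (c i)).card + 1) ≤ ∑ _i : Fin k, n := Finset.sum_le_sum fun i _ => hb i
    rw [Finset.sum_add_distrib, Finset.sum_const, Finset.sum_const, Finset.card_univ,
      Fintype.card_fin, smul_eq_mul, smul_eq_mul, mul_one] at h2
    omega
  have h0 : P 0 := ⟨Fin.elim0, fun i => i.elim0, fun k _ => Subsingleton.elim _ _,
    fun i => i.elim0⟩
  obtain ⟨k, hk, hmax⟩ : ∃ k, P k ∧ ∀ l, P l → l ≤ k := by
    refine ⟨Nat.findGreatest P n, Nat.findGreatest_spec (Nat.zero_le n) h0, fun l hl => ?_⟩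
    exact Nat.le_findGreatest (hle l hl) hl
  obtain ⟨c, hc, hi, hb⟩ := hk
  refine ⟨k, c, hle k ⟨c, hc, hi, hb⟩, hc, hi, fun b hb2 hind => ?_⟩
  by_contra hbad
  have h1 : P (k + 1) := by
    refine ⟨Fin.snoc c b, fun i => ?_, hind, fun i => ?_⟩
    · refine Fin.lastCases ?_ (fun j => ?_) i
      · rw [Fin.snoc_last]
        exact hb2
      · rw [Fin.snoc_castSucc]
        exact hc j
    · refine Fin.lastCases ?_ (fun j => ?_) i
      · rw [Fin.snoc_last]
        by_contra hlt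
        exact hbad (full (hT1 b) (not_lt.1 hlt))
      · rw [Fin.snoc_castSucc]
        exact hb j
  have := hmax _ h1
  omega

end Pool.Agent.Run7.h123.LC
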