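import Mathlib
import Pool.Agent.Run7.h123.LC.Pred

set_option autoImplicit false

/-!
# The numbers `t + x`, `t - x`, `t x`, `t / x` over a field
-/

namespace Pool.Agent.Run7.h123.LC

open Pool.Agent.Run7.h103.PF

/-- the numbers `t + x`, `t - x`, `t x`, `t / x` -/
noncomputable def four (t x : ℝ) : Fin 4 → ℝ := ![t + x, t - x, t * x, t / x]

lemma four_lt {t x : ℝ} (h0 : t ≠ 0) (hx : x ≠ 0) (h1 : t ≠ x) (h2 : t ≠ -x) {K : Subfield ℝ}
    {i j : Fin 4} (hij : i < j) (hi : four t x i ∈ K) (hj : four t x j ∈ K) :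
    IsAlgebraic K x := by
  unfold four at hi hj
  have h2K : (2 : ℝ) ∈ K := by
    have := natCast_mem K 2
    exact_mod_cast this
  fin_cases i <;> fin_cases j <;> first | exact absurd hij (by decide) | skip
  · have ha : t + x ∈ K := hi
    have hb : t - x ∈ K := hj
    refine alg_mem ?_
    have e1 : x = ((t + x) - (t - x)) / 2 := by ring
    rw [e1]
    exact K.div_mem (K.sub_mem ha hb) h2K
  · have ha : t + x ∈ K := hi
    have hb : t * x ∈ K := hj
    exact alg_quad (K.neg_mem ha) hb (by ring)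
  · have ha : t + x ∈ K := hi
    have hb : t / x ∈ K := hj
    refine alg_mem ?_
    have h3 : 1 + t / x ≠ 0 := by
      intro h
      apply h2
      field_simp at h
      linarith
    have e1 : x = (t + x) / (1 + t / x) := by
      rw [eq_div_iff h3]
      field_simp
      ring
    rw [e1]
    exact K.div_mem ha (K.add_mem K.one_mem hb)
  · have ha : t - x ∈ K := hi
    have hb : t * x ∈ K := hj
    exact alg_quad ha (K.neg_mem hb) (by ring)
  · have ha : t - x ∈ K := hi
    have hb : t / x ∈ K := hj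
    refine alg_mem ?_
    have h3 : t / x - 1 ≠ 0 := by
      intro h
      apply h1
      field_simp at h
      linarith
    have e1 : x = (t - x) / (t / x - 1) := by
      rw [eq_div_iff h3]
      field_simp
    rw [e1]
    exact K.div_mem ha (K.sub_mem hb K.one_mem)
  · have ha : t * x ∈ K := hi
    have hb : t / x ∈ K := hj
    have h3 : t / x ≠ 0 := div_ne_zero h0 hx
    refine alg_quad K.zero_mem (K.neg_mem (K.div_mem ha hb)) ?_
    field_simp
    ring

lemma four_pair {t x : ℝ} (h0 : t ≠ 0) (hx : x ≠ 0) (h1 : t ≠ x) (h2 : t ≠ -x) {K : Subfield ℝ}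
    {i j : Fin 4} (hij : i ≠ j) (hi : four t x i ∈ K) (hj : four t x j ∈ K) :
    IsAlgebraic K x := by
  rcases lt_or_gt_of_ne hij with h | h
  · exact four_lt h0 hx h1 h2 h hi hj
  · exact four_lt h0 hx h1 h2 h hj hi

/-- `x` from `t` -/
lemma four_x {t x : ℝ} (h0 : t ≠ 0) (hx : x ≠ 0) {K : Subfield ℝ} {i : Fin 4}
    (hi : four t x i ∈ K) (ht : t ∈ K) : x ∈ K := by
  unfold four at hi
  fin_cases i
  · have ha : t + x ∈ K := hi
    have e1 : x = (t + x) - t := by ring
    rw [e1]
    exact K.sub_mem ha ht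
  · have ha : t - x ∈ K := hi
    have e1 : x = t - (t - x) := by ring
    rw [e1]
    exact K.sub_mem ht ha
  · have ha : t * x ∈ K := hi
    have e1 : x = (t * x) / t := by
      field_simp
    rw [e1]
    exact K.div_mem ha ht
  · have ha : t / x ∈ K := hi
    have e1 : x = t / (t / x) := by
      field_simp
    rw [e1]
    exact K.div_mem ht ha

/-- `t` from `x` -/
lemma four_t {t x : ℝ} (hx : x ≠ 0) {K : Subfield ℝ} {i : Fin 4}
    (hi : four t x i ∈ K) (ht : x ∈ K) : t ∈ K := by
  unfold four at hi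
  fin_cases i
  · have ha : t + x ∈ K := hi
    have e1 : t = (t + x) - x := by ring
    rw [e1]
    exact K.sub_mem ha ht
  · have ha : t - x ∈ K := hi
    have e1 : t = (t - x) + x := by ring
    rw [e1]
    exact K.add_mem ha ht
  · have ha : t * x ∈ K := hi
    have e1 : t = (t * x) / x := by
      field_simp
    rw [e1]
    exact K.div_mem ha ht
  · have ha : t / x ∈ K := hi
    have e1 : t = (t / x) * x := by
      field_simp
    rw [e1]
    exact K.mul_mem ha ht

/-- **Counting.** Let the `x j`, `j ∈ T`, be algebraically independent over `K`. At most one `j` in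
`T` is such that one of the four numbers is in `K`, and none if, for some `l`, two of the four
numbers are in `K`. -/
theorem four_count {K : Subfield ℝ} {n : ℕ} {x : Fin n → ℝ} (hx0 : ∀ j, x j ≠ 0) {t : ℝ}
    (h0 : t ≠ 0) (h1 : ∀ j, t ≠ x j ∧ t ≠ -x j) {T : Finset (Fin n)}
    (hT : AlgebraicIndependent K fun j : T => x j) (G : Set (Fin 4 × Fin n))
    (hG : ∀ p ∈ G, four t (x p.2) p.1 ∈ K) :
    {j | ∃ a, (a, j) ∈ G}.ncard ≤ (n - T.card) + 1 ∧
    ((∃ j a a', a ≠ a' ∧ (a, j) ∈ G ∧ (a', j) ∈ G) →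
      {j | ∃ a, (a, j) ∈ G}.ncard ≤ n - T.card) := by
  classical
  set J : Set (Fin n) := {j | ∃ a, (a, j) ∈ G} with hJ
  have hK : ∀ (A : Set ℝ) (z : ℝ), z ∈ K → z ∈ clS K A := fun A z hz =>
    algebraMap_mem_clS A (⟨z, hz⟩ : K)
  have hTc : T.card ≤ n := by
    have := Finset.card_le_univ T
    rwa [Fintype.card_fin] at this
  -- the cardinality of `J` outside of `T`
  have hJT : (J \ T).ncard ≤ n - T.card := by
    have h2 : J \ T ⊆ ((Finset.univ \ T : Finset (Fin n)) : Set (Fin n)) := by
      intro j hj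
      simp only [Finset.coe_sdiff, Finset.coe_univ]
      exact ⟨Set.mem_univ _, hj.2⟩
    refine (Set.ncard_le_ncard h2 (Set.toFinite _)).trans ?_
    rw [Set.ncard_coe_finset, Finset.card_sdiff_of_subset (Finset.subset_univ _), Finset.card_univ,
      Fintype.card_fin]
  have hsplit : J.ncard ≤ (J \ T).ncard + (J ∩ T).ncard := by
    have h2 := Set.ncard_union_le (J \ T) (J ∩ T)
    rwa [Set.sdiff_union_inter] at h2
  -- independent numbers in `J`
  have hind : ∀ A : Set ℝ, (∀ j ∈ J, x j ∈ clS K A) → ((J ∩ T).ncard : ℕ∞) ≤ A.encard := by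
    intro A hA
    have h2 : AlgebraicIndependent K (fun j : (J ∩ T : Set (Fin n)) => x j) :=
      hT.comp (fun j : (J ∩ T : Set (Fin n)) => (⟨j, j.2.2⟩ : T)) (fun a b hab => by
        have := congrArg (fun v : T => (v : Fin n)) hab
        exact Subtype.ext this)
    have : Fintype (J ∩ T : Set (Fin n)) := Fintype.ofFinite _
    have h3 := card_le_of_span h2 (A := A) (fun j => hA _ j.2.1)
    rwa [← Nat.card_eq_fintype_card] at h3
  constructor
  · have h2 := hind {t} (fun j hj => by
      obtain ⟨a, ha⟩ := hj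
      have h3 := hK {t} _ (hG _ ha)
      exact four_x h0 (hx0 j) h3 (subset_clS _ rfl))
    rw [Set.encard_singleton] at h2
    have h3 : (J ∩ T).ncard ≤ 1 := by exact_mod_cast h2
    omega
  · rintro ⟨l, a, a', haa, ha, ha'⟩
    have h3 : x l ∈ clS K (∅ : Set ℝ) := by
      apply mem_of_alg
      have h4 := four_pair h0 (hx0 l) (h1 l).1 (h1 l).2 haa (hG _ ha) (hG _ ha')
      exact Pool.Agent.TH796.AL.Alg.alg_mono (fun z hz => hK _ z hz) h4
    have h4 : t ∈ clS K (∅ : Set ℝ) := four_t (hx0 l) (hK _ _ (hG _ ha)) h3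
    have h2 := hind ∅ (fun j hj => by
      obtain ⟨b, hb⟩ := hj
      exact four_x h0 (hx0 j) (hK _ _ (hG _ hb)) h4)
    rw [Set.encard_empty] at h2
    have h5 : (J ∩ T).ncard = 0 := by
      have h6 : ((J ∩ T).ncard : ℕ∞) = 0 := le_antisymm h2 bot_le
      exact_mod_cast h6
    omega

end Pool.Agent.Run7.h123.LC
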