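import Mathlib
import Pool.Agent.Run7.h123.LC.Meas
import Pool.Agent.TH796.AL.Ai3

set_option autoImplicit false

/-!
# One number with a transcendence measure; polynomials in numbers with a measure
-/

namespace Pool.Agent.Run7.h123.LC

open Pool.Agent.TH456.TM

/-- a transcendence measure is a measure of algebraic independence of one number
(the proof follows `Pool.Agent.Run7.h168.Mult.measM_unit`) -/
theorem meas_one {x : ℝ} (hx : MeasT (x : ℂ)) : Meas (fun _ : Fin 1 => x) := by
  intro D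
  obtain ⟨κ, c, hκ, hc, h⟩ := hx D
  refine ⟨κ + 1, c, by linarith, hc, fun P hP hPD H hH => ?_⟩
  have hH1 : 1 ≤ H := by
    obtain ⟨s, hs⟩ := MvPolynomial.ne_zero_iff.1 hP
    refine le_trans ?_ (hH s)
    exact_mod_cast Int.one_le_abs hs
  have hH0 : 0 < H := by linarith
  obtain ⟨p, hp⟩ : ∃ p : Polynomial ℤ, p = MvPolynomial.uniqueAlgEquiv ℤ (Fin 1) P := ⟨_, rfl⟩
  have hp0 : p ≠ 0 := by
    rw [hp]
    exact fun h0 => hP ((MvPolynomial.uniqueAlgEquiv ℤ (Fin 1)).injective (h0.trans (map_zero _).symm))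
  have hc1 : ∀ k, p.coeff k = P.coeff (Finsupp.single 0 k) := fun k => by
    rw [hp]
    exact MvPolynomial.coeff_uniqueAlgEquiv ℤ P k
  have hdeg : p.natDegree ≤ D := by
    rw [Polynomial.natDegree_le_iff_coeff_eq_zero]
    intro k hk
    rw [hc1]
    by_contra hne
    have h1 := MvPolynomial.le_totalDegree (MvPolynomial.mem_support_iff.2 hne)
    rw [Finsupp.sum_single_index rfl] at h1
    omega
  have hv : Polynomial.aeval (x : ℂ) p = ((MvPolynomial.aeval (fun _ : Fin 1 => x) P : ℝ) : ℂ) := by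
    have h1 : Polynomial.aeval (x : ℂ) p = ((Polynomial.aeval x p : ℝ) : ℂ) := by
      have := Polynomial.aeval_algebraMap_apply ℂ x p
      exact this
    rw [h1]
    congr 1
    rw [hp, Polynomial.aeval_def, MvPolynomial.aeval_def]
    exact MvPolynomial.eval₂_const_uniqueAlgEquiv
  have h2 := h p hp0 hdeg H hH1 (fun j => by rw [hc1]; exact hH _)
  rw [hv, Complex.norm_real, Real.norm_eq_abs] at h2
  have h3 : c * H ^ (-κ) ≤ |MvPolynomial.aeval (fun _ : Fin 1 => x) P| := by
    have h4 : 0 < H ^ κ := by positivity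
    have h5 : H ^ κ * (c * H ^ (-κ)) = c := by
      rw [Real.rpow_neg hH0.le]
      field_simp
    have h6 : H ^ κ * (c * H ^ (-κ)) ≤ H ^ κ * |MvPolynomial.aeval (fun _ : Fin 1 => x) P| := by
      rw [h5]; exact h2
    exact le_of_mul_le_mul_left h6 h4
  refine le_trans ?_ h3
  have h7 : H ^ (-(κ + 1)) ≤ H ^ (-κ) := Real.rpow_le_rpow_of_exponent_le hH1 (by linarith)
  exact mul_le_mul_of_nonneg_left h7 hc.le

end Pool.Agent.Run7.h123.LC
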