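import Mathlib

set_option autoImplicit false

/-!
# Polynomials in one arbitrary number over a polynomial ring embedded in the real numbers
-/

namespace Pool.Agent.Run7.h123.LC

open Polynomial

/-- **The relations of one number** over an embedded factorial domain form a principal ideal. -/
theorem principal {R : Type} [CommRing R] [IsDomain R] [UniqueFactorizationMonoid R]
    (φ : R →+* ℝ) (hφ : Function.Injective φ) (t : ℝ) :
    ∃ G : R[X], (G = 0 ∨ Irreducible G) ∧ ∀ F : R[X], eval₂ φ t F = 0 ↔ G ∣ F := by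
  classical
  set I : Ideal R[X] := RingHom.ker (eval₂RingHom φ t) with hI
  have hmem : ∀ F : R[X], F ∈ I ↔ eval₂ φ t F = 0 := fun F => by
    rw [hI, RingHom.mem_ker]
    rfl
  by_cases hbot : I = ⊥
  · refine ⟨0, Or.inl rfl, fun F => ?_⟩
    rw [← hmem, hbot, zero_dvd_iff, Ideal.mem_bot]
  · have hprime : I.IsPrime := RingHom.ker_isPrime _
    obtain ⟨G, hGI, hG⟩ := hprime.exists_mem_prime_of_ne_bot hbot
    have hirr : Irreducible G := hG.irreducible
    have hG0 := (hmem G).1 hGI
    have hdeg : G.natDegree ≠ 0 := by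
      intro h0
      obtain ⟨a, ha⟩ := natDegree_eq_zero.1 h0
      rw [← ha, eval₂_C] at hG0
      have : a = 0 := hφ (by rw [hG0, map_zero])
      rw [this, map_zero] at ha
      exact hG.ne_zero ha.symm
    have hprim : G.IsPrimitive := hirr.isPrimitive hdeg
    set K := FractionRing R
    let ψ : K →+* ℝ := IsFractionRing.lift hφ
    have hψ : ψ.comp (algebraMap R K) = φ := by
      ext a
      exact IsFractionRing.lift_algebraMap hφ a
    have hev : ∀ F : R[X], eval₂ ψ t (F.map (algebraMap R K)) = eval₂ φ t F := by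
      intro F
      rw [eval₂_map, hψ]
    have hGK : Irreducible (G.map (algebraMap R K)) :=
      hprim.irreducible_iff_irreducible_map_fraction_map.1 hirr
    refine ⟨G, Or.inr hirr, fun F => ⟨fun hF => ?_, ?_⟩⟩
    · refine hprim.dvd_of_fraction_map_dvd_fraction_map (K := K) ?_
      by_contra hnd
      have hcop : IsCoprime (G.map (algebraMap R K)) (F.map (algebraMap R K)) :=
        (hGK.coprime_iff_not_dvd).2 hnd
      obtain ⟨a, b, hab⟩ := hcop
      have h1 := congrArg (eval₂ ψ t) hab
      rw [eval₂_add, eval₂_mul, eval₂_mul, hev, hev, hG0, hF, mul_zero, mul_zero, add_zero,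
        eval₂_one] at h1
      exact zero_ne_one h1
    · rintro ⟨H, rfl⟩
      rw [eval₂_mul, hG0, zero_mul]

variable {F : Type} [Field F] [Algebra F ℝ] {n : ℕ} {x : Fin n → ℝ}

lemma aeval_inj (hx : AlgebraicIndependent F x) {P Q : MvPolynomial (Fin n) F}
    (h : MvPolynomial.aeval x P = MvPolynomial.aeval x Q) : P = Q := hx h

/-- sums -/
lemma sums (hx : AlgebraicIndependent F x) {t : ℝ} {P P' : MvPolynomial (Fin n) F} {y y' : F}
    (h : t + MvPolynomial.aeval x P = algebraMap F ℝ y)
    (h' : t + MvPolynomial.aeval x P' = algebraMap F ℝ y') : P - P' = MvPolynomial.C (y - y') := by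
  apply aeval_inj hx
  rw [map_sub, MvPolynomial.aeval_C, map_sub]
  linarith

/-- products -/
lemma products (hx : AlgebraicIndependent F x) {t : ℝ} (ht : t ≠ 0)
    {Q Q' : MvPolynomial (Fin n) F} (hQ : Q ≠ 0) {y y' : F}
    (h : t * MvPolynomial.aeval x Q = algebraMap F ℝ y)
    (h' : t * MvPolynomial.aeval x Q' = algebraMap F ℝ y') :
    ∃ c : F, Q' = MvPolynomial.C c * Q := by
  have hQ0 : MvPolynomial.aeval x Q ≠ 0 := by
    intro h0
    exact hQ (aeval_inj hx (h0.trans (map_zero _).symm))
  have hy : y ≠ 0 := by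
    rintro rfl
    rw [map_zero] at h
    exact (mul_ne_zero ht hQ0) h
  refine ⟨y' / y, ?_⟩
  apply aeval_inj hx
  rw [map_mul, MvPolynomial.aeval_C, map_div₀, ← h, ← h']
  field_simp

/-- a sum and a product -/
lemma sum_product (hx : AlgebraicIndependent F x) {t : ℝ} (ht : t ≠ 0)
    {P Q : MvPolynomial (Fin n) F} (hQ : ∀ c : F, Q ≠ MvPolynomial.C c) {y y' : F}
    (h : t + MvPolynomial.aeval x P = algebraMap F ℝ y)
    (h' : t * MvPolynomial.aeval x Q = algebraMap F ℝ y') : False := by
  have h1 : (MvPolynomial.C y - P) * Q = MvPolynomial.C y' := by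
    apply aeval_inj hx
    rw [map_mul, map_sub, MvPolynomial.aeval_C, MvPolynomial.aeval_C, ← h, ← h']
    ring
  have hQ0 : Q ≠ 0 := fun h0 => hQ 0 (by rw [h0, map_zero])
  have hQ1 : MvPolynomial.aeval x Q ≠ 0 := by
    intro h0
    exact hQ0 (aeval_inj hx (h0.trans (map_zero _).symm))
  have hy' : y' ≠ 0 := by
    rintro rfl
    rw [map_zero] at h'
    exact (mul_ne_zero ht hQ1) h'
  have h2 : IsUnit Q := by
    refine isUnit_of_mul_isUnit_right (x := MvPolynomial.C y - P) ?_
    rw [h1]
    exact (IsUnit.mk0 y' hy').map MvPolynomial.C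
  obtain ⟨c, -, hc⟩ := (MvPolynomial.isUnit_iff_eq_C_of_isReduced).1 h2
  exact hQ c hc

/-- several numbers -/
lemma several (hx : AlgebraicIndependent F x) {s : ℕ} (t : Fin s → ℝ)
    (P : Fin (s + 1) → Fin (s + 1) → MvPolynomial (Fin n) F) (y : Fin (s + 1) → F)
    (h : ∀ j, MvPolynomial.aeval x (P j 0) + ∑ i, MvPolynomial.aeval x (P j i.succ) * t i =
      algebraMap F ℝ (y j)) :
    (Matrix.of fun j i => P j i - if i = 0 then MvPolynomial.C (y j) else 0).det = 0 := by
  set M : Matrix (Fin (s + 1)) (Fin (s + 1)) (MvPolynomial (Fin n) F) :=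
    Matrix.of fun j i => P j i - if i = 0 then MvPolynomial.C (y j) else 0 with hM
  apply aeval_inj hx
  have h1 : (MvPolynomial.aeval x) M.det =
      (((MvPolynomial.aeval x : MvPolynomial (Fin n) F →ₐ[F] ℝ) : MvPolynomial (Fin n) F →+* ℝ).mapMatrix
        M).det := RingHom.map_det _ _
  rw [map_zero, h1, ← Matrix.exists_mulVec_eq_zero_iff]
  refine ⟨Fin.cons 1 t, fun h0 => ?_, ?_⟩
  · have := congrFun h0 0
    simp at this
  · funext j
    rw [Matrix.mulVec, dotProduct, Fin.sum_univ_succ]
    simp only [RingHom.mapMatrix_apply, Matrix.map_apply, hM, Matrix.of_apply, if_true,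
      Fin.cons_zero, Fin.cons_succ, mul_one, Pi.zero_apply, Fin.succ_ne_zero, if_false, sub_zero,
      RingHom.coe_coe, map_sub, MvPolynomial.aeval_C]
    rw [← h j]
    ring

end Pool.Agent.Run7.h123.LC
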