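import Mathlib
import Pool.Agent.Run7.h123.LC.LinM
import Pool.Agent.Run7.h795.UW.Fin3

set_option autoImplicit false

/-!
# Odd zeta values in windows
-/

namespace Pool.Agent.Run7.h123.LC

open Filter Topology

theorem window_of_sim : ∃ K0 : ℕ, ∀ K ≥ K0, ∀ s : ℕ, Odd s → ∀ D : ℕ, 1 ≤ D →
    (D : ℝ) ≤ (1 / 10000) * Real.log (Real.log K) → ∀ W : Set ℝ, Sim D W →
      (1 / 10000) / (D : ℝ) * Real.sqrt (K * Real.log (Real.log K) / Real.log K) ≤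
      (Set.ncard {i : ℕ | s < i ∧ i ≤ K * s ∧ Odd i ∧
        (∑' n : ℕ, 1 / ((n : ℝ) + 1) ^ i) ∉ W} : ℝ) := by
  classical
  obtain ⟨K0, hK0⟩ := Run7.h795.UW.z_sim
  refine ⟨K0, fun K hK s hs D hD1 hDs W hW => ?_⟩
  obtain ⟨q0, hq0⟩ := hK0 K hK s hs D hD1 hDs
  have hfin : ({i : ℕ | s < i ∧ i ≤ K * s ∧ Odd i ∧
      (∑' n : ℕ, 1 / ((n : ℝ) + 1) ^ i) ∈ W}).Finite :=
    (Set.finite_Iic (K * s)).subset fun _ hi => hi.2.1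
  obtain ⟨q, hq, hap⟩ := hW (hfin.toFinset.image fun i : ℕ => ∑' n : ℕ, 1 / ((n : ℝ) + 1) ^ i)
    (by
      intro y hy
      rw [Finset.coe_image] at hy
      obtain ⟨i, hi, rfl⟩ := hy
      rw [Finset.mem_coe, Set.Finite.mem_toFinset] at hi
      exact hi.2.2.2) q0
  refine (hq0 q hq).trans ?_
  have hsub : {j : ℕ | s < j ∧ j ≤ K * s ∧ Odd j ∧ ∀ p : ℤ,
      (q : ℝ) ^ (-(1 / (D : ℝ))) ≤ |(q : ℝ) * (∑' n : ℕ, 1 / ((n : ℝ) + 1) ^ j) - p|} ⊆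
      {i : ℕ | s < i ∧ i ≤ K * s ∧ Odd i ∧ (∑' n : ℕ, 1 / ((n : ℝ) + 1) ^ i) ∉ W} := by
    rintro j ⟨h1, h2, h3, h4⟩
    refine ⟨h1, h2, h3, fun hj => ?_⟩
    obtain ⟨p, hp⟩ := hap _ (Finset.mem_image_of_mem _ (hfin.mem_toFinset.2 ⟨h1, h2, h3, hj⟩))
    exact absurd hp (not_lt.2 (h4 p))
  exact_mod_cast Set.ncard_le_ncard hsub ((Set.finite_Iic (K * s)).subset fun _ hi => hi.2.1)

end Pool.Agent.Run7.h123.LC
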