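import Mathlib
import Pool.Agent.Run7.h123.LC.LinW

set_option autoImplicit false

/-!
# Odd zeta values in windows and spaces of dimension up to a multiple of `log K`
-/

namespace Pool.Agent.Run7.h123.LC

open Filter Topology

/-- the choice of the parameters -/
theorem param : ∃ K0 : ℕ, ∀ K ≥ K0, ∀ D : ℕ, 1 ≤ D → (D : ℝ) ≤ Real.log K / 125 → ∃ κ B : ℕ,
    2 * κ + 1 ≤ K ∧ 1 ≤ B ∧ 32 * D * (B * (B + 1)) ≤ κ ∧
    Real.exp (-(31 * D)) * Real.sqrt (K / Real.log K) ≤ B ∧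
    D * (60 + 180 * D * ((B : ℝ) * (B + 1) / κ * (1 + Real.log B))) ≤
      Real.log ((κ : ℝ) / (16 * D * (B * (B + 1)))) := by
  obtain ⟨K1, hK1⟩ := Filter.eventually_atTop.1
    ((Real.tendsto_log_atTop.comp tendsto_natCast_atTop_atTop).eventually_ge_atTop (1000 : ℝ))
  refine ⟨max K1 8, fun K hK D hD hDL => ?_⟩
  obtain ⟨L, hL⟩ : ∃ L : ℝ, L = Real.log K := ⟨_, rfl⟩
  have hL1000 : 1000 ≤ L := by
    rw [hL]
    exact hK1 K ((le_max_left _ _).trans hK)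
  have hK8 : 8 ≤ K := (le_max_right _ _).trans hK
  have hKr : (8 : ℝ) ≤ K := by exact_mod_cast hK8
  have hK0 : (0 : ℝ) < K := by linarith
  have hL0 : 0 < L := by linarith
  have hDr : (1 : ℝ) ≤ D := by exact_mod_cast hD
  rw [← hL] at hDL ⊢
  have hKe : Real.exp L = K := by rw [hL, Real.exp_log hK0]
  obtain ⟨E, hE⟩ : ∃ E : ℝ, E = Real.exp (-(31 * D)) := ⟨_, rfl⟩
  have hE0 : 0 < E := by rw [hE]; exact Real.exp_pos _
  have hEE : E ^ 2 * Real.exp (62 * D) = 1 := by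
    rw [hE, ← Real.exp_nat_mul, ← Real.exp_add]
    rw [show ((2 : ℕ) : ℝ) * -(31 * (D : ℝ)) + 62 * D = 0 by push_cast; ring, Real.exp_zero]
  obtain ⟨X, hX⟩ : ∃ X : ℝ, X = E * Real.sqrt (K / L) := ⟨_, rfl⟩
  rw [← hE, ← hX]
  have hX0 : 0 ≤ X := by rw [hX]; positivity
  have hXX : X ^ 2 = E ^ 2 * (K / L) := by
    rw [hX, mul_pow, Real.sq_sqrt (by positivity)]
  have hLexp : L ≤ Real.exp (L / 2) := by
    have := Real.quadratic_le_exp_of_nonneg (x := L / 2) (by linarith)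
    nlinarith
  have hX1 : 1 ≤ X := by
    have h1 : Real.exp (62 * D) * L ≤ K := by
      calc Real.exp (62 * D) * L ≤ Real.exp (L / 2) * Real.exp (L / 2) :=
            mul_le_mul (Real.exp_le_exp.2 (by linarith)) hLexp hL0.le (Real.exp_pos _).le
        _ = K := by rw [← Real.exp_add, add_halves, hKe]
    have h2 : 1 ≤ X ^ 2 := by
      rw [hXX, ← mul_div_assoc, le_div_iff₀ hL0, one_mul]
      calc L = E ^ 2 * (Real.exp (62 * D) * L) := by rw [← mul_assoc, hEE, one_mul]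
        _ ≤ E ^ 2 * K := mul_le_mul_of_nonneg_left h1 (by positivity)
    nlinarith
  obtain ⟨B, hB⟩ : ∃ B : ℕ, B = ⌈X⌉₊ := ⟨_, rfl⟩
  have hB1 : X ≤ B := by rw [hB]; exact Nat.le_ceil X
  have hB2 : (B : ℝ) < X + 1 := by rw [hB]; exact Nat.ceil_lt_add_one hX0
  have hBn : 1 ≤ B := by
    have : (1 : ℝ) ≤ B := hX1.trans hB1
    exact_mod_cast this
  obtain ⟨κ, hκ⟩ : ∃ κ : ℕ, κ = (K - 1) / 2 := ⟨_, rfl⟩
  have hκ1 : 2 * κ + 1 ≤ K := by omega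
  have hκ2 : (K : ℝ) / 4 ≤ κ := by
    have : K ≤ 4 * κ := by omega
    have : (K : ℝ) ≤ 4 * κ := by exact_mod_cast this
    linarith
  have hκ0 : (0 : ℝ) < κ := by linarith
  have hBB : (B : ℝ) * (B + 1) ≤ 6 * (E ^ 2 * (K / L)) := by
    rw [← hXX]
    have hB0 : (0 : ℝ) ≤ B := Nat.cast_nonneg B
    have h1 : (B : ℝ) ≤ 2 * X := by linarith
    have h2 : (B : ℝ) + 1 ≤ 3 * X := by linarith
    calc (B : ℝ) * (B + 1) ≤ (2 * X) * (3 * X) := mul_le_mul h1 h2 (by linarith) (by linarith)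
      _ = 6 * X ^ 2 := by ring
  -- `D ≤ e^D`
  have hDe : (D : ℝ) ≤ Real.exp D := by
    have := Real.add_one_le_exp (D : ℝ)
    linarith
  have hDE : (D : ℝ) * E ^ 2 * Real.exp (61 * D) ≤ 1 := by
    calc (D : ℝ) * E ^ 2 * Real.exp (61 * D) ≤ Real.exp D * E ^ 2 * Real.exp (61 * D) := by
          gcongr
      _ = E ^ 2 * (Real.exp D * Real.exp (61 * D)) := by ring
      _ = 1 := by rw [← Real.exp_add, show (D : ℝ) + 61 * D = 62 * D by ring, hEE]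
  have h61 : (8640 : ℝ) ≤ Real.exp (61 * D) := by
    have h1 : (2 : ℝ) ^ 61 ≤ Real.exp (61 * D) := by
      have h2 : (2 : ℝ) ≤ Real.exp 1 := by
        have := Real.exp_one_gt_d9
        linarith
      calc (2 : ℝ) ^ 61 ≤ (Real.exp 1) ^ 61 := by gcongr
        _ = Real.exp 61 := by rw [← Real.exp_nat_mul]; norm_num
        _ ≤ Real.exp (61 * D) := Real.exp_le_exp.2 (by linarith)
    have h3 : (8640 : ℝ) ≤ 2 ^ 61 := by norm_num
    linarith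
  have hDE0 : 0 ≤ (D : ℝ) * E ^ 2 := by positivity
  have hDE1 : 8640 * ((D : ℝ) * E ^ 2) ≤ 1 := by
    calc 8640 * ((D : ℝ) * E ^ 2) = (D : ℝ) * E ^ 2 * 8640 := by ring
      _ ≤ (D : ℝ) * E ^ 2 * Real.exp (61 * D) := mul_le_mul_of_nonneg_left h61 hDE0
      _ ≤ 1 := hDE
  have hc : 32 * (D : ℝ) * (B * (B + 1)) ≤ κ := by
    calc 32 * (D : ℝ) * (B * (B + 1)) ≤ 32 * D * (6 * (E ^ 2 * (K / L))) :=
          mul_le_mul_of_nonneg_left hBB (by positivity)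
      _ = 192 * (D * E ^ 2) * (K / L) := by ring
      _ ≤ 1 * (K / L) := by
          apply mul_le_mul_of_nonneg_right _ (by positivity)
          linarith
      _ ≤ K / 4 := by
          rw [one_mul]
          exact div_le_div_of_nonneg_left hK0.le (by norm_num) (by linarith)
      _ ≤ κ := hκ2
  have hc' : 32 * D * (B * (B + 1)) ≤ κ := by exact_mod_cast hc
  have hBκ : B ≤ κ := by
    calc B = 1 * (B * 1) := by ring
      _ ≤ (32 * D) * (B * (B + 1)) := Nat.mul_le_mul (by omega) (Nat.mul_le_mul_left _ (by omega))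
      _ ≤ κ := hc'
  have hBr : (1 : ℝ) ≤ B := by exact_mod_cast hBn
  have hlB0 : 0 ≤ Real.log B := Real.log_nonneg hBr
  have hlB : Real.log B ≤ L := by
    rw [hL]
    exact Real.log_le_log (by linarith) (by exact_mod_cast (show B ≤ K by omega))
  refine ⟨κ, B, hκ1, hBn, hc', hB1, ?_⟩
  have hBBκ : (B : ℝ) * (B + 1) / κ ≤ 24 * E ^ 2 / L := by
    rw [div_le_iff₀ hκ0]
    calc (B : ℝ) * (B + 1) ≤ 6 * (E ^ 2 * (K / L)) := hBB
      _ = 24 * E ^ 2 / L * (K / 4) := by ring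
      _ ≤ 24 * E ^ 2 / L * κ := mul_le_mul_of_nonneg_left hκ2 (by positivity)
  have hY : (B : ℝ) * (B + 1) / κ * (1 + Real.log B) ≤ 48 * E ^ 2 := by
    calc (B : ℝ) * (B + 1) / κ * (1 + Real.log B) ≤ 24 * E ^ 2 / L * (2 * L) :=
          mul_le_mul hBBκ (by linarith) (by linarith) (by positivity)
      _ = 48 * E ^ 2 := by field_simp; ring
  have hleft : (D : ℝ) * (60 + 180 * D * ((B : ℝ) * (B + 1) / κ * (1 + Real.log B))) ≤ 61 * D := by
    have h1 : 180 * (D : ℝ) * ((B : ℝ) * (B + 1) / κ * (1 + Real.log B)) ≤ 1 := by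
      calc 180 * (D : ℝ) * ((B : ℝ) * (B + 1) / κ * (1 + Real.log B))
          ≤ 180 * D * (48 * E ^ 2) := mul_le_mul_of_nonneg_left hY (by positivity)
        _ = 8640 * (D * E ^ 2) := by ring
        _ ≤ 1 := hDE1
    nlinarith
  refine hleft.trans ?_
  have hden : (0 : ℝ) < 16 * D * (B * (B + 1)) := by positivity
  rw [Real.le_log_iff_exp_le (by positivity), le_div_iff₀ hden]
  calc Real.exp (61 * D) * (16 * D * (B * (B + 1)))
      ≤ Real.exp (61 * D) * (16 * D * (6 * (E ^ 2 * (K / L)))) := by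
        apply mul_le_mul_of_nonneg_left _ (Real.exp_pos _).le
        exact mul_le_mul_of_nonneg_left hBB (by positivity)
    _ = 96 * (D * E ^ 2 * Real.exp (61 * D)) * (K / L) := by ring
    _ ≤ 96 * 1 * (K / L) := by
        apply mul_le_mul_of_nonneg_right _ (by positivity)
        linarith
    _ ≤ K / 4 := by
        rw [← mul_div_assoc, div_le_div_iff₀ hL0 (by norm_num)]
        nlinarith
    _ ≤ κ := hκ2

/-- **Odd zeta values in windows, `D ≤ log K / 125`.** -/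
theorem window_large : ∃ K0 : ℕ, ∀ K ≥ K0, ∀ s : ℕ, Odd s → ∀ D : ℕ, 1 ≤ D →
    (D : ℝ) ≤ Real.log K / 125 → ∃ q0 : ℕ, ∀ q : ℕ, q0 ≤ q →
    Real.exp (-(31 * D)) * Real.sqrt (K / Real.log K) ≤
      (Set.ncard {j : ℕ | s < j ∧ j ≤ K * s ∧ Odd j ∧ ∀ p : ℤ,
        (q : ℝ) ^ (-(1 / (D : ℝ))) ≤ |(q : ℝ) * (∑' n : ℕ, 1 / ((n : ℝ) + 1) ^ j) - p|} : ℝ) := by
  obtain ⟨K0, hK0⟩ := param
  refine ⟨K0, fun K hK s hs D hD hDL => ?_⟩
  obtain ⟨κ, B, h1, h2, h3, h4, h5⟩ := hK0 K hK D hD hDL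
  have hfin : ∀ q : ℕ, {j : ℕ | s < j ∧ j ≤ K * s ∧ Odd j ∧ ∀ p : ℤ,
        (q : ℝ) ^ (-(1 / (D : ℝ))) ≤ |(q : ℝ) * (∑' n : ℕ, 1 / ((n : ℝ) + 1) ^ j) - p|}.Finite := fun q =>
    (Set.finite_Iic (K * s)).subset fun i hi => hi.2.1
  rcases Nat.lt_or_ge s 3 with hs3 | hs3
  · have hs1 : s = 1 := by
      obtain ⟨t, ht⟩ := hs
      omega
    subst hs1
    have hDr : (1 : ℝ) ≤ D := by exact_mod_cast hD
    have hBr : (1 : ℝ) ≤ B := by exact_mod_cast h2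
    have hY0 : 0 ≤ (B : ℝ) * (B + 1) / κ * (1 + Real.log B) := by
      have := Real.log_nonneg hBr
      positivity
    obtain ⟨q0, hq0⟩ := Pool.Agent.TH818.SA.t_main κ B D hD h2 h3 (by
      refine le_trans ?_ h5
      apply mul_le_mul_of_nonneg_left _ (by linarith)
      have : (0 : ℝ) ≤ D * ((B : ℝ) * (B + 1) / κ * (1 + Real.log B)) := by positivity
      nlinarith)
    refine ⟨q0, fun q hq => ?_⟩
    obtain ⟨I, hI, hI2⟩ := hq0 q hq
    refine h4.trans ?_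
    have hsub : (I : Set ℕ) ⊆ {j : ℕ | 1 < j ∧ j ≤ K * 1 ∧ Odd j ∧ ∀ p : ℤ,
        (q : ℝ) ^ (-(1 / (D : ℝ))) ≤ |(q : ℝ) * (∑' n : ℕ, 1 / ((n : ℝ) + 1) ^ j) - p|} := by
      intro i hi
      obtain ⟨a1, a2, a3, a4⟩ := hI2 i hi
      exact ⟨by omega, by omega, a3, a4⟩
    have h6 := Set.ncard_le_ncard hsub (hfin q)
    rw [Set.ncard_coe_finset] at h6
    exact_mod_cast hI.trans h6
  · obtain ⟨b, hb⟩ : ∃ b, s = b + 1 := ⟨s - 1, by omega⟩
    have hbe : Even b := by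
      obtain ⟨t, ht⟩ := hs
      exact ⟨t, by omega⟩
    obtain ⟨q0, hq0⟩ := _root_.Run7.h795.UW.z_m2 κ B b D hD h2 hbe (by omega) h3 h5
    refine ⟨q0, fun q hq => ?_⟩
    obtain ⟨I, hI, hI2⟩ := hq0 q hq
    refine h4.trans ?_
    have hsub : ((I.image (· + b) : Finset ℕ) : Set ℕ) ⊆
        {j : ℕ | s < j ∧ j ≤ K * s ∧ Odd j ∧ ∀ p : ℤ,
        (q : ℝ) ^ (-(1 / (D : ℝ))) ≤ |(q : ℝ) * (∑' n : ℕ, 1 / ((n : ℝ) + 1) ^ j) - p|} := by
      intro j hj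
      rw [Finset.mem_coe, Finset.mem_image] at hj
      obtain ⟨i, hi, rfl⟩ := hj
      obtain ⟨a1, a2, a3, a4⟩ := hI2 i hi
      refine ⟨by omega, ?_, a3.add_even hbe, a4⟩
      have e1 : 2 * ((b + 1) * κ) ≤ (b + 1) * (K - 1) := by
        calc 2 * ((b + 1) * κ) = (b + 1) * (2 * κ) := by ring
          _ ≤ (b + 1) * (K - 1) := Nat.mul_le_mul_left _ (by omega)
      have e2 : K * s = (b + 1) * (K - 1) + (b + 1) := by
        obtain ⟨m, rfl⟩ : ∃ m, K = m + 1 := ⟨K - 1, by omega⟩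
        rw [hb, Nat.add_sub_cancel]; ring
      rw [e2]
      omega
    have h7 := Set.ncard_le_ncard hsub (hfin q)
    rw [Set.ncard_coe_finset, Finset.card_image_of_injective _ (add_left_injective b)] at h7
    exact_mod_cast hI.trans h7

theorem window_of_sim_large : ∃ K0 : ℕ, ∀ K ≥ K0, ∀ s : ℕ, Odd s → ∀ D : ℕ, 1 ≤ D →
    (D : ℝ) ≤ Real.log K / 125 → ∀ W : Set ℝ, Sim D W →
      Real.exp (-(31 * D)) * Real.sqrt (K / Real.log K) ≤
      (Set.ncard {i : ℕ | s < i ∧ i ≤ K * s ∧ Odd i ∧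
        (∑' n : ℕ, 1 / ((n : ℝ) + 1) ^ i) ∉ W} : ℝ) := by
  classical
  obtain ⟨K0, hK0⟩ := window_large
  refine ⟨K0, fun K hK s hs D hD1 hDs W hW => ?_⟩
  obtain ⟨q0, hq0⟩ := hK0 K hK s hs D hD1 hDs
  have hfin : ({i : ℕ | s < i ∧ i ≤ K * s ∧ Odd i ∧
      (∑' n : ℕ, 1 / ((n : ℝ) + 1) ^ i) ∈ W}).Finite :=
    (Set.finite_Iic (K * s)).subset fun _ hi => hi.2.1
  obtain ⟨q, hq, hap⟩ := hW (hfin.toFinset.image fun i : ℕ => ∑' n : ℕ, 1 / ((n : ℝ) + 1) ^ i)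
    (by
      intro y hy
      rw [Finset.coe_image] at hy
      obtain ⟨i, hi, rfl⟩ := hy
      rw [Finset.mem_coe, Set.Finite.mem_toFinset] at hi
      exact hi.2.2.2) q0
  refine (hq0 q hq).trans ?_
  have hsub : {j : ℕ | s < j ∧ j ≤ K * s ∧ Odd j ∧ ∀ p : ℤ,
      (q : ℝ) ^ (-(1 / (D : ℝ))) ≤ |(q : ℝ) * (∑' n : ℕ, 1 / ((n : ℝ) + 1) ^ j) - p|} ⊆
      {i : ℕ | s < i ∧ i ≤ K * s ∧ Odd i ∧ (∑' n : ℕ, 1 / ((n : ℝ) + 1) ^ i) ∉ W} := by
    rintro j ⟨h1, h2, h3, h4⟩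
    refine ⟨h1, h2, h3, fun hj => ?_⟩
    obtain ⟨p, hp⟩ := hap _ (Finset.mem_image_of_mem _ (hfin.mem_toFinset.2 ⟨h1, h2, h3, hj⟩))
    exact absurd hp (not_lt.2 (h4 p))
  exact_mod_cast Set.ncard_le_ncard hsub ((Set.finite_Iic (K * s)).subset fun _ hi => hi.2.1)

end Pool.Agent.Run7.h123.LC
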