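import Mathlib
import Pool.Agent.Run7.h123.LC.LinX

set_option autoImplicit false

/-!
# Joint digits: repetitions, simultaneous approximations, automata
-/

namespace Pool.Agent.Run7.h123.LC.JD

/-- the number of different blocks of length `m` in the sequence `w` -/
noncomputable def blk {A : Type} (w : ℕ → A) (m : ℕ) : ℕ :=
  (Set.range fun i => fun j : Fin m => w (i + j)).ncard

/-- the digit with index `k + 1` after the point in the base `b` expansion of `x` -/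
noncomputable def dg (b : ℕ) (x : ℝ) (k : ℕ) : ℤ := ⌊x * (b : ℝ) ^ (k + 1)⌋ % (b : ℤ)

theorem dg_mem {b : ℕ} (hb : 2 ≤ b) (x : ℝ) (k : ℕ) : dg b x k ∈ Set.Ico (0 : ℤ) b :=
  ⟨Int.emod_nonneg _ (by omega), Int.emod_lt_of_pos _ (by omega)⟩

theorem floor_step {b : ℕ} (hb : 2 ≤ b) (x : ℝ) (k : ℕ) :
    ⌊x * (b : ℝ) ^ (k + 1)⌋ = (b : ℤ) * ⌊x * (b : ℝ) ^ k⌋ + dg b x k := by
  have hb0 : (0 : ℝ) < b := by
    have : 0 < b := by omega
    exact_mod_cast this
  have h1 : ⌊x * (b : ℝ) ^ (k + 1)⌋ / (b : ℤ) = ⌊x * (b : ℝ) ^ k⌋ := by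
    have h2 : x * (b : ℝ) ^ k = x * (b : ℝ) ^ (k + 1) / (b : ℕ) := by
      rw [pow_succ]
      field_simp
    rw [h2, Int.floor_div_natCast]
  have h3 := Int.mul_ediv_add_emod ⌊x * (b : ℝ) ^ (k + 1)⌋ (b : ℤ)
  rw [h1] at h3
  unfold dg
  linarith

theorem floor_block {b : ℕ} (hb : 2 ≤ b) (x : ℝ) {i j : ℕ} : ∀ m : ℕ,
    (∀ l < m, dg b x (i + l) = dg b x (j + l)) →
    ⌊x * (b : ℝ) ^ (i + m)⌋ - (b : ℤ) ^ m * ⌊x * (b : ℝ) ^ i⌋ =
      ⌊x * (b : ℝ) ^ (j + m)⌋ - (b : ℤ) ^ m * ⌊x * (b : ℝ) ^ j⌋ := by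
  intro m
  induction m with
  | zero => intro _; simp
  | succ m ih =>
    intro h
    have h1 := ih fun l hl => h l (by omega)
    have h2 := h m (by omega)
    rw [← add_assoc, ← add_assoc, floor_step hb x (i + m), floor_step hb x (j + m), h2, pow_succ]
    linear_combination (b : ℤ) * h1

theorem approx_digits {b : ℕ} (hb : 2 ≤ b) (x : ℝ) {i j m : ℕ} (hij : i < j)
    (h : ∀ l < m, dg b x (i + l) = dg b x (j + l)) :
    ∃ p : ℤ, |((b ^ j - b ^ i : ℕ) : ℝ) * x - p| < 1 / (b : ℝ) ^ m := by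
  have hb0 : (0 : ℝ) < b := by
    have : 0 < b := by omega
    exact_mod_cast this
  have h1 := floor_block hb x m h
  obtain ⟨A, hA⟩ : ∃ A : ℤ, A = ⌊x * (b : ℝ) ^ (i + m)⌋ := ⟨_, rfl⟩
  obtain ⟨B, hB⟩ : ∃ B : ℤ, B = ⌊x * (b : ℝ) ^ (j + m)⌋ := ⟨_, rfl⟩
  obtain ⟨U, hU⟩ : ∃ U : ℤ, U = ⌊x * (b : ℝ) ^ i⌋ := ⟨_, rfl⟩
  obtain ⟨V, hV⟩ : ∃ V : ℤ, V = ⌊x * (b : ℝ) ^ j⌋ := ⟨_, rfl⟩
  rw [← hA, ← hB, ← hU, ← hV] at h1
  have h1r : (A : ℝ) - (b : ℝ) ^ m * U = B - (b : ℝ) ^ m * V := by exact_mod_cast h1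
  have a1 : (A : ℝ) ≤ x * (b : ℝ) ^ (i + m) := by rw [hA]; exact Int.floor_le _
  have a2 : x * (b : ℝ) ^ (i + m) < A + 1 := by rw [hA]; exact Int.lt_floor_add_one _
  have b1 : (B : ℝ) ≤ x * (b : ℝ) ^ (j + m) := by rw [hB]; exact Int.floor_le _
  have b2 : x * (b : ℝ) ^ (j + m) < B + 1 := by rw [hB]; exact Int.lt_floor_add_one _
  refine ⟨V - U, ?_⟩
  have hle : b ^ i ≤ b ^ j := Nat.pow_le_pow_right (by omega) hij.le
  rw [Nat.cast_sub hle]
  push_cast
  have hbm : (0 : ℝ) < (b : ℝ) ^ m := by positivity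
  rw [lt_div_iff₀ hbm]
  have e1 : |((b : ℝ) ^ j - (b : ℝ) ^ i) * x - (V - U)| * (b : ℝ) ^ m =
      |(x * (b : ℝ) ^ (j + m) - B) - (x * (b : ℝ) ^ (i + m) - A)| := by
    have h3 : ∀ z c : ℝ, 0 < c → |z| * c = |z * c| := fun z c hc => by
      rw [abs_mul, abs_of_pos hc]
    rw [h3 _ _ hbm]
    congr 1
    rw [pow_add, pow_add]
    linear_combination (-1 : ℝ) * h1r
  rw [e1, abs_lt]
  constructor <;> linarith

theorem blk_finite {ι : Type} [Finite ι] {b : ℕ} (hb : 2 ≤ b) (x : ι → ℝ) (m : ℕ) :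
    (Set.range fun i => fun l : Fin m => fun y : ι => dg b (x y) (i + l)).Finite := by
  have h1 : (Set.univ.pi fun _ : Fin m => Set.univ.pi fun _ : ι => Set.Ico (0 : ℤ) b).Finite :=
    Set.Finite.pi fun _ => Set.Finite.pi fun _ => Set.finite_Ico _ _
  refine h1.subset ?_
  rintro _ ⟨i, rfl⟩
  intro l _ y _
  exact dg_mem hb _ _

/-- a repeated block -/
theorem repetition {A : Type} (w : ℕ → A) (m N : ℕ)
    (hfin : (Set.range fun i => fun l : Fin m => w (i + l)).Finite) (h : blk w m < N) :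
    ∃ i j, i < j ∧ j < N ∧ ∀ l < m, w (i + l) = w (j + l) := by
  classical
  have hc : hfin.toFinset.card < (Finset.range N).card := by
    rw [Finset.card_range, ← Set.ncard_eq_toFinset_card _ hfin]
    exact h
  obtain ⟨i, hi, j, hj, hne, hij⟩ := Finset.exists_ne_map_eq_of_card_lt_of_maps_to hc
    (f := fun i => fun l : Fin m => w (i + l)) (fun i _ => by
      rw [Finset.mem_coe, Set.Finite.mem_toFinset]
      exact ⟨i, rfl⟩)
  rw [Finset.mem_range] at hi hj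
  have key : ∀ i j : ℕ, i < j → j < N → (fun l : Fin m => w (i + l)) = (fun l : Fin m => w (j + l)) →
      ∃ i j, i < j ∧ j < N ∧ ∀ l < m, w (i + l) = w (j + l) := fun i j h1 h2 h3 =>
    ⟨i, j, h1, h2, fun l hl => congrFun h3 ⟨l, hl⟩⟩
  rcases lt_or_gt_of_ne hne with h1 | h1
  · exact key i j h1 hj hij
  · exact key j i h1 hi hij.symm

/-- early repetitions in the joint digits give simultaneous approximations -/
theorem sim_repeat {ι : Type} {b : ℕ} (hb : 2 ≤ b) (x : ι → ℝ) {D : ℕ} (hD : 1 ≤ D)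
    (q0 : ℕ) : ∃ m0 : ℕ, ∀ m ≥ m0, ∀ i j : ℕ, i < j → j < D * m →
      (∀ l < m, ∀ y, dg b (x y) (i + l) = dg b (x y) (j + l)) →
      ∃ q : ℕ, q0 ≤ q ∧ ∀ y, ∃ p : ℤ, |(q : ℝ) * x y - p| < (q : ℝ) ^ (-(1 / (D : ℝ))) := by
  have hb1 : (1 : ℝ) < b := by
    have : 1 < b := by omega
    exact_mod_cast this
  have hDr : (0 : ℝ) < D := by exact_mod_cast hD
  obtain ⟨Q, hQ⟩ : ∃ Q : ℕ, Q = q0 + 1 := ⟨_, rfl⟩
  refine ⟨Q ^ 3, fun m hm i j hij hj hw => ?_⟩
  have hap : ∀ y, ∃ p : ℤ, |((b ^ j - b ^ i : ℕ) : ℝ) * x y - p| < 1 / (b : ℝ) ^ m := fun y =>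
    approx_digits hb (x y) hij fun l hl => hw l hl y
  obtain ⟨q, hq⟩ : ∃ q : ℕ, q = b ^ j - b ^ i := ⟨_, rfl⟩
  rw [← hq] at hap
  have hlt' : b ^ i < b ^ j := Nat.pow_lt_pow_right (by omega) hij
  have hq1 : 1 ≤ q := by omega
  have hq2 : q < b ^ (D * m) := by
    have h1 : b ^ j ≤ b ^ (D * m) := Nat.pow_le_pow_right (by omega) hj.le
    have h2 : 0 < b ^ i := Nat.pow_pos (by omega)
    omega
  rcases Nat.lt_or_ge q q0 with hlt0 | hge
  · -- a small denominator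
    refine ⟨q * Q, ?_, fun y => ?_⟩
    · calc q0 ≤ 1 * Q := by omega
        _ ≤ q * Q := Nat.mul_le_mul_right Q hq1
    obtain ⟨p, hp⟩ := hap y
    refine ⟨p * Q, ?_⟩
    have hQ1 : (1 : ℝ) ≤ Q := by
      have : 1 ≤ Q := by omega
      exact_mod_cast this
    have hqQ : (q : ℝ) ≤ Q := by
      have : q ≤ Q := by omega
      exact_mod_cast this
    have hq1r : (1 : ℝ) ≤ q := by exact_mod_cast hq1
    have e1 : |((q * Q : ℕ) : ℝ) * x y - ((p * Q : ℤ) : ℝ)| = |(q : ℝ) * x y - p| * Q := by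
      push_cast
      rw [← abs_of_pos (show (0 : ℝ) < Q by linarith), ← abs_mul, abs_of_pos (show (0 : ℝ) < Q by linarith)]
      congr 1
      ring
    rw [e1]
    have h2m : (Q : ℝ) ^ 3 < (b : ℝ) ^ m := by
      have h1 : Q ^ 3 < b ^ m := by
        calc Q ^ 3 ≤ m := hm
          _ < 2 ^ m := Nat.lt_two_pow_self
          _ ≤ b ^ m := Nat.pow_le_pow_left hb m
      exact_mod_cast h1
    have h3 : |(q : ℝ) * x y - p| * Q < 1 / (Q : ℝ) ^ 2 := by
      calc |(q : ℝ) * x y - p| * Q < 1 / (b : ℝ) ^ m * Q :=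
            mul_lt_mul_of_pos_right hp (by linarith)
        _ ≤ 1 / (Q : ℝ) ^ 3 * Q := by
            apply mul_le_mul_of_nonneg_right _ (by linarith)
            exact one_div_le_one_div_of_le (by positivity) h2m.le
        _ = 1 / (Q : ℝ) ^ 2 := by field_simp
    refine h3.trans_le ?_
    push_cast
    have h4 : (1 : ℝ) ≤ (q : ℝ) * Q := by nlinarith
    have h5 : (q : ℝ) * Q ≤ (Q : ℝ) ^ 2 := by nlinarith
    calc 1 / (Q : ℝ) ^ 2 ≤ 1 / ((q : ℝ) * Q) := one_div_le_one_div_of_le (by linarith) h5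
      _ = ((q : ℝ) * Q) ^ (-1 : ℝ) := by rw [Real.rpow_neg_one, one_div]
      _ ≤ ((q : ℝ) * Q) ^ (-(1 / (D : ℝ))) := by
          apply Real.rpow_le_rpow_of_exponent_le h4
          rw [neg_le_neg_iff, div_le_one hDr]
          exact_mod_cast hD
  · refine ⟨q, hge, fun y => ?_⟩
    obtain ⟨p, hp⟩ := hap y
    refine ⟨p, hp.trans ?_⟩
    have hq0r : (0 : ℝ) < q := by exact_mod_cast hq1
    have h1 : (q : ℝ) ^ (1 / (D : ℝ)) < (b : ℝ) ^ m := by
      have h2 : (q : ℝ) < ((b : ℝ) ^ m) ^ D := by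
        rw [← pow_mul, mul_comm m D]
        exact_mod_cast hq2
      calc (q : ℝ) ^ (1 / (D : ℝ)) < (((b : ℝ) ^ m) ^ D) ^ (1 / (D : ℝ)) :=
            Real.rpow_lt_rpow hq0r.le h2 (by positivity)
        _ = (b : ℝ) ^ m := by
            rw [← Real.rpow_natCast, ← Real.rpow_mul (by positivity), mul_one_div_cancel hDr.ne',
              Real.rpow_one]
    rw [Real.rpow_neg hq0r.le, ← one_div]
    exact one_div_lt_one_div_of_lt (by positivity) h1

/-! ### automata -/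

/-- the state after reading the `r` base `a` digits of `e` -/
def run {Q : Type} (a : ℕ) (δ : Q → ℕ → Q) : ℕ → Q → ℕ → Q
  | 0, q, _ => q
  | r + 1, q, e => δ (run a δ r q (e / a)) (e % a)

theorem run_spec {Q : Type} {a : ℕ} (ha : 2 ≤ a) {δ : Q → ℕ → Q} {st : ℕ → Q}
    (h : ∀ k ≥ 1, ∀ d < a, st (a * k + d) = δ (st k) d) : ∀ r : ℕ, ∀ k ≥ 1, ∀ e < a ^ r,
    st (a ^ r * k + e) = run a δ r (st k) e := by
  intro r
  induction r with
  | zero =>
    intro k _ e he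
    rw [pow_zero, Nat.lt_one_iff] at he
    subst he
    simp [run]
  | succ r ih =>
    intro k hk e he
    have h1 : e / a < a ^ r := by
      rw [Nat.div_lt_iff_lt_mul (by omega)]
      calc e < a ^ (r + 1) := he
        _ = a ^ r * a := pow_succ _ _
    have h2 := ih k hk (e / a) h1
    have h3 : 1 ≤ a ^ r * k + e / a := by
      have : 0 < a ^ r * k := Nat.mul_pos (Nat.pow_pos (by omega)) hk
      exact le_trans this (Nat.le_add_right _ _)
    have h4 := h (a ^ r * k + e / a) h3 (e % a) (Nat.mod_lt _ (by omega))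
    have h5 : a * (a ^ r * k + e / a) + e % a = a ^ (r + 1) * k + e := by
      have := Nat.div_add_mod e a
      rw [pow_succ]
      nlinarith
    rw [h5] at h4
    rw [h4, h2]
    rfl

theorem blk_automatic {Q A : Type} [Fintype Q] {a : ℕ} (ha : 2 ≤ a) {δ : Q → ℕ → Q} {st : ℕ → Q}
    (h : ∀ k ≥ 1, ∀ d < a, st (a * k + d) = δ (st k) d) (τ : Q → A) (w : ℕ → A)
    (hw : ∀ k, w k = τ (st k)) {m : ℕ} (hm : 1 ≤ m) :
    blk w m ≤ a * (Fintype.card Q ^ 2 + 1) * m := by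
  classical
  obtain ⟨r, hr⟩ : ∃ r, r = Nat.clog a m := ⟨_, rfl⟩
  have h1 : m ≤ a ^ r := by rw [hr]; exact Nat.le_pow_clog (by omega) m
  have h2 : a ^ r ≤ a * m := by
    rcases Nat.eq_zero_or_pos r with h0 | h0
    · rw [h0, pow_zero]
      nlinarith
    · have hm2 : 1 < m := by
        by_contra hcon
        have : m = 1 := by omega
        rw [this, Nat.clog_one_right] at hr
        omega
      have h3 := Nat.pow_pred_clog_lt_self (show 1 < a by omega) hm2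
      rw [← hr] at h3
      obtain ⟨t, rfl⟩ : ∃ t, r = t + 1 := ⟨r - 1, by omega⟩
      rw [pow_succ, mul_comm]
      exact Nat.mul_le_mul_left a h3.le
  have har : 0 < a ^ r := Nat.pow_pos (by omega)
  obtain ⟨F, hF⟩ : ∃ F : Q × Q × Fin (a ^ r) → (Fin m → A), F =
      fun (p : Q × Q × Fin (a ^ r)) (l : Fin m) => if (p.2.2 : ℕ) + l < a ^ r then τ (run a δ r p.1 (p.2.2 + l))
      else τ (run a δ r p.2.1 (p.2.2 + l - a ^ r)) := ⟨_, rfl⟩
  obtain ⟨G, hG⟩ : ∃ G : Fin (a ^ r) → (Fin m → A), G =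
      fun (n : Fin (a ^ r)) (l : Fin m) => w ((n : ℕ) + l) := ⟨_, rfl⟩
  have hsub : (Set.range fun i => fun l : Fin m => w (i + l)) ⊆
      ((Finset.univ.image F ∪ Finset.univ.image G : Finset (Fin m → A)) : Set (Fin m → A)) := by
    rintro _ ⟨n, rfl⟩
    rw [Finset.mem_coe, Finset.mem_union, Finset.mem_image, Finset.mem_image]
    rcases Nat.lt_or_ge n (a ^ r) with hn | hn
    · refine Or.inr ⟨⟨n, hn⟩, Finset.mem_univ _, ?_⟩
      rw [hG]
    · left
      obtain ⟨k, hk⟩ : ∃ k, k = n / a ^ r := ⟨_, rfl⟩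
      have hk1 : 1 ≤ k := by
        rw [hk, Nat.one_le_div_iff har]
        exact hn
      have hlt : n % a ^ r < a ^ r := Nat.mod_lt _ har
      refine ⟨(st k, st (k + 1), ⟨n % a ^ r, hlt⟩), Finset.mem_univ _, ?_⟩
      rw [hF]
      funext l
      have hn2 : n = a ^ r * k + n % a ^ r := by rw [hk, Nat.div_add_mod]
      have hl : (l : ℕ) < m := l.2
      simp only
      split_ifs with hlt2
      · rw [← run_spec ha h r k hk1 _ hlt2, ← hw]
        congr 1
        omega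
      · rw [← run_spec ha h r (k + 1) (by omega) _ (by omega), ← hw]
        congr 1
        have : a ^ r * (k + 1) = a ^ r * k + a ^ r := by ring
        omega
  unfold blk
  calc (Set.range fun i => fun l : Fin m => w (i + l)).ncard
      ≤ (((Finset.univ.image F ∪ Finset.univ.image G : Finset (Fin m → A))) : Set (Fin m → A)).ncard :=
        Set.ncard_le_ncard hsub (Finset.finite_toSet _)
    _ = (Finset.univ.image F ∪ Finset.univ.image G).card := Set.ncard_coe_finset _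
    _ ≤ (Finset.univ.image F).card + (Finset.univ.image G).card := Finset.card_union_le _ _
    _ ≤ Fintype.card (Q × Q × Fin (a ^ r)) + Fintype.card (Fin (a ^ r)) :=
        Nat.add_le_add Finset.card_image_le Finset.card_image_le
    _ = (Fintype.card Q ^ 2 + 1) * a ^ r := by
        rw [Fintype.card_prod, Fintype.card_prod, Fintype.card_fin]
        ring
    _ ≤ (Fintype.card Q ^ 2 + 1) * (a * m) := Nat.mul_le_mul_left _ h2
    _ = a * (Fintype.card Q ^ 2 + 1) * m := by ring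

/-- early repetitions in automatic sequences -/
theorem repeat_automatic {A : Type} {a N : ℕ} (ha : 2 ≤ a) {δ : Fin N → ℕ → Fin N}
    {st : ℕ → Fin N} (h : ∀ k ≥ 1, ∀ d < a, st (a * k + d) = δ (st k) d) (τ : Fin N → A)
    (w : ℕ → A) (hw : ∀ k, w k = τ (st k)) (r : ℕ) :
    ∃ i j, i < j ∧ j ≤ (N + 1) * a ^ r ∧ ∀ l < a ^ r, w (i + l) = w (j + l) := by
  have hc : (Finset.univ : Finset (Fin N)).card < (Finset.Icc 1 (N + 1)).card := by
    rw [Finset.card_univ, Fintype.card_fin, Nat.card_Icc]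
    omega
  obtain ⟨k, hk, k', hk', hne, hkk⟩ := Finset.exists_ne_map_eq_of_card_lt_of_maps_to hc
    (f := st) (fun _ _ => Finset.mem_coe.2 (Finset.mem_univ _))
  rw [Finset.mem_Icc] at hk hk'
  have har : 0 < a ^ r := Nat.pow_pos (by omega)
  have key : ∀ k k' : ℕ, 1 ≤ k → k < k' → k' ≤ N + 1 → st k = st k' →
      ∃ i j, i < j ∧ j ≤ (N + 1) * a ^ r ∧ ∀ l < a ^ r, w (i + l) = w (j + l) := by
    intro k k' h1 h2 h3 h4
    refine ⟨a ^ r * k, a ^ r * k', Nat.mul_lt_mul_of_pos_left h2 har, ?_, fun l hl => ?_⟩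
    · rw [mul_comm (N + 1)]
      exact Nat.mul_le_mul_left _ h3
    · rw [hw, hw, run_spec ha h r k h1 l hl, run_spec ha h r k' (by omega) l hl, h4]
  rcases lt_or_gt_of_ne hne with h1 | h1
  · exact key k k' hk.1 h1 hk'.2 hkk
  · exact key k' k hk'.1 h1 hk.2 hkk.symm

end Pool.Agent.Run7.h123.LC.JD
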