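import Mathlib
import Pool.Agent.Run7.h123.LC.JD

set_option autoImplicit false

/-!
# Predictors of a sequence without early repetitions
-/

namespace Pool.Agent.Run7.h123.LC.JE

open Classical in
/-- A predictor with `N` states reads the letters of a sequence and announces the next letter. -/
structure Pr (A : Type) (N : ℕ) where
  /-- the first state -/
  start : Fin N
  /-- the next state -/
  next : Fin N → A → Fin N
  /-- the announced letter -/
  announce : Fin N → A

/-- the state before reading the letter with index `k` -/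
def Pr.state {A : Type} {N : ℕ} (P : Pr A N) (w : ℕ → A) : ℕ → Fin N
  | 0 => P.start
  | k + 1 => P.next (P.state w k) (w k)

open Classical in
/-- the wrong announcements for the first `M` letters -/
noncomputable def Pr.wrong {A : Type} {N : ℕ} (P : Pr A N) (w : ℕ → A) (M : ℕ) : Finset ℕ :=
  (Finset.range M).filter fun k => P.announce (P.state w k) ≠ w k

theorem run_bound {A : Type} {N : ℕ} (P : Pr A N) (w : ℕ → A) {D m0 : ℕ}
    (h : ∀ m ≥ m0, ∀ i i' : ℕ, i < i' → i' < D * m → ∃ l < m, w (i + l) ≠ w (i' + l)) (u M : ℕ)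
    (hr : ∀ k, u ≤ k → k < M → P.announce (P.state w k) = w k) :
    D * M ≤ (D + 1) * (u + N + m0) := by
  rcases Nat.lt_or_ge (u + N + m0) M with hlt | hge
  · have hc : (Finset.univ : Finset (Fin N)).card < (Finset.range (N + 1)).card := by
      rw [Finset.card_univ, Fintype.card_fin, Finset.card_range]
      omega
    obtain ⟨c, hc1, c', hc2, hne, hcc⟩ := Finset.exists_ne_map_eq_of_card_lt_of_maps_to hc
      (f := fun c => P.state w (u + c)) (fun _ _ => Finset.mem_coe.2 (Finset.mem_univ _))
    rw [Finset.mem_range] at hc1 hc2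
    have key : ∀ c c' : ℕ, c < c' → c' ≤ N → P.state w (u + c) = P.state w (u + c') →
        D * M ≤ (D + 1) * (u + N + m0) := by
      intro c c' h1 h2 h3
      have h4 : ∀ l, u + c' + l ≤ M → P.state w (u + c + l) = P.state w (u + c' + l) := by
        intro l
        induction l with
        | zero => intro _; exact h3
        | succ l ih =>
          intro hl
          have h5 := ih (by omega)
          have e1 := hr (u + c + l) (by omega) (by omega)
          have e2 := hr (u + c' + l) (by omega) (by omega)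
          rw [← add_assoc, ← add_assoc]
          show P.next (P.state w (u + c + l)) (w (u + c + l)) =
            P.next (P.state w (u + c' + l)) (w (u + c' + l))
          rw [← e1, ← e2, h5]
      have h6 : ¬ (u + c' < D * (M - (u + c'))) := by
        intro hcon
        obtain ⟨l, hl, hw⟩ := h (M - (u + c')) (by omega) (u + c) (u + c') (by omega) hcon
        apply hw
        rw [← hr (u + c + l) (by omega) (by omega), ← hr (u + c' + l) (by omega) (by omega),
          h4 l (by omega)]
      push Not at h6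
      obtain ⟨t, ht⟩ : ∃ t, M = u + c' + t := ⟨M - (u + c'), by omega⟩
      have h7 : M - (u + c') = t := by omega
      rw [h7] at h6
      calc D * M = D * (u + c') + D * t := by rw [ht]; ring
        _ ≤ D * (u + c') + (u + c') := Nat.add_le_add_left h6 _
        _ = (D + 1) * (u + c') := by ring
        _ ≤ (D + 1) * (u + N + m0) := Nat.mul_le_mul_left _ (by omega)
    rcases lt_or_gt_of_ne hne with h1 | h1
    · exact key c c' h1 (by omega) hcc
    · exact key c' c h1 (by omega) hcc.symm
  · calc D * M ≤ D * (u + N + m0) := Nat.mul_le_mul_left _ hge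
      _ ≤ (D + 1) * (u + N + m0) := Nat.mul_le_mul_right _ (by omega)

theorem growth {A : Type} {N : ℕ} (P : Pr A N) (w : ℕ → A) {D m0 : ℕ} (hD : 1 ≤ D)
    (h : ∀ m ≥ m0, ∀ i i' : ℕ, i < i' → i' < D * m → ∃ l < m, w (i + l) ≠ w (i' + l)) :
    ∀ n M : ℕ, (P.wrong w M).card ≤ n →
      (M : ℝ) ≤ ((1 + 1 / (D : ℝ)) ^ (n + 1) - 1) * ((D + 1) * (N + m0 + 1)) := by
  classical
  have hDr : (0 : ℝ) < D := by exact_mod_cast hD
  obtain ⟨ρ, hρ⟩ : ∃ ρ : ℝ, ρ = 1 + 1 / (D : ℝ) := ⟨_, rfl⟩
  obtain ⟨B, hB⟩ : ∃ B : ℝ, B = (N : ℝ) + m0 + 1 := ⟨_, rfl⟩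
  rw [← hρ, ← hB]
  have hB0 : 0 < B := by rw [hB]; positivity
  have hρ1 : 1 ≤ ρ := by
    rw [hρ]
    have : 0 ≤ 1 / (D : ℝ) := by positivity
    linarith
  have hρD : (ρ - 1) * (D + 1) = ρ := by
    rw [hρ]
    field_simp
    ring
  have hrun : ∀ u M : ℕ, (∀ k, u ≤ k → k < M → P.announce (P.state w k) = w k) →
      (M : ℝ) ≤ ρ * (u + (N + m0)) := by
    intro u M hr
    have h1 := run_bound P w h u M hr
    have h2 : (D : ℝ) * M ≤ (D + 1) * (u + N + m0) := by exact_mod_cast h1
    have h3 : ρ * (u + (N + m0)) = ((D + 1) * (u + N + m0)) / D := by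
      rw [hρ]
      field_simp
      ring
    rw [h3, le_div_iff₀ hDr]
    linarith
  intro n
  induction n with
  | zero =>
    intro M hM
    have h0 : P.wrong w M = ∅ := Finset.card_eq_zero.1 (Nat.le_zero.1 hM)
    have h1 := hrun 0 M fun k _ hk => by
      by_contra hne
      have : k ∈ P.wrong w M := Finset.mem_filter.2 ⟨Finset.mem_range.2 hk, hne⟩
      rw [h0] at this
      exact absurd this (Finset.notMem_empty k)
    calc (M : ℝ) ≤ ρ * ((0 : ℕ) + (N + m0)) := h1
      _ ≤ ρ * B := by
          apply mul_le_mul_of_nonneg_left _ (by linarith)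
          rw [hB]
          push_cast
          linarith
      _ = (ρ - 1) * (D + 1) * B := by rw [hρD]
      _ = (ρ ^ (0 + 1) - 1) * ((D + 1) * B) := by ring
  | succ n ih =>
    intro M hM
    have hmono : (ρ ^ (n + 1) - 1) * ((D + 1) * B) ≤ (ρ ^ (n + 1 + 1) - 1) * ((D + 1) * B) := by
      apply mul_le_mul_of_nonneg_right _ (by positivity)
      have := pow_le_pow_right₀ hρ1 (show n + 1 ≤ n + 1 + 1 by omega)
      linarith
    rcases Nat.lt_or_ge n (P.wrong w M).card with hlt | hge
    · have hne : (P.wrong w M).Nonempty := Finset.card_pos.1 (by omega)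
      obtain ⟨e, he⟩ : ∃ e, e = (P.wrong w M).max' hne := ⟨_, rfl⟩
      have heS : e ∈ P.wrong w M := by rw [he]; exact Finset.max'_mem _ _
      have heM : e < M := Finset.mem_range.1 (Finset.mem_filter.1 heS).1
      have hsub : P.wrong w e ⊆ (P.wrong w M).erase e := by
        intro k hk
        obtain ⟨h1, h2⟩ := Finset.mem_filter.1 hk
        rw [Finset.mem_range] at h1
        exact Finset.mem_erase.2 ⟨by omega, Finset.mem_filter.2 ⟨Finset.mem_range.2 (by omega), h2⟩⟩
      have hcard : (P.wrong w e).card ≤ n := by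
        have h1 := Finset.card_le_card hsub
        rw [Finset.card_erase_of_mem heS] at h1
        omega
      have h1 := ih e hcard
      have h2 := hrun (e + 1) M fun k hk1 hk2 => by
        by_contra hne'
        have hk : k ∈ P.wrong w M := Finset.mem_filter.2 ⟨Finset.mem_range.2 hk2, hne'⟩
        have := Finset.le_max' _ k hk
        rw [← he] at this
        omega
      have e1 : ((e + 1 : ℕ) : ℝ) + (N + m0) = e + B := by
        rw [hB]
        push_cast
        ring
      rw [e1] at h2
      calc (M : ℝ) ≤ ρ * (e + B) := h2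
        _ ≤ ρ * ((ρ ^ (n + 1) - 1) * ((D + 1) * B) + B) := by
            apply mul_le_mul_of_nonneg_left _ (by linarith)
            linarith
        _ = (ρ ^ (n + 1 + 1) - 1) * ((D + 1) * B) - ((ρ - 1) * (D + 1) - ρ) * B := by ring
        _ = (ρ ^ (n + 1 + 1) - 1) * ((D + 1) * B) := by rw [hρD]; ring
    · exact (ih M hge).trans hmono

/-- **Errors of predictors.** -/
theorem errors {A : Type} (w : ℕ → A) {D m0 : ℕ} (hD : 1 ≤ D)
    (h : ∀ m ≥ m0, ∀ i i' : ℕ, i < i' → i' < D * m → ∃ l < m, w (i + l) ≠ w (i' + l))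
    {N : ℕ} (P : Pr A N) {M : ℕ} (hM : 1 ≤ M) :
    D * Real.log (M / (N + 1)) - (D * Real.log ((D + 1) * (m0 + 1)) + 1) ≤
      ((P.wrong w M).card : ℝ) := by
  have hDr : (0 : ℝ) < D := by exact_mod_cast hD
  have hMr : (0 : ℝ) < M := by exact_mod_cast hM
  obtain ⟨n, hn⟩ : ∃ n, n = (P.wrong w M).card := ⟨_, rfl⟩
  have h1 := growth P w hD h n M hn.symm.le
  rw [← hn]
  have h2 : (M : ℝ) / (N + 1) ≤ (1 + 1 / (D : ℝ)) ^ (n + 1) * ((D + 1) * (m0 + 1)) := by
    rw [div_le_iff₀ (by positivity)]
    have h3 : ((N : ℝ) + m0 + 1) ≤ (m0 + 1) * (N + 1) := by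
      have : (0 : ℝ) ≤ (N : ℝ) * m0 := by positivity
      nlinarith
    have h4 : (0 : ℝ) ≤ (1 + 1 / (D : ℝ)) ^ (n + 1) := by positivity
    calc (M : ℝ) ≤ ((1 + 1 / (D : ℝ)) ^ (n + 1) - 1) * ((D + 1) * (N + m0 + 1)) := h1
      _ ≤ (1 + 1 / (D : ℝ)) ^ (n + 1) * ((D + 1) * (N + m0 + 1)) := by
          apply mul_le_mul_of_nonneg_right _ (by positivity)
          linarith
      _ ≤ (1 + 1 / (D : ℝ)) ^ (n + 1) * ((D + 1) * ((m0 + 1) * (N + 1))) := by gcongr
      _ = _ := by ring
  have h5 : Real.log ((M : ℝ) / (N + 1)) ≤ (n + 1) * (1 / D) + Real.log ((D + 1) * (m0 + 1)) := by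
    calc Real.log ((M : ℝ) / (N + 1))
        ≤ Real.log ((1 + 1 / (D : ℝ)) ^ (n + 1) * ((D + 1) * (m0 + 1))) :=
          Real.log_le_log (by positivity) h2
      _ = (n + 1 : ℕ) * Real.log (1 + 1 / (D : ℝ)) + Real.log ((D + 1) * (m0 + 1)) := by
          rw [Real.log_mul (by positivity) (by positivity), Real.log_pow]
      _ ≤ (n + 1) * (1 / D) + Real.log ((D + 1) * (m0 + 1)) := by
          have h6 : Real.log (1 + 1 / (D : ℝ)) ≤ 1 / D := by
            have := Real.log_le_sub_one_of_pos (show (0 : ℝ) < 1 + 1 / (D : ℝ) by positivity)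
            linarith
          push_cast
          gcongr
  have h7 : (D : ℝ) * ((n + 1) * (1 / D)) = n + 1 := by field_simp
  nlinarith [mul_le_mul_of_nonneg_left h5 hDr.le]

end Pool.Agent.Run7.h123.LC.JE
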